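import Pool.Agent.EI28X.Cyclic

set_option autoImplicit false

/-! `2 s + 1` equiangular lines in `ℂ ^ (s + 1)`. -/

namespace Pool.Agent.EI28X

open Finset ComplexConjugate Module Pool.Agent.H32Iso

section

variable {d p : ℕ}

/-- the pairing with `v` -/
noncomputable def prc (v : Fin d → ℂ) (x : Sp ℂ d) : ℂ := ∑ a, conj (v a) * x a

theorem prc_smul (v u : Fin d → ℂ) (c : ℂ) :
    prc v (c • (WithLp.toLp 2 u : Sp ℂ d)) = c * ∑ a, conj (v a) * u a := by
  unfold prc
  rw [mul_sum]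
  refine sum_congr rfl fun a _ => ?_
  rw [PiLp.smul_apply, smul_eq_mul]
  ring

theorem proj_line (v : Fin d → ℂ) (hv : ∑ a, conj (v a) * v a = 1) {x y : Sp ℂ d}
    (h : IsProj (Submodule.span ℂ {(WithLp.toLp 2 v : Sp ℂ d)}) x y) :
    y = prc v x • (WithLp.toLp 2 v : Sp ℂ d) := by
  obtain ⟨hy, hxy⟩ := h
  obtain ⟨c, rfl⟩ := Submodule.mem_span_singleton.mp hy
  set e := prc v x - c with he
  have h1 := hxy (e • (WithLp.toLp 2 v : Sp ℂ d))
    (Submodule.smul_mem _ _ (Submodule.mem_span_singleton_self _))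
  have h3 : prc v (x - c • (WithLp.toLp 2 v : Sp ℂ d)) = e := by
    have e1 : prc v (x - c • (WithLp.toLp 2 v : Sp ℂ d)) =
        prc v x - prc v (c • (WithLp.toLp 2 v : Sp ℂ d)) := by
      unfold prc
      rw [← sum_sub_distrib]
      exact sum_congr rfl fun b _ => by rw [PiLp.sub_apply, mul_sub]
    rw [e1, prc_smul, hv, mul_one]
  have h2 : inner ℝ (x - c • (WithLp.toLp 2 v : Sp ℂ d)) (e • (WithLp.toLp 2 v : Sp ℂ d)) =
      (e * conj (prc v (x - c • (WithLp.toLp 2 v : Sp ℂ d)))).re := by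
    rw [PiLp.inner_apply]
    unfold prc
    rw [map_sum, mul_sum, Complex.re_sum]
    refine sum_congr rfl fun a _ => ?_
    rw [PiLp.smul_apply, smul_eq_mul, Complex.inner, map_mul, Complex.conj_conj]
    congr 1
    ring
  rw [h2, h3, Complex.mul_conj, Complex.ofReal_re, Complex.normSq_eq_zero] at h1
  rw [sub_eq_zero.mp (he.symm.trans h1)]

theorem lines_cplx (v : Fin p → Fin d → ℂ) (lam : ℝ) (h0 : 0 ≤ lam) (hl : lam < 1)
    (h1 : ∀ i, ∑ b, conj (v i b) * v i b = 1)
    (h2 : ∀ i j, i ≠ j → (∑ b, conj (v j b) * v i b) * (∑ b, conj (v i b) * v j b) = lam)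
    (hspan : ⨆ i, Submodule.span ℂ {(WithLp.toLp 2 (v i) : Sp ℂ d)} = ⊤) :
    EquiIsoclinic ℂ 1 d p lam (fun i => Submodule.span ℂ {(WithLp.toLp 2 (v i) : Sp ℂ d)}) where
  nonneg := h0
  lt_one := hl
  rank := by
    intro i
    apply finrank_span_singleton
    intro h
    have h3 : ∀ b, v i b = 0 := by
      intro b
      have := congrArg (fun z : Sp ℂ d => z b) h
      simpa using this
    have := h1 i
    simp [h3] at this
  span := hspan
  iso := by
    intro i j hij x y z w e1 e2 e3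
    have f1 := proj_line _ (h1 i) e1
    have f2 := proj_line _ (h1 j) e2
    have f3 := proj_line _ (h1 i) e3
    rw [f3, f2, prc_smul, f1, prc_smul]
    have h3 := h2 i j hij
    have e : prc (v i) x * (∑ a, conj (v j a) * v i a) * (∑ a, conj (v i a) * v j a) =
        (lam : ℂ) * prc (v i) x := by rw [mul_assoc, h3]; ring
    rw [e, mul_smul]
    rfl

end

theorem cyclic_lines (s : ℕ) (hs : 1 ≤ s) :
    ∃ (lam : ℝ) (V : Fin (2 * s + 1) → Submodule ℂ (Sp ℂ (s + 1))), 1 / 2 ≤ lam ∧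
      EquiIsoclinic ℂ 1 (s + 1) (2 * s + 1) lam V := by
  have hsR : (1 : ℝ) ≤ s := by exact_mod_cast hs
  obtain ⟨P, x, hP0, hPδ, hx, hPx⟩ := exists_weights s (1 / (2 * s + 2)) (by positivity)
  have hPs : (2 * s + 2) * P < 1 := by
    rw [lt_div_iff₀ (by positivity)] at hPδ
    linarith
  set w := wt P x with hw
  have hw0 : ∀ d, 0 < w d := by
    intro d
    refine Fin.cases ?_ (fun a => ?_) d
    · simp [hw, wt]
    · simp only [hw, wt, Fin.cons_succ]
      exact mul_pos hP0 (hx a)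
  set S := ∑ d, w d with hS
  have hS0 : 0 < S := sum_pos (fun d _ => hw0 d) univ_nonempty
  set T2 := ∑ d, w d ^ 2 with hT2
  have hT1 : 1 ≤ T2 := by
    have h1 : w 0 ^ 2 ≤ T2 := single_le_sum (f := fun d => w d ^ 2)
      (fun d _ => sq_nonneg (w d)) (mem_univ (0 : Fin (s + 1)))
    have h2 : w 0 = 1 := by simp [hw, wt]
    rw [h2] at h1
    linarith
  have hSS : S ^ 2 = T2 + 2 * s * P := by
    have h1 := norm_poly hPx (ρ := 1) (by simp)
    simp only [one_pow, mul_one, map_one] at h1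
    have e1 : (∑ d, (w d : ℂ)) = (S : ℂ) := by rw [hS]; push_cast; rfl
    rw [e1, Complex.conj_ofReal, Finset.sum_const, card_univ, Fintype.card_fin, nsmul_eq_mul] at h1
    have h2 : ((S ^ 2 : ℝ) : ℂ) = ((T2 + 2 * s * P : ℝ) : ℂ) := by
      push_cast
      push_cast at h1
      rw [sq, h1, hT2]
      push_cast
      ring
    exact_mod_cast h2
  -- the root of unity
  set p := 2 * s + 1 with hp
  have hp0 : p ≠ 0 := by omega
  set ω := Complex.exp (2 * Real.pi * Complex.I / p) with hω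
  have hprim : IsPrimitiveRoot ω p := Complex.isPrimitiveRoot_exp p hp0
  have hωn : conj ω * ω = 1 := by
    rw [mul_comm, Complex.mul_conj, Complex.normSq_eq_norm_sq, hprim.norm'_eq_one hp0]
    simp
  set v : Fin p → Fin (s + 1) → ℂ := fun i d => ((√(w d / S) : ℝ) : ℂ) * (ω ^ i.val) ^ d.val with hv
  have hvv : ∀ i j, ∑ d, conj (v j d) * v i d =
      (S : ℂ)⁻¹ * ∑ d, (w d : ℂ) * (conj (ω ^ j.val) * ω ^ i.val) ^ d.val := by
    intro i j
    rw [mul_sum]
    refine sum_congr rfl fun d _ => ?_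
    simp only [hv, map_mul, map_pow, Complex.conj_ofReal]
    have h1 : ((√(w d / S) : ℝ) : ℂ) * ((√(w d / S) : ℝ) : ℂ) = (S : ℂ)⁻¹ * (w d : ℂ) := by
      rw [← Complex.ofReal_mul, Real.mul_self_sqrt (div_pos (hw0 d) hS0).le]
      push_cast
      field_simp
    rw [mul_pow (conj ω ^ j.val) (ω ^ i.val)]
    linear_combination (conj ω ^ j.val) ^ d.val * (ω ^ i.val) ^ d.val * h1
  have hconj : ∀ i j : Fin p, conj (conj (ω ^ j.val) * ω ^ i.val) * (conj (ω ^ j.val) * ω ^ i.val)
      = 1 := by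
    intro i j
    have h1 : ∀ m : ℕ, conj ω ^ m * ω ^ m = 1 := fun m => by rw [← mul_pow, hωn, one_pow]
    simp only [map_mul, map_pow, Complex.conj_conj]
    have h2 := h1 i.val
    have h3 := h1 j.val
    linear_combination (conj ω ^ j.val * ω ^ j.val) * h2 + h3
  have hroot : ∀ i j : Fin p, (conj (ω ^ j.val) * ω ^ i.val) ^ p = 1 := by
    intro i j
    have h1 : conj ω ^ p = 1 := by rw [← map_pow, hprim.pow_eq_one, map_one]
    rw [mul_pow, map_pow, ← pow_mul, ← pow_mul, mul_comm j.val, mul_comm i.val, pow_mul, pow_mul,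
      h1, hprim.pow_eq_one, one_pow, one_pow, one_mul]
  have hne : ∀ i j : Fin p, i ≠ j → conj (ω ^ j.val) * ω ^ i.val ≠ 1 := by
    intro i j hij h
    apply hij
    have h1 : conj ω ^ j.val * ω ^ j.val = 1 := by rw [← mul_pow, hωn, one_pow]
    have h2 : ω ^ i.val = ω ^ j.val := by
      rw [map_pow] at h
      calc ω ^ i.val = (conj ω ^ j.val * ω ^ j.val) * ω ^ i.val := by rw [h1, one_mul]
        _ = ω ^ j.val * (conj ω ^ j.val * ω ^ i.val) := by ring
        _ = ω ^ j.val := by rw [h, mul_one]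
    exact Fin.ext (hprim.pow_inj i.2 j.2 h2)
  set lam := (T2 - P) / S ^ 2 with hlam
  have hS2 : 0 < S ^ 2 := by positivity
  refine ⟨lam, _, ?_, lines_cplx v lam ?_ ?_ ?_ ?_ ?_⟩
  · rw [hlam, div_le_div_iff₀ (by norm_num) hS2, hSS]
    nlinarith
  · apply div_nonneg _ hS2.le
    nlinarith
  · rw [hlam, div_lt_one hS2, hSS]
    nlinarith
  · intro i
    rw [hvv]
    have h1 : conj (ω ^ i.val) * ω ^ i.val = 1 := by
      rw [map_pow, ← mul_pow, hωn, one_pow]
    rw [h1]
    simp only [one_pow, mul_one]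
    have e1 : (∑ d, (w d : ℂ)) = (S : ℂ) := by rw [hS]; push_cast; rfl
    rw [e1]
    exact inv_mul_cancel₀ (by exact_mod_cast hS0.ne')
  · intro i j hij
    set ρ := conj (ω ^ j.val) * ω ^ i.val with hρ
    have h1 := norm_poly hPx (hconj i j)
    rw [geom (hroot i j) (hne i j hij) (hconj i j)] at h1
    have h2 : ∑ d, conj (v i d) * v j d = conj (∑ d, conj (v j d) * v i d) := by
      rw [map_sum]
      refine sum_congr rfl fun d _ => ?_
      rw [map_mul (starRingEnd ℂ) (conj (v j d)) (v i d), Complex.conj_conj, mul_comm]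
    rw [h2, hvv, map_mul]
    have h3 : conj (S : ℂ)⁻¹ = (S : ℂ)⁻¹ := by rw [map_inv₀, Complex.conj_ofReal]
    rw [h3]
    have h4 : ((lam : ℝ) : ℂ) = (S : ℂ)⁻¹ * (S : ℂ)⁻¹ * ((T2 : ℂ) - P) := by
      rw [hlam]
      push_cast
      field_simp
    rw [h4]
    rw [← hw, ← hT2, ← hρ] at h1
    linear_combination (S : ℂ)⁻¹ * (S : ℂ)⁻¹ * h1
  · rw [eq_top_iff]
    set W := ⨆ i, Submodule.span ℂ {(WithLp.toLp 2 (v i) : Sp ℂ (s + 1))} with hW
    have hmem : ∀ i, (WithLp.toLp 2 (v i) : Sp ℂ (s + 1)) ∈ W := fun i =>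
      Submodule.mem_iSup_of_mem i (Submodule.mem_span_singleton_self _)
    have hbasis : ∀ d : Fin (s + 1),
        (WithLp.toLp 2 (fun b => if b = d then (1 : ℂ) else 0) : Sp ℂ (s + 1)) ∈ W := by
      intro d
      have hsq : 0 < √(w d / S) := Real.sqrt_pos.mpr (div_pos (hw0 d) hS0)
      have hsq' : ((√(w d / S) : ℝ) : ℂ) ≠ 0 := by exact_mod_cast hsq.ne'
      have hpc : (p : ℂ) ≠ 0 := by exact_mod_cast hp0
      have key : (WithLp.toLp 2 (fun b => if b = d then (1 : ℂ) else 0) : Sp ℂ (s + 1)) =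
          ((p : ℂ) * ((√(w d / S) : ℝ) : ℂ))⁻¹ •
            ∑ i : Fin p, conj ((ω ^ i.val) ^ d.val) • (WithLp.toLp 2 (v i) : Sp ℂ (s + 1)) := by
        ext b
        rw [PiLp.smul_apply, WithLp.ofLp_sum, Finset.sum_apply]
        simp only [PiLp.smul_apply, smul_eq_mul, hv]
        have e1 : ∀ i : Fin p, conj ((ω ^ i.val) ^ d.val) *
            (((√(w b / S) : ℝ) : ℂ) * (ω ^ i.val) ^ b.val) =
            ((√(w b / S) : ℝ) : ℂ) * (conj (ω ^ d.val) * ω ^ b.val) ^ i.val := by
          intro i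
          simp only [map_pow]
          rw [← pow_mul, ← pow_mul, mul_pow, ← pow_mul, ← pow_mul, mul_comm d.val, mul_comm b.val]
          ring
        rw [sum_congr rfl (fun i _ => e1 i), ← mul_sum,
          Fin.sum_univ_eq_sum_range (fun i => (conj (ω ^ d.val) * ω ^ b.val) ^ i)]
        by_cases hbd : b = d
        · subst hbd
          have h1 : conj (ω ^ b.val) * ω ^ b.val = 1 := by
            rw [map_pow, ← mul_pow, hωn, one_pow]
          rw [h1, if_pos rfl]
          simp only [one_pow, sum_const, card_range, nsmul_eq_mul, mul_one]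
          field_simp
        · rw [if_neg hbd]
          have h1 := hne ⟨b.val, by omega⟩ ⟨d.val, by omega⟩
            (fun h => hbd (Fin.ext (by simpa using h)))
          have h2 := hroot ⟨b.val, by omega⟩ ⟨d.val, by omega⟩
          have h3 := mul_geom_sum (conj (ω ^ d.val) * ω ^ b.val) p
          rw [h2, sub_self] at h3
          rw [(mul_eq_zero.mp h3).resolve_left (sub_ne_zero.mpr h1)]
          ring
      rw [key]
      exact W.smul_mem _ (W.sum_mem fun i _ => W.smul_mem _ (hmem i))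
    intro x _
    have hx' : x = ∑ i, x i •
        (WithLp.toLp 2 (fun b => if b = i then (1 : ℂ) else 0) : Sp ℂ (s + 1)) := by
      ext b
      rw [WithLp.ofLp_sum, Finset.sum_apply]
      simp
    rw [hx']
    exact W.sum_mem fun i _ => W.smul_mem _ (hbasis i)

end Pool.Agent.EI28X
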