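import Pool.Agent.H32Iso.Blocks

set_option autoImplicit false
set_option linter.unusedSimpArgs false

/-! Real Clifford families with eight generators for every factor `16` of the size. -/

namespace Pool.Agent.EI28X

open Matrix Pool.Agent.H32Iso

/-- anticommuting real matrices: `E` symmetric involutions, `J` antisymmetric with square `-1` -/
def Good2 (σ ι κ : Type) [Fintype σ] [DecidableEq σ] : Prop :=
  ∃ (E : ι → Matrix σ σ ℝ) (J : κ → Matrix σ σ ℝ),
    (∀ i, (E i)ᵀ = E i) ∧ (∀ i, E i * E i = 1) ∧ (∀ i, (J i)ᵀ = - J i) ∧ (∀ i, J i * J i = -1) ∧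
    (∀ i j, i ≠ j → E i * E j = - (E j * E i)) ∧ (∀ i j, i ≠ j → J i * J j = - (J j * J i)) ∧
    ∀ i j, E i * J j = - (J j * E i)

variable {σ ι κ : Type} [Fintype σ] [DecidableEq σ]

theorem good2_double (h : Good2 σ ι κ) : Good2 (σ ⊕ σ) (κ ⊕ Bool) ι := by
  obtain ⟨E, J, h1, h2, h3, h4, h5, h6, h7⟩ := h
  refine ⟨Sum.elim (fun a => fromBlocks 0 (J a) (-J a) 0)
    (fun b => if b then fromBlocks 1 0 0 (-1) else fromBlocks 0 1 1 0),
    fun i => fromBlocks 0 (E i) (-E i) 0, ?_, ?_, ?_, ?_, ?_, ?_, ?_⟩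
  · rintro (a | b)
    · simp [fromBlocks_transpose, h3]
    · cases b <;> simp [fromBlocks_transpose]
  · rintro (a | b)
    · simp [fromBlocks_multiply, h4]
    · cases b <;> simp [fromBlocks_multiply]
  · intro i
    simp [fromBlocks_transpose, h1, fromBlocks_neg]
  · intro i
    simp [fromBlocks_multiply, h2, ← fromBlocks_one, fromBlocks_neg]
  · rintro (a | b) (a' | b') hne
    · have : a ≠ a' := fun e => hne (by rw [e])
      simp [fromBlocks_multiply, h6 a a' this, fromBlocks_neg]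
    · cases b' <;> simp [fromBlocks_multiply, fromBlocks_neg]
    · cases b <;> simp [fromBlocks_multiply, fromBlocks_neg]
    · cases b <;> cases b' <;> simp [fromBlocks_multiply, fromBlocks_neg] at hne ⊢
  · intro i j hij
    simp [fromBlocks_multiply, h5 i j hij, fromBlocks_neg]
  · rintro (a | b) j
    · simp [fromBlocks_multiply, h7 j a, fromBlocks_neg]
    · cases b <;> simp [fromBlocks_multiply, fromBlocks_neg]

section Four

variable {A : Type*} [Ring A]

theorem four_facts (J : Fin 4 → A) (h4 : ∀ i, J i * J i = -1)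
    (h6 : ∀ i j, i ≠ j → J i * J j = - (J j * J i)) :
    (J 0 * (J 1 * (J 2 * J 3))) * (J 0 * (J 1 * (J 2 * J 3))) = 1 ∧
    (∀ a, J a * (J 0 * (J 1 * (J 2 * J 3))) = - ((J 0 * (J 1 * (J 2 * J 3))) * J a)) ∧
    J 3 * (J 2 * (J 1 * J 0)) = J 0 * (J 1 * (J 2 * J 3)) := by
  have sq' : ∀ i X, J i * (J i * X) = - X := by
    intro i X; rw [← mul_assoc, h4, neg_one_mul]
  have sw : ∀ i j X, i ≠ j → J i * (J j * X) = - (J j * (J i * X)) := by
    intro i j X h; rw [← mul_assoc, h6 i j h, neg_mul, mul_assoc]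
  have s10 := h6 1 0 (by decide)
  have s20 := h6 2 0 (by decide)
  have s30 := h6 3 0 (by decide)
  have s21 := h6 2 1 (by decide)
  have s31 := h6 3 1 (by decide)
  have s32 := h6 3 2 (by decide)
  have t10 := fun X => sw 1 0 X (by decide)
  have t20 := fun X => sw 2 0 X (by decide)
  have t30 := fun X => sw 3 0 X (by decide)
  have t21 := fun X => sw 2 1 X (by decide)
  have t31 := fun X => sw 3 1 X (by decide)
  have t32 := fun X => sw 3 2 X (by decide)
  refine ⟨?_, ?_, ?_⟩
  · simp only [mul_assoc, t10, t20, t30, t21, t31, t32, s10, s20, s30, s21, s31, s32, sq', h4,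
      mul_neg, neg_neg, mul_one]
  · intro a
    fin_cases a <;>
    simp [mul_assoc, t10, t20, t30, t21, t31, t32, s10, s20, s30, s21, s31, s32, sq', h4,
      mul_neg, neg_neg, mul_one]
  · simp only [mul_assoc, t10, t20, t30, t21, t31, t32, s10, s20, s30, s21, s31, s32, sq', h4,
      mul_neg, neg_neg, mul_one]

theorem four_comm (J : Fin 4 → A) (B : A) (hB : ∀ a, B * J a = - (J a * B)) :
    B * (J 0 * (J 1 * (J 2 * J 3))) = (J 0 * (J 1 * (J 2 * J 3))) * B := by
  have hB' : ∀ a X, B * (J a * X) = -(J a * (B * X)) := by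
    intro a X; rw [← mul_assoc, hB, neg_mul, mul_assoc]
  simp only [mul_assoc, hB', hB, mul_neg, neg_neg]

end Four

theorem good2_flip (h : Good2 σ ι (κ ⊕ Fin 4)) : Good2 σ (ι ⊕ Fin 4) κ := by
  obtain ⟨E, J, h1, h2, h3, h4, h5, h6, h7⟩ := h
  set K : Fin 4 → Matrix σ σ ℝ := fun a => J (Sum.inr a) with hK
  have k4 : ∀ a, K a * K a = -1 := fun a => h4 _
  have k6 : ∀ a b, a ≠ b → K a * K b = - (K b * K a) := fun a b hab =>
    h6 _ _ (fun e => hab (Sum.inr_injective e))
  have kT : ∀ a, (K a)ᵀ = - K a := fun a => h3 _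
  obtain ⟨η, f1, f2, ηT, hE, hJ⟩ : ∃ η : Matrix σ σ ℝ, η * η = 1 ∧ (∀ a, K a * η = - (η * K a)) ∧
      ηᵀ = η ∧ (∀ i, E i * η = η * E i) ∧ ∀ c : κ, J (Sum.inl c) * η = η * J (Sum.inl c) := by
    obtain ⟨f1, f2, f3⟩ := four_facts K k4 k6
    refine ⟨K 0 * (K 1 * (K 2 * K 3)), f1, f2, ?_, fun i => four_comm K (E i) (fun a => h7 i _),
      fun c => four_comm K _ (fun a => h6 _ _ (by simp))⟩
    rw [transpose_mul, transpose_mul, transpose_mul, kT, kT, kT, kT]
    simp only [mul_neg, neg_mul, neg_neg, mul_assoc]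
    exact f3
  refine ⟨Sum.elim E (fun a => K a * η), fun c => J (Sum.inl c), ?_, ?_, fun c => h3 _,
    fun c => h4 _, ?_, ?_, ?_⟩
  · rintro (i | a)
    · exact h1 i
    · simp only [Sum.elim_inr]
      rw [transpose_mul, ηT, kT, mul_neg, f2 a]
  · rintro (i | a)
    · exact h2 i
    · simp only [Sum.elim_inr]
      calc K a * η * (K a * η) = - (η * K a) * (K a * η) := by rw [f2 a]
        _ = - (η * (K a * K a) * η) := by simp only [neg_mul, mul_assoc]
        _ = 1 := by rw [k4, mul_neg, mul_one, neg_mul, neg_neg, f1]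
  · rintro (i | a) (j | b) hne
    · exact h5 i j (fun e => hne (by rw [e]))
    · simp only [Sum.elim_inl, Sum.elim_inr]
      have e : E i * K b = - (K b * E i) := h7 i (Sum.inr b)
      rw [← mul_assoc, e, neg_mul, mul_assoc, hE, mul_assoc]
    · simp only [Sum.elim_inl, Sum.elim_inr]
      have e : E j * K a = - (K a * E j) := h7 j (Sum.inr a)
      rw [← mul_assoc, e, neg_mul, neg_neg, mul_assoc, mul_assoc, hE]
    · simp only [Sum.elim_inr]
      have hab : a ≠ b := fun e => hne (by rw [e])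
      calc K a * η * (K b * η) = K a * (η * K b) * η := by simp only [mul_assoc]
        _ = K a * (- (K b * η)) * η := by rw [f2 b, neg_neg]
        _ = - (K a * K b * (η * η)) := by simp only [mul_neg, neg_mul, mul_assoc]
        _ = K b * K a * (η * η) := by rw [k6 a b hab, neg_mul, neg_neg]
        _ = - (K b * (- (K a * η)) * η) := by simp only [mul_neg, neg_mul, mul_assoc, neg_neg]
        _ = - (K b * (η * K a) * η) := by rw [f2 a, neg_neg]
        _ = - (K b * η * (K a * η)) := by simp only [mul_assoc]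
  · intro c d hcd
    exact h6 _ _ (fun e => hcd (Sum.inl_injective e))
  · rintro (i | a) c
    · exact h7 i _
    · simp only [Sum.elim_inr]
      have e : K a * J (Sum.inl c) = - (J (Sum.inl c) * K a) := h6 (Sum.inr a) (Sum.inl c) (by simp)
      rw [mul_assoc, ← hJ, ← mul_assoc, e, neg_mul, mul_assoc]

theorem good2_congr {τ ι' κ' : Type} [Fintype τ] [DecidableEq τ] (e : σ ≃ τ) (f : ι' → ι)
    (hf : Function.Injective f) (g : κ' → κ) (hg : Function.Injective g) (h : Good2 σ ι κ) :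
    Good2 τ ι' κ' := by
  obtain ⟨E, J, h1, h2, h3, h4, h5, h6, h7⟩ := h
  refine ⟨fun i => Matrix.reindexAlgEquiv ℝ ℝ e (E (f i)),
    fun i => Matrix.reindexAlgEquiv ℝ ℝ e (J (g i)), ?_, ?_, ?_, ?_, ?_, ?_, ?_⟩
  · intro i
    simp [Matrix.coe_reindexAlgEquiv, Matrix.reindex_apply, Matrix.transpose_submatrix, h1]
  · intro i
    rw [← map_mul, h2, map_one]
  · intro i
    simp [Matrix.coe_reindexAlgEquiv, Matrix.reindex_apply, Matrix.transpose_submatrix, h3]
    rfl
  · intro i
    rw [← map_mul, h4, map_neg, map_one]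
  · intro i j hij
    rw [← map_mul, h5 _ _ (fun e => hij (hf e)), map_neg, map_mul]
  · intro i j hij
    rw [← map_mul, h6 _ _ (fun e => hij (hg e)), map_neg, map_mul]
  · intro i j
    rw [← map_mul, h7, map_neg, map_mul]

theorem good2_sixteen {m : ℕ} {N : ℕ} (h : Good2 (Fin N) (Fin m) Empty) :
    Good2 (Fin (16 * N)) (Fin (m + 8)) Empty := by
  have h4 := good2_double (good2_double (good2_double (good2_double h)))
  have e1 : (Empty ⊕ Fin 4) ≃ ((Empty ⊕ Bool) ⊕ Bool) :=
    Fintype.equivOfCardEq (by simp)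
  have h5 := good2_flip (good2_congr (Equiv.refl _) id Function.injective_id e1 e1.injective h4)
  have e2 : Fin (m + 8) ≃ (((Fin m ⊕ Bool) ⊕ Bool) ⊕ Fin 4) :=
    Fintype.equivOfCardEq (by simp)
  have e3 : ((((Fin N ⊕ Fin N) ⊕ (Fin N ⊕ Fin N)) ⊕ ((Fin N ⊕ Fin N) ⊕ (Fin N ⊕ Fin N))) ⊕
      (((Fin N ⊕ Fin N) ⊕ (Fin N ⊕ Fin N)) ⊕ ((Fin N ⊕ Fin N) ⊕ (Fin N ⊕ Fin N)))) ≃
      Fin (16 * N) := Fintype.equivOfCardEq (by simp; ring)
  exact good2_congr e3 e2 e2.injective id Function.injective_id h5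

theorem good_eight (a : ℕ) : Good (Fin (2 ^ (4 * a))) (8 * a) := by
  have h : Good2 (Fin (2 ^ (4 * a))) (Fin (8 * a)) Empty := by
    induction a with
    | zero =>
      exact ⟨fun i => i.elim0, fun i => i.elim, fun i => i.elim0, fun i => i.elim0,
        fun i => i.elim, fun i => i.elim, fun i => i.elim0, fun i => i.elim, fun i => i.elim0⟩
    | succ a ih =>
      have h := good2_sixteen ih
      rw [show 2 ^ (4 * (a + 1)) = 16 * 2 ^ (4 * a) by ring, show 8 * (a + 1) = 8 * a + 8 by ring]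
      exact h
  obtain ⟨E, J, h1, h2, h3, h4, h5, h6, h7⟩ := h
  exact ⟨E, h1, h2, h5⟩

/-- Simplex of involutions with prescribed anticommutator, from any Clifford family. -/
theorem exists_simplex' {s : ℕ} (p B : ℕ) (hp : p ≤ B) (hG : Good (Fin s) (B + 1)) (t : ℝ)
    (ht1 : t < 1) (ht0 : 0 ≤ 1 + ((p:ℝ) - 1) * t) :
    ∃ (Z : Fin p → Matrix (Fin s) (Fin s) ℝ)
      (T : Matrix (Fin s) (Fin s) ℝ),
      (∀ i, (Z i)ᵀ = Z i) ∧ (∀ i, Z i * Z i = 1) ∧
      (∀ i j, i ≠ j → Z i * Z j + Z j * Z i = (2 * t) • (1 : Matrix _ _ ℝ)) ∧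
      T * T = 1 ∧ ∀ i, T * Z i = - (Z i * T) := by
  rcases Nat.eq_zero_or_pos p with h0 | hp0
  · subst h0
    exact ⟨fun i => i.elim0, 1, fun i => i.elim0, fun i => i.elim0, fun i => i.elim0, one_mul 1,
      fun i => i.elim0⟩
  obtain ⟨E, h1, h2, h3⟩ := hG
  set f : Fin p → Fin (B + 1) := fun i => Fin.castLE (by omega) i with hf
  have hfinj : ∀ i j, i ≠ j → f i ≠ f j := by
    intro i j hij h; apply hij; simpa [hf, Fin.ext_iff] using h
  have hflast : ∀ i, f i ≠ Fin.last B := by
    intro i h; have := congrArg Fin.val h; simp [hf] at this; omega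
  set S : Matrix (Fin s) (Fin s) ℝ := ∑ a : Fin p, E (f a) with hS
  set α : ℝ := Real.sqrt (1 - t) with hα
  set γ : ℝ := Real.sqrt (1 + ((p:ℝ) - 1) * t) with hγ
  set β : ℝ := (γ - α) / p with hβ
  have hα2 : α * α = 1 - t := Real.mul_self_sqrt (by linarith)
  have hγ2 : γ * γ = 1 + ((p:ℝ) - 1) * t := Real.mul_self_sqrt ht0
  have hpne : (p:ℝ) ≠ 0 := by positivity
  have hpβ : (p:ℝ) * β = γ - α := by rw [hβ]; field_simp
  have hrel : 2 * α * β + p * β * β = t := by
    have : (p:ℝ) * (2 * α * β + p * β * β) = p * t := by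
      have e1 : (p:ℝ) * (2 * α * β + p * β * β) = 2 * α * (p * β) + (p * β) * (p * β) := by ring
      rw [e1, hpβ]
      linear_combination hγ2 - hα2
    exact mul_left_cancel₀ hpne this
  have hES : ∀ i, E (f i) * S + S * E (f i) = (2:ℝ) • (1 : Matrix _ _ ℝ) := by
    intro i
    rw [hS, Finset.mul_sum, Finset.sum_mul, ← Finset.sum_add_distrib]
    rw [Finset.sum_eq_single i]
    · rw [h2]; module
    · intro b _ hb
      rw [h3 (f i) (f b) (hfinj i b (Ne.symm hb))]; simp
    · intro h; exact absurd (Finset.mem_univ i) h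
  have hSS : S * S = (p:ℝ) • (1 : Matrix _ _ ℝ) := by
    have h4' : S * S + S * S = ∑ a : Fin p, (E (f a) * S + S * E (f a)) := by
      rw [Finset.sum_add_distrib, ← Finset.sum_mul, ← Finset.mul_sum]
    have h4 : S * S + S * S = (2:ℝ) • ((p:ℝ) • (1 : Matrix _ _ ℝ)) := by
      rw [h4']
      simp_rw [hES]
      rw [Finset.sum_const, Finset.card_univ, Fintype.card_fin, ← Nat.cast_smul_eq_nsmul ℝ]
      rw [smul_smul, smul_smul, mul_comm]
    have h5 : (2:ℝ) • (S * S) = (2:ℝ) • ((p:ℝ) • (1 : Matrix _ _ ℝ)) := by rw [← h4, two_smul]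
    exact smul_right_injective _ (two_ne_zero) h5
  refine ⟨fun i => α • E (f i) + β • S, E (Fin.last B), ?_, ?_, ?_, h2 _, ?_⟩
  · intro i
    rw [Matrix.transpose_add, Matrix.transpose_smul, Matrix.transpose_smul, h1, hS,
      Matrix.transpose_sum]
    simp_rw [h1]
  · intro i
    have e1 : (α • E (f i) + β • S) * (α • E (f i) + β • S) =
        (α * α) • (E (f i) * E (f i)) + (α * β) • (E (f i) * S + S * E (f i)) +
        (β * β) • (S * S) := by
      simp only [add_mul, mul_add, smul_mul_assoc, mul_smul_comm, smul_smul, smul_add]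
      rw [mul_comm β α]; abel
    rw [e1, h2, hES, hSS, smul_smul, smul_smul, ← add_smul, ← add_smul]
    have e2 : α * α + α * β * 2 + β * β * p = 1 := by linear_combination hα2 + hrel
    rw [e2, one_smul]
  · intro i j hij
    have e1 : (α • E (f i) + β • S) * (α • E (f j) + β • S) +
        (α • E (f j) + β • S) * (α • E (f i) + β • S) =
        (α * α) • (E (f i) * E (f j) + E (f j) * E (f i)) +
        (α * β) • (E (f i) * S + S * E (f i)) + (α * β) • (E (f j) * S + S * E (f j)) +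
        (2 * (β * β)) • (S * S) := by
      simp only [add_mul, mul_add, smul_mul_assoc, mul_smul_comm, smul_smul, smul_add]
      module
    rw [e1, hES, hES, hSS, h3 (f i) (f j) (hfinj i j hij), neg_add_cancel, smul_zero, zero_add,
      smul_smul, smul_smul, ← add_smul, ← add_smul]
    congr 1
    linear_combination 2 * hrel
  · intro i
    rw [mul_add, add_mul, mul_smul_comm, smul_mul_assoc, mul_smul_comm, smul_mul_assoc, hS,
      Finset.mul_sum, Finset.sum_mul, h3 _ _ (Ne.symm (hflast i))]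
    have : ∀ a, E (Fin.last B) * E (f a) = - (E (f a) * E (Fin.last B)) :=
      fun a => h3 _ _ (Ne.symm (hflast a))
    simp_rw [this]
    rw [Finset.sum_neg_distrib, smul_neg, smul_neg, neg_add]

end Pool.Agent.EI28X
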