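import Pool.Agent.EI28X.Upper
import Pool.Agent.EI28X.CLines
import Pool.Agent.EI28X.Cliff
import Pool.Agent.EI28U.Lower
import Pool.Agent.H94EI.Lines

set_option autoImplicit false

/-! Exact values. -/

namespace Pool.Agent.EI28X

open Finset Module Pool.Agent.H32Iso Pool.Agent.EI28U

/-- Adding Clifford blocks. -/
theorem add_blocks (F : Type) [NormedDivisionRing F] [InnerProductSpace ℝ F] [IsScalarTower ℝ F F]
    [SMulCommClass ℝ F F] [FiniteDimensional ℝ F] {n r p a : ℕ} {lam : ℝ}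
    {V : Fin p → Submodule F (Sp F r)} (h : EquiIsoclinic F n r p lam V) (hp : 2 ≤ p)
    (hl : 1 / 2 ≤ lam) (ha : p + 1 ≤ 8 * a) (j : ℕ) :
    ∃ V' : Fin p → Submodule F (Sp F (r + 2 * (j * 2 ^ (4 * a - 1)))),
      EquiIsoclinic F (n + j * 2 ^ (4 * a - 1)) (r + 2 * (j * 2 ^ (4 * a - 1))) p lam V' := by
  induction j with
  | zero =>
    rw [show r + 2 * (0 * 2 ^ (4 * a - 1)) = r by simp,
      show n + 0 * 2 ^ (4 * a - 1) = n by simp]
    exact ⟨V, h⟩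
  | succ j ih =>
    obtain ⟨V', h'⟩ := ih
    have h1 := h.lt_one
    have hp1 : (2 : ℝ) ≤ p := by exact_mod_cast hp
    obtain ⟨Z, T, hZ1, hZ2, hZ3, hT, hTZ⟩ := exists_simplex' p (8 * a - 1) (by omega)
      (by rw [show 8 * a - 1 + 1 = 8 * a by omega]; exact good_eight a)
      (2 * lam - 1) (by linarith) (by
        have : 0 ≤ ((p : ℝ) - 1) * (2 * lam - 1) := mul_nonneg (by linarith) (by linarith)
        linarith)
    have hs : 2 ^ (4 * a) = 2 * 2 ^ (4 * a - 1) := by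
      rw [← pow_succ', show 4 * a - 1 + 1 = 4 * a by omega]
    have h3 := h'.block hp (D := 2 ^ (4 * a - 1)) hs Z T T hZ1 hZ2 hZ3 hT hTZ
    have e1 : r + 2 * ((j + 1) * 2 ^ (4 * a - 1)) =
        r + 2 * (j * 2 ^ (4 * a - 1)) + 2 ^ (4 * a) := by rw [hs]; ring
    have e2 : n + (j + 1) * 2 ^ (4 * a - 1) = n + j * 2 ^ (4 * a - 1) + 2 ^ (4 * a - 1) := by ring
    rw [e1, e2]
    exact ⟨_, h3⟩

/-- With one line in each member of the core, for all `n = 1` modulo a power of two. -/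
theorem add_blocks_mod (F : Type) [NormedDivisionRing F] [InnerProductSpace ℝ F]
    [IsScalarTower ℝ F F] [SMulCommClass ℝ F F] [FiniteDimensional ℝ F] {k p a b n : ℕ} {lam : ℝ}
    {V : Fin p → Submodule F (Sp F (k + 2))} (h : EquiIsoclinic F 1 (k + 2) p lam V) (hp : 2 ≤ p)
    (hl : 1 / 2 ≤ lam) (ha : p + 1 ≤ 8 * a) (hb : 4 * a - 1 ≤ b) (hn : n % 2 ^ b = 1) :
    p ∈ sizes F n (2 * n + k) := by
  obtain ⟨V', h'⟩ := add_blocks F h hp hl ha (n / 2 ^ b * 2 ^ (b - (4 * a - 1)))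
  have e1 : n / 2 ^ b * 2 ^ (b - (4 * a - 1)) * 2 ^ (4 * a - 1) = 2 ^ b * (n / 2 ^ b) := by
    rw [mul_assoc, ← pow_add, show b - (4 * a - 1) + (4 * a - 1) = b by omega, mul_comm]
  have e2 : n = 1 + n / 2 ^ b * 2 ^ (b - (4 * a - 1)) * 2 ^ (4 * a - 1) := by
    have := Nat.div_add_mod n (2 ^ b)
    omega
  have e3 : 2 * n + k = k + 2 + 2 * (n / 2 ^ b * 2 ^ (b - (4 * a - 1)) * 2 ^ (4 * a - 1)) := by
    omega
  have h2 : p ∈ sizes F (1 + n / 2 ^ b * 2 ^ (b - (4 * a - 1)) * 2 ^ (4 * a - 1))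
      (k + 2 + 2 * (n / 2 ^ b * 2 ^ (b - (4 * a - 1)) * 2 ^ (4 * a - 1))) := ⟨lam, V', h'⟩
  rw [← e3, ← e2] at h2
  exact h2

theorem real_lower {k n : ℕ} (hn : n % 2 ^ (k / 2 + 4) = 1) : k + 2 ∈ sizes ℝ n (2 * n + k) := by
  obtain ⟨V, h⟩ := simplex_lines (F := ℝ) (p := k + 2) (by omega)
  exact add_blocks_mod ℝ (a := (k + 10) / 8) h (by omega) (by norm_num) (by omega) (by omega) hn

theorem complex_lower {k n : ℕ} (hn : n % 2 ^ (k + 4) = 1) : 2 * k + 3 ∈ sizes ℂ n (2 * n + k) := by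
  obtain ⟨lam, V, hl, h⟩ := cyclic_lines (k + 1) (by omega)
  exact add_blocks_mod ℂ (a := (2 * k + 11) / 8) h (by omega) hl (by omega) (by omega) hn

theorem pow_aux (l : ℕ) (hl : 5 ≤ l) :
    (4 * l + 7) * (2 * l + 5) * 2 ^ (l + 1) ≤ 2 ^ (2 ^ (l - 1)) := by
  induction l, hl using Nat.le_induction with
  | base => norm_num
  | succ l hl ih =>
    have h1 : (4 * (l + 1) + 7) * (2 * (l + 1) + 5) ≤ 2 * ((4 * l + 7) * (2 * l + 5)) := by
      nlinarith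
    have h2 : 2 ^ (l - 1) + 2 ≤ 2 ^ (l + 1 - 1) := by
      obtain ⟨m, rfl⟩ : ∃ m, l = m + 2 := ⟨l - 2, by omega⟩
      have e1 : 2 ^ (m + 2 - 1) = 2 * 2 ^ m := by rw [show m + 2 - 1 = m + 1 by omega]; ring
      have e2 : 2 ^ (m + 2 + 1 - 1) = 4 * 2 ^ m := by rw [show m + 2 + 1 - 1 = m + 2 by omega]; ring
      have : 1 ≤ 2 ^ m := Nat.one_le_two_pow
      rw [e1, e2]
      omega
    calc (4 * (l + 1) + 7) * (2 * (l + 1) + 5) * 2 ^ (l + 1 + 1)
        ≤ 2 * ((4 * l + 7) * (2 * l + 5)) * 2 ^ (l + 1 + 1) := Nat.mul_le_mul_right _ h1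
      _ = 4 * ((4 * l + 7) * (2 * l + 5) * 2 ^ (l + 1)) := by ring
      _ ≤ 4 * 2 ^ (2 ^ (l - 1)) := Nat.mul_le_mul_left _ ih
      _ = 2 ^ (2 ^ (l - 1) + 2) := by ring
      _ ≤ 2 ^ (2 ^ (l + 1 - 1)) := Nat.pow_le_pow_right (by norm_num) h2

/-- `L k < 2 ^ ⌊k / 2⌋` for `k ≥ 24`. -/
theorem LX_lt (k : ℕ) (hk : 24 ≤ k) : LX k < 2 ^ (k / 2) := by
  have key : k * ((4 * Nat.log 2 k + 7) * (2 * Nat.log 2 k + 5)) < 2 * 2 ^ (k / 2) := by
    rcases Nat.lt_or_ge k 32 with h | h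
    · have hl : Nat.log 2 k = 4 := by
        rw [Nat.log_eq_iff (by left; norm_num)]
        constructor <;> norm_num <;> omega
      rw [hl]
      interval_cases k <;> norm_num
    · set l := Nat.log 2 k with hl
      have h5 : 5 ≤ l := by
        rw [hl]
        exact (Nat.le_log_iff_pow_le (by norm_num) (by omega)).mpr (by norm_num; exact h)
      have h1 : k < 2 ^ (l + 1) := Nat.lt_pow_succ_log_self (by norm_num) k
      have h2 : 2 ^ l ≤ k := Nat.pow_log_le_self 2 (by omega)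
      have h3 : 2 ^ (l - 1) ≤ k / 2 := by
        rw [Nat.le_div_iff_mul_le (by norm_num)]
        have : 2 ^ (l - 1) * 2 = 2 ^ l := by
          rw [← pow_succ]; congr 1; omega
        omega
      have h4 := pow_aux l h5
      have h6 : 2 ^ (2 ^ (l - 1)) ≤ 2 ^ (k / 2) := Nat.pow_le_pow_right (by norm_num) h3
      have h7 : 0 < 2 ^ (k / 2) := by positivity
      have h8 : k * ((4 * l + 7) * (2 * l + 5)) ≤ (4 * l + 7) * (2 * l + 5) * 2 ^ (l + 1) := by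
        rw [mul_comm]
        exact Nat.mul_le_mul_left _ h1.le
      omega
  have h1 : ((k * ((4 * Nat.log 2 k + 7) * (2 * Nat.log 2 k + 5)) : ℕ) : ℝ) <
      ((2 * 2 ^ (k / 2) : ℕ) : ℝ) := by exact_mod_cast key
  unfold LX
  push_cast at h1
  linarith

theorem mod_of_dvd {n a b : ℕ} (hab : a ≤ b) (ha : 1 ≤ a) (hn : n % 2 ^ b = 1) :
    n % 2 ^ a = 1 := by
  have h1 : 2 ^ a ∣ 2 ^ b := pow_dvd_pow 2 hab
  rw [← Nat.mod_mod_of_dvd n h1, hn]
  exact Nat.mod_eq_of_lt (Nat.one_lt_pow (by omega) (by norm_num))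

theorem real_exact {k n : ℕ} (hk : 24 ≤ k) (hn : n % 2 ^ (k / 2 + 4) = 1) (hn1 : 1 < n) :
    IsGreatest (sizes ℝ n (2 * n + k)) (k + 2) := by
  refine ⟨real_lower hn, fun p hp => ?_⟩
  by_contra hcon
  push Not at hcon
  have := upper_real (by omega) (LX_lt k hk) (mod_of_dvd (by omega) (by omega) hn) hn1 hp (by omega)
  omega

theorem complex_exact {k n : ℕ} (hk : 12 ≤ k) (hn : n % 2 ^ (k + 4) = 1) (hn1 : 1 < n) :
    IsGreatest (sizes ℂ n (2 * n + k)) (2 * k + 3) := by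
  refine ⟨complex_lower hn, fun p hp => ?_⟩
  by_contra hcon
  push Not at hcon
  have hL : LX (2 * k) < 2 ^ (k - 1 + 1) := by
    have h := LX_lt (2 * k) (by omega)
    rwa [show 2 * k / 2 = k - 1 + 1 by omega] at h
  have := upper_complex (by omega) hL (mod_of_dvd (a := k - 1) (by omega) (by omega) hn) hn1 hp
    (by omega)
  omega

end Pool.Agent.EI28X
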