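import Pool.Agent.EI28X.DSum
import Pool.Agent.EI28X.Final

set_option autoImplicit false

/-! Assembling simplices, rank three families and Clifford blocks. -/

namespace Pool.Agent.EI28X

open Module Pool.Agent.H32Iso

section

variable (F : Type) [NormedDivisionRing F] [InnerProductSpace ℝ F] [IsScalarTower ℝ F F]
  [SMulCommClass ℝ F F] [FiniteDimensional ℝ F]

omit [IsScalarTower ℝ F F] [SMulCommClass ℝ F F] [FiniteDimensional ℝ F] in
/-- the empty family -/
theorem trivial_family {p : ℕ} {lam : ℝ} (h0 : 0 ≤ lam) (h1 : lam < 1) :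
    EquiIsoclinic F 0 0 p lam (fun _ => (⊥ : Submodule F (Sp F 0))) where
  nonneg := h0
  lt_one := h1
  rank := fun _ => finrank_bot F _
  span := by
    unfold Spans
    rw [eq_top_iff]
    intro x _
    rw [Subsingleton.elim x 0]
    exact Submodule.zero_mem _
  iso := by
    intro i j _ x y z w _ _ _
    exact Subsingleton.elim _ _

/-- `x` copies of `A` and `y` copies of `B` -/
theorem copies {p nA rA nB rB : ℕ} {lam : ℝ}
    (hA : ∃ V : Fin p → Submodule F (Sp F rA), EquiIsoclinic F nA rA p lam V)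
    (hB : ∃ V : Fin p → Submodule F (Sp F rB), EquiIsoclinic F nB rB p lam V) (x y : ℕ) :
    ∃ V : Fin p → Submodule F (Sp F (x * rA + y * rB)),
      EquiIsoclinic F (x * nA + y * nB) (x * rA + y * rB) p lam V := by
  have key : ∀ x : ℕ, ∃ V : Fin p → Submodule F (Sp F (x * rA)),
      EquiIsoclinic F (x * nA) (x * rA) p lam V := by
    intro x
    induction x with
    | zero =>
      obtain ⟨V, h⟩ := hA
      rw [Nat.zero_mul, Nat.zero_mul]
      exact ⟨_, trivial_family F h.nonneg h.lt_one⟩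
    | succ x ih =>
      obtain ⟨V, h⟩ := hA
      obtain ⟨V', h'⟩ := ih
      rw [Nat.succ_mul, Nat.succ_mul]
      exact exists_dsum h' h
  have key' : ∀ y : ℕ, ∃ V : Fin p → Submodule F (Sp F (y * rB)),
      EquiIsoclinic F (y * nB) (y * rB) p lam V := by
    intro y
    induction y with
    | zero =>
      obtain ⟨V, h⟩ := hB
      rw [Nat.zero_mul, Nat.zero_mul]
      exact ⟨_, trivial_family F h.nonneg h.lt_one⟩
    | succ y ih =>
      obtain ⟨V, h⟩ := hB
      obtain ⟨V', h'⟩ := ih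
      rw [Nat.succ_mul, Nat.succ_mul]
      exact exists_dsum h' h
  obtain ⟨V, h⟩ := key x
  obtain ⟨V', h'⟩ := key' y
  exact exists_dsum h h'

end

/-- the arithmetic -/
theorem arith {p b k n : ℕ} (hp : 4 ≤ p) (hk : (p - 2) * (3 * p - 7) * 2 ^ b ≤ k) (hn : k ≤ n) :
    ∃ x y j : ℕ, n = x * 1 + y * 3 + j * 2 ^ b ∧
      2 * n + k = x * p + y * (3 * p - 1) + 2 * (j * 2 ^ b) := by
  obtain ⟨u, rfl⟩ : ∃ u, p = u + 2 := ⟨p - 2, by omega⟩
  have hu : 2 ≤ u := by omega
  obtain ⟨w, hw⟩ : ∃ w, 3 * u = w + 1 := ⟨3 * u - 1, by omega⟩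
  have e1 : u + 2 - 2 = u := by omega
  have e2 : 3 * (u + 2) - 7 = w := by omega
  have e3 : 3 * (u + 2) - 1 = w + 6 := by omega
  rw [e1, e2] at hk
  rw [e3]
  generalize hM : 2 ^ b = M at *
  have hM0 : 0 < M := by rw [← hM]; positivity
  -- the ceiling
  set N0 := (k + (u - 1)) / u with hN0
  have hdm := Nat.div_add_mod (k + (u - 1)) u
  have hlt := Nat.mod_lt (k + (u - 1)) (by omega : u > 0)
  rw [← hN0] at hdm
  have h1 : k ≤ u * N0 := by omega
  have h2 : u * N0 ≤ k + (u - 1) := by omega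
  have hk1 : 1 ≤ k := by
    have : 1 ≤ u * w * M := Nat.one_le_iff_ne_zero.mpr (by
      have : 0 < w := by omega
      positivity)
    omega
  have hN0k : N0 ≤ k := by
    by_contra hcon
    push Not at hcon
    have : u * (k + 1) ≤ u * N0 := Nat.mul_le_mul_left _ hcon
    have h3 : 1 * k ≤ u * k := Nat.mul_le_mul_right k (by omega)
    have : u * (k + 1) = u * k + u := by ring
    have h4 : 2 * k ≤ u * k := Nat.mul_le_mul_right k hu
    omega
  set m := (n - N0) % M with hm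
  set j := (n - N0) / M with hj
  have hdm2 := Nat.div_add_mod (n - N0) M
  have hmlt : m < M := Nat.mod_lt _ hM0
  rw [← hm, ← hj] at hdm2
  set n' := N0 + m with hn'
  have hnn : n = n' + j * M := by
    have : M * j = j * M := mul_comm _ _
    omega
  -- y and x
  have hy : k ≤ u * n' := le_trans h1 (Nat.mul_le_mul_left _ (by omega))
  have hx : w * n' ≤ 3 * k := by
    have h5 : u * (w * n') ≤ u * (3 * k) := by
      have h6 : n' ≤ N0 + (M - 1) := by omega
      have h7 : u * n' ≤ k + (u - 1) + u * (M - 1) := by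
        calc u * n' ≤ u * (N0 + (M - 1)) := Nat.mul_le_mul_left _ h6
          _ = u * N0 + u * (M - 1) := by ring
          _ ≤ _ := by omega
      have h8 : k + (u - 1) + u * (M - 1) ≤ k + u * M := by
        have : u * (M - 1) + u = u * M := by
          rw [← Nat.mul_succ]; congr 1; omega
        omega
      calc u * (w * n') = w * (u * n') := by ring
        _ ≤ w * (k + u * M) := Nat.mul_le_mul_left _ (le_trans h7 h8)
        _ = w * k + u * w * M := by ring
        _ ≤ w * k + k := by omega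
        _ = (w + 1) * k := by ring
        _ = u * (3 * k) := by rw [← hw]; ring
    exact Nat.le_of_mul_le_mul_left h5 (by omega)
  obtain ⟨y, hy'⟩ := Nat.exists_eq_add_of_le hy
  obtain ⟨x, hx'⟩ := Nat.exists_eq_add_of_le hx
  -- x + 3 y = n'
  have hxy : x + 3 * y = n' := by
    have h9 : 3 * (u * n') = 3 * k + 3 * y := by rw [hy']; ring
    have h10 : 3 * (u * n') = w * n' + n' := by
      calc 3 * (u * n') = (3 * u) * n' := by ring
        _ = (w + 1) * n' := by rw [hw]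
        _ = _ := by ring
    omega
  refine ⟨x, y, j, by omega, ?_⟩
  have h11 : x * (u + 2) + y * (w + 6) = 2 * n' + k := by
    have h12 : x * (u + 2) + y * (w + 6) + y = (x + 3 * y) * (u + 2) := by
      have : y * (w + 6) + y = y * (w + 1 + 6) := by ring
      rw [add_assoc, this, ← hw]; ring
    rw [hxy] at h12
    have h13 : n' * (u + 2) = u * n' + 2 * n' := by ring
    omega
  rw [h11]
  omega

theorem assemble (F : Type) [NormedDivisionRing F] [InnerProductSpace ℝ F] [IsScalarTower ℝ F F]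
    [SMulCommClass ℝ F F] [FiniteDimensional ℝ F] {p : ℕ} {lam : ℝ} (hp : 4 ≤ p)
    (hl : 1 / 2 ≤ lam)
    (hA : ∃ V : Fin p → Submodule F (Sp F p), EquiIsoclinic F 1 p p lam V)
    (hB : ∃ V : Fin p → Submodule F (Sp F (3 * p - 1)), EquiIsoclinic F 3 (3 * p - 1) p lam V)
    {a k n : ℕ} (ha : p + 1 ≤ 8 * a)
    (hk : (p - 2) * (3 * p - 7) * 2 ^ (4 * a - 1) ≤ k) (hn : k ≤ n) :
    p ∈ sizes F n (2 * n + k) := by
  obtain ⟨x, y, j, h1, h2⟩ := arith hp hk hn
  obtain ⟨V, h⟩ := copies F hA hB x y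
  obtain ⟨V', h'⟩ := add_blocks F h (by omega) hl ha j
  have h3 : p ∈ sizes F (x * 1 + y * 3 + j * 2 ^ (4 * a - 1))
      (x * p + y * (3 * p - 1) + 2 * (j * 2 ^ (4 * a - 1))) := ⟨lam, V', h'⟩
  rw [← h2, ← h1] at h3
  exact h3

theorem assemble_log (F : Type) [NormedDivisionRing F] [InnerProductSpace ℝ F]
    [IsScalarTower ℝ F F] [SMulCommClass ℝ F F] [FiniteDimensional ℝ F] {p : ℕ} {lam : ℝ}
    (hp : 4 ≤ p) (hl : 1 / 2 ≤ lam)
    (hA : ∃ V : Fin p → Submodule F (Sp F p), EquiIsoclinic F 1 p p lam V)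
    (hB : ∃ V : Fin p → Submodule F (Sp F (3 * p - 1)), EquiIsoclinic F 3 (3 * p - 1) p lam V)
    {k n : ℕ} (h : p + 4 * Nat.log 2 (Nat.log 2 k) + 18 ≤ 2 * Nat.log 2 k) (hn : k ≤ n) :
    p ∈ sizes F n (2 * n + k) := by
  have hk0 : k ≠ 0 := by
    rintro rfl
    simp at h
  refine assemble F hp hl hA hB (a := (p + 8) / 8) (by omega) ?_ hn
  set l := Nat.log 2 k with hl'
  set g := Nat.log 2 l with hg
  have h1 : 2 ^ l ≤ k := Nat.pow_log_le_self 2 hk0
  have h2 : l < 2 ^ (g + 1) := Nat.lt_pow_succ_log_self (by norm_num) l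
  have h3 : p ≤ 2 ^ (g + 2) := by
    have : 2 ^ (g + 2) = 2 * 2 ^ (g + 1) := by ring
    omega
  have h4 : (p - 2) * (3 * p - 7) ≤ 2 ^ (2 * g + 6) := by
    calc (p - 2) * (3 * p - 7) ≤ 2 ^ (g + 2) * (3 * 2 ^ (g + 2)) :=
          Nat.mul_le_mul (by omega) (by omega)
      _ = 3 * 2 ^ (2 * g + 4) := by ring
      _ ≤ 4 * 2 ^ (2 * g + 4) := Nat.mul_le_mul_right _ (by norm_num)
      _ = 2 ^ (2 * g + 6) := by ring
  have h5 : 2 ^ (4 * ((p + 8) / 8) - 1) ≤ 2 ^ (p / 2 + 3) :=
    Nat.pow_le_pow_right (by norm_num) (by omega)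
  calc (p - 2) * (3 * p - 7) * 2 ^ (4 * ((p + 8) / 8) - 1) ≤ 2 ^ (2 * g + 6) * 2 ^ (p / 2 + 3) :=
        Nat.mul_le_mul h4 h5
    _ = 2 ^ (2 * g + 6 + (p / 2 + 3)) := (pow_add _ _ _).symm
    _ ≤ 2 ^ l := Nat.pow_le_pow_right (by norm_num) (by omega)
    _ ≤ k := h1

end Pool.Agent.EI28X
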