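import Pool.Agent.EI28X.Div
import Pool.Agent.EI28U.Restrict
import Pool.Agent.H32Iso.Period

set_option autoImplicit false

/-! The rank of the core modulo a power of two. -/

namespace Pool.Agent.EI28X

open Module Pool.Agent.H32Iso Pool.Agent.EI28U

/-- `m (4 l + 7) (2 l + 5) / 2` with `l = ⌊log₂ m⌋`. -/
noncomputable def LX (m : ℕ) : ℝ :=
  m * ((4 * (Nat.log 2 m : ℝ) + 7) * (2 * (Nat.log 2 m : ℝ) + 5)) / 2

variable {W : Type*} [NormedAddCommGroup W] [InnerProductSpace ℝ W] [FiniteDimensional ℝ W]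
  {p : ℕ} {lam : ℝ} {P : Fin p → W →ₗ[ℝ] W}

/-- The core always has small rank. -/
theorem core_all (h : Cfg lam P) (h1 : lam < 1) {N m : ℕ}
    (hm : 1 ≤ m) (hN : ∀ i, finrank ℝ (LinearMap.range (P i)) = N)
    (hW : finrank ℝ W = 2 * N + m) (hspan : ⨆ i, LinearMap.range (P i) = ⊤) (hp3 : 3 ≤ p) :
    ∃ (N' : ℕ) (hinv : ∀ i, ∀ x ∈ (K lam P Finset.univ)ᗮ, P i x ∈ (K lam P Finset.univ)ᗮ),
      1 ≤ N' ∧ (N' : ℝ) ≤ LX m ∧ (∀ i, finrank ℝ (LinearMap.range (rst P _ hinv i)) = N') ∧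
      finrank ℝ (K lam P Finset.univ)ᗮ = 2 * N' + m ∧
      finrank ℝ (K lam P Finset.univ) + 2 * N' = 2 * N := by
  have hcard : Fintype.card (Fin p) = p := Fintype.card_fin p
  obtain ⟨N', hinv, hN'1, hN', hE, hsum⟩ := exists_core h h1.ne (by omega) hN hW hspan
    (by rw [hcard]; exact hp3)
  refine ⟨N', hinv, hN'1, ?_, hN', hE, hsum⟩
  set l := Nat.log 2 m with hl
  set q := 4 * l + 9 with hq
  have hLq : LX m = m * ((q : ℝ) * (q - 1) - 2) / 4 := by
    unfold LX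
    rw [← hl, hq]
    push_cast
    ring
  have hdim : 2 * (2 * N' + m) ≤ m * (q * (q - 1)) := by
    rcases Nat.lt_or_ge p q with hc | hc
    · have hge := h.finrank_K_ge h1.ne hN hW Finset.univ
      rw [Finset.card_univ, hcard] at hge
      have h2 : p * (p - 1) ≤ q * (q - 1) := Nat.mul_le_mul hc.le (by omega)
      have h3 : m * (p * (p - 1)) ≤ m * (q * (q - 1)) := Nat.mul_le_mul_left _ h2
      omega
    · obtain ⟨J, _, hJ⟩ := Finset.exists_subset_card_eq (s := (Finset.univ : Finset (Fin p)))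
        (n := q) (by rw [Finset.card_univ, hcard]; exact hc)
      have hstab := h.K_superset_eq h1.ne hN hW (fun t ht => pow_gt hm t ht) J hJ.ge Finset.univ
      have huniv : Finset.univ ∪ J = (Finset.univ : Finset (Fin p)) := by simp
      rw [huniv] at hstab
      have hge := h.finrank_K_ge h1.ne hN hW J
      rw [← hstab, hJ] at hge
      omega
  have h2 : ((2 * (2 * N' + m) : ℕ) : ℝ) ≤ ((m * (q * (q - 1)) : ℕ) : ℝ) := by
    exact_mod_cast hdim
  rw [Nat.cast_mul m, Nat.cast_mul q, Nat.cast_sub (by omega)] at h2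
  push_cast at h2
  rw [hLq]
  linarith

/-- The rank of the core is the residue of `N` modulo `2 ^ e`. -/
theorem core_mod (h : Cfg lam P) (h1 : lam < 1) {N m e : ℕ}
    (hm : 1 ≤ m) (hN : ∀ i, finrank ℝ (LinearMap.range (P i)) = N)
    (hW : finrank ℝ W = 2 * N + m) (hspan : ⨆ i, LinearMap.range (P i) = ⊤)
    (he : LX m < 2 ^ e) (hp : 2 * e + 3 ≤ p) :
    ∃ (hinv : ∀ i, ∀ x ∈ (K lam P Finset.univ)ᗮ, P i x ∈ (K lam P Finset.univ)ᗮ),
      1 ≤ N % 2 ^ e ∧ ((N % 2 ^ e : ℕ) : ℝ) ≤ LX m ∧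
      (∀ i, finrank ℝ (LinearMap.range (rst P _ hinv i)) = N % 2 ^ e) ∧
      finrank ℝ (K lam P Finset.univ)ᗮ = 2 * (N % 2 ^ e) + m ∧
      (N % 2 ^ e < N → 0 ≤ 1 + ((p : ℝ) - 1) * (2 * lam - 1)) := by
  obtain ⟨N', hinv, hN'1, hN'L, hN', hE, hsum⟩ := core_all h h1 hm hN hW hspan (by omega)
  have hlt : N' < 2 ^ e := by
    have : (N' : ℝ) < ((2 ^ e : ℕ) : ℝ) := by push_cast; linarith
    exact_mod_cast this
  have hdvd := Cfg.dvd_finrank_K h h1.ne (Finset.univ : Finset (Fin p))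
  rw [Finset.card_univ, Fintype.card_fin] at hdvd
  have hdvd2 : 2 ^ (e + 1) ∣ finrank ℝ (K lam P Finset.univ) :=
    (pow_dvd_pow 2 (by omega)).trans hdvd
  obtain ⟨t, ht⟩ := hdvd2
  have hNN : N = N' + 2 ^ e * t := by
    have : 2 ^ (e + 1) * t = 2 * (2 ^ e * t) := by ring
    omega
  have hmod : N % 2 ^ e = N' := by
    rw [hNN, Nat.add_mul_mod_self_left, Nat.mod_eq_of_lt hlt]
  rw [hmod]
  refine ⟨hinv, hN'1, hN'L, hN', hE, fun hlt' => ?_⟩
  have hK : K lam P Finset.univ ≠ ⊥ := by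
    intro hbot
    rw [hbot, finrank_bot] at hsum
    omega
  have hlam := h.lam_ge h1.ne hK
  rw [Fintype.card_fin] at hlam
  have hp0 : (0 : ℝ) < p := by
    have : 0 < p := by omega
    exact_mod_cast this
  exact nonneg_of_mul_nonneg_right hlam hp0

end Pool.Agent.EI28X
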