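import Pool.Agent.EI28X.Weights
import Pool.Agent.H32Iso.Fields

set_option autoImplicit false

/-! `2 s + 1` equiangular lines in `ℂ ^ (s + 1)`. -/

namespace Pool.Agent.EI28X

open Finset ComplexConjugate Module Pool.Agent.H32Iso

theorem split {s : ℕ} (f : Fin (s + 1) → Fin (s + 1) → ℂ) :
    ∑ d, ∑ d', f d d' = ∑ d, f d d +
      (∑ t : Fin s, ∑ d : Fin (s + 1), ∑ d' : Fin (s + 1),
        if d'.val = d.val + t.val + 1 then f d d' else 0) +
      ∑ t : Fin s, ∑ d : Fin (s + 1), ∑ d' : Fin (s + 1),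
        if d.val = d'.val + t.val + 1 then f d d' else 0 := by
  have hpt : ∀ d d' : Fin (s + 1), f d d' = (if d = d' then f d d' else 0) +
      (∑ t : Fin s, if d'.val = d.val + t.val + 1 then f d d' else 0) +
      ∑ t : Fin s, if d.val = d'.val + t.val + 1 then f d d' else 0 := by
    intro d d'
    rcases lt_trichotomy d.val d'.val with h | h | h
    · have h1 : d ≠ d' := fun e => by rw [e] at h; omega
      rw [if_neg h1, Finset.sum_eq_single (⟨d'.val - d.val - 1, by omega⟩ : Fin s),
        if_pos (by show d'.val = d.val + (d'.val - d.val - 1) + 1; omega),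
        Finset.sum_eq_zero (s := univ)
          (f := fun t : Fin s => if d.val = d'.val + t.val + 1 then f d d' else 0)]
      · ring
      · intro t _; rw [if_neg (by omega)]
      · intro t _ ht
        rw [if_neg]
        intro h2
        apply ht
        apply Fin.ext
        show t.val = d'.val - d.val - 1
        omega
      · intro h2; exact absurd (mem_univ _) h2
    · have h1 : d = d' := Fin.ext h
      rw [if_pos h1, Finset.sum_eq_zero (s := univ)
          (f := fun t : Fin s => if d'.val = d.val + t.val + 1 then f d d' else 0),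
        Finset.sum_eq_zero (s := univ)
          (f := fun t : Fin s => if d.val = d'.val + t.val + 1 then f d d' else 0)]
      · ring
      · intro t _; rw [if_neg (by omega)]
      · intro t _; rw [if_neg (by omega)]
    · have h1 : d ≠ d' := fun e => by rw [e] at h; omega
      rw [if_neg h1, Finset.sum_eq_zero (s := univ)
          (f := fun t : Fin s => if d'.val = d.val + t.val + 1 then f d d' else 0),
        Finset.sum_eq_single (⟨d.val - d'.val - 1, by omega⟩ : Fin s),
        if_pos (by show d.val = d'.val + (d.val - d'.val - 1) + 1; omega)]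
      · ring
      · intro t _ ht
        rw [if_neg]
        intro h2
        apply ht
        apply Fin.ext
        show t.val = d.val - d'.val - 1
        omega
      · intro h2; exact absurd (mem_univ _) h2
      · intro t _; rw [if_neg (by omega)]
  have e1 : ∑ d, ∑ d', f d d' = ∑ d, ∑ d', ((if d = d' then f d d' else 0) +
      (∑ t : Fin s, if d'.val = d.val + t.val + 1 then f d d' else 0) +
      ∑ t : Fin s, if d.val = d'.val + t.val + 1 then f d d' else 0) :=
    sum_congr rfl fun d _ => sum_congr rfl fun d' _ => hpt d d'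
  have swap : ∀ g : Fin (s + 1) → Fin (s + 1) → Fin s → ℂ,
      ∑ d, ∑ d', ∑ t, g d d' t = ∑ t, ∑ d, ∑ d', g d d' t := by
    intro g
    rw [sum_congr rfl (fun d _ => sum_comm (f := fun d' t => g d d' t))]
    exact sum_comm
  rw [e1]
  simp only [sum_add_distrib]
  congr 1
  · congr 1
    · refine sum_congr rfl fun d _ => ?_
      rw [Finset.sum_ite_eq univ d (fun d' => f d d')]
      simp
    · exact swap (fun d d' t => if d'.val = d.val + t.val + 1 then f d d' else 0)
  · exact swap (fun d d' t => if d.val = d'.val + t.val + 1 then f d d' else 0)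

theorem geom {s : ℕ} {ρ : ℂ} (hρ : ρ ^ (2 * s + 1) = 1) (hne : ρ ≠ 1) (hc : conj ρ * ρ = 1) :
    ∑ t : Fin s, (ρ ^ (t.val + 1) + conj ρ ^ (t.val + 1)) = -1 := by
  have hρ0 : ρ ≠ 0 := by rintro rfl; simp at hc
  have h0 : ∑ m ∈ range (2 * s + 1), ρ ^ m = 0 := by
    have := mul_geom_sum ρ (2 * s + 1)
    rw [hρ, sub_self] at this
    exact (mul_eq_zero.mp this).resolve_left (sub_ne_zero.mpr hne)
  have hconj : ∀ t : ℕ, t < s → conj ρ ^ (t + 1) = ρ ^ (s + (s - 1 - t) + 1) := by
    intro t ht
    have h1 : ρ ^ (s + (s - 1 - t) + 1) * ρ ^ (t + 1) = 1 := by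
      rw [← pow_add, show s + (s - 1 - t) + 1 + (t + 1) = 2 * s + 1 by omega, hρ]
    have h2 : conj ρ ^ (t + 1) * ρ ^ (t + 1) = 1 := by
      rw [← mul_pow, hc, one_pow]
    exact mul_right_cancel₀ (pow_ne_zero _ hρ0) (h2.trans h1.symm)
  rw [sum_add_distrib, Fin.sum_univ_eq_sum_range (fun t => ρ ^ (t + 1)),
    Fin.sum_univ_eq_sum_range (fun t => conj ρ ^ (t + 1))]
  have h3 : ∑ t ∈ range s, conj ρ ^ (t + 1) = ∑ m ∈ range s, ρ ^ (s + m + 1) := by
    rw [← Finset.sum_range_reflect (fun m => ρ ^ (s + m + 1)) s]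
    refine sum_congr rfl fun t ht => ?_
    rw [hconj t (mem_range.mp ht)]
  have h4 : ∑ m ∈ range (2 * s + 1), ρ ^ m =
      (∑ m ∈ range s, ρ ^ (m + 1) + ∑ m ∈ range s, ρ ^ (s + m + 1)) + 1 := by
    rw [sum_range_succ', pow_zero, two_mul, Finset.sum_range_add]
  rw [h3]
  rw [h0] at h4
  linear_combination -h4

/-- the weights -/
noncomputable def wt {s : ℕ} (P : ℝ) (x : Fin s → ℝ) : Fin (s + 1) → ℝ :=
  Fin.cons 1 (fun a => P * x a)

theorem autocorr {s : ℕ} {P : ℝ} {x : Fin s → ℝ} (h : ∀ t, x t + P * Qt t x = 1) (t : Fin s) :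
    (∑ d : Fin (s + 1), ∑ d' : Fin (s + 1),
      if d'.val = d.val + t.val + 1 then wt P x d * wt P x d' else 0) = P := by
  rw [Fin.sum_univ_succ]
  have e1 : (∑ d' : Fin (s + 1), if d'.val = (0 : Fin (s + 1)).val + t.val + 1 then
      wt P x 0 * wt P x d' else 0) = P * x t := by
    rw [Finset.sum_eq_single t.succ]
    · rw [if_pos (by simp [Fin.val_succ])]
      simp [wt]
    · intro b _ hb
      rw [if_neg]
      intro h2
      apply hb
      apply Fin.ext
      rw [Fin.val_succ, h2]
      simp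
    · intro h2; exact absurd (mem_univ _) h2
  have e2 : ∀ a : Fin s, (∑ d' : Fin (s + 1), if d'.val = a.succ.val + t.val + 1 then
      wt P x a.succ * wt P x d' else 0) = P * P *
      ∑ b : Fin s, if b.val = a.val + t.val + 1 then x a * x b else 0 := by
    intro a
    rw [Fin.sum_univ_succ, if_neg (by simp), zero_add, mul_sum]
    refine sum_congr rfl fun b _ => ?_
    simp only [Fin.val_succ]
    by_cases hb : b.val = a.val + t.val + 1
    · rw [if_pos (by omega), if_pos hb]
      simp only [wt, Fin.cons_succ]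
      ring
    · rw [if_neg (by omega), if_neg hb, mul_zero]
  rw [e1, sum_congr rfl (fun a _ => e2 a), ← mul_sum]
  have h1 := h t
  have h2 : ∑ a : Fin s, ∑ b : Fin s, (if b.val = a.val + t.val + 1 then x a * x b else 0) =
      Qt t x := rfl
  rw [h2]
  linear_combination P * h1

/-- the square of the absolute value -/
theorem norm_poly {s : ℕ} {P : ℝ} {x : Fin s → ℝ} (h : ∀ t, x t + P * Qt t x = 1) {ρ : ℂ}
    (hc : conj ρ * ρ = 1) :
    (∑ d : Fin (s + 1), (wt P x d : ℂ) * ρ ^ d.val) *
      conj (∑ d : Fin (s + 1), (wt P x d : ℂ) * ρ ^ d.val) =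
    ((∑ d, wt P x d ^ 2 : ℝ) : ℂ) + P * ∑ t : Fin s, (ρ ^ (t.val + 1) + conj ρ ^ (t.val + 1)) := by
  rw [map_sum, Fintype.sum_mul_sum, split]
  have hpow : ∀ m : ℕ, ρ ^ m * conj ρ ^ m = 1 := by
    intro m; rw [← mul_pow, mul_comm, hc, one_pow]
  have e1 : ∑ d : Fin (s + 1), ((wt P x d : ℂ) * ρ ^ d.val) *
      conj ((wt P x d : ℂ) * ρ ^ d.val) = ((∑ d, wt P x d ^ 2 : ℝ) : ℂ) := by
    push_cast
    refine sum_congr rfl fun d _ => ?_
    rw [map_mul, map_pow, Complex.conj_ofReal]
    linear_combination (wt P x d : ℂ) ^ 2 * hpow d.val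
  have e2 : ∀ t : Fin s, (∑ d : Fin (s + 1), ∑ d' : Fin (s + 1),
      if d'.val = d.val + t.val + 1 then ((wt P x d : ℂ) * ρ ^ d.val) *
      conj ((wt P x d' : ℂ) * ρ ^ d'.val) else 0) = P * conj ρ ^ (t.val + 1) := by
    intro t
    have hP : (P : ℂ) * conj ρ ^ (t.val + 1) = ((∑ d : Fin (s + 1), ∑ d' : Fin (s + 1),
      if d'.val = d.val + t.val + 1 then wt P x d * wt P x d' else 0 : ℝ) : ℂ) *
        conj ρ ^ (t.val + 1) := by rw [autocorr h t]
    rw [hP, Complex.ofReal_sum, sum_mul]
    refine sum_congr rfl fun d _ => ?_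
    rw [Complex.ofReal_sum, sum_mul]
    refine sum_congr rfl fun d' _ => ?_
    split_ifs with hd
    · rw [map_mul, map_pow, Complex.conj_ofReal, hd, add_assoc, pow_add]
      push_cast
      linear_combination (wt P x d : ℂ) * (wt P x d' : ℂ) * conj ρ ^ (t.val + 1) * hpow d.val
    · simp
  have e3 : ∀ t : Fin s, (∑ d : Fin (s + 1), ∑ d' : Fin (s + 1),
      if d.val = d'.val + t.val + 1 then ((wt P x d : ℂ) * ρ ^ d.val) *
      conj ((wt P x d' : ℂ) * ρ ^ d'.val) else 0) = P * ρ ^ (t.val + 1) := by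
    intro t
    have hP : (P : ℂ) * ρ ^ (t.val + 1) = ((∑ d : Fin (s + 1), ∑ d' : Fin (s + 1),
      if d'.val = d.val + t.val + 1 then wt P x d * wt P x d' else 0 : ℝ) : ℂ) *
        ρ ^ (t.val + 1) := by rw [autocorr h t]
    rw [hP, sum_comm, Complex.ofReal_sum, sum_mul]
    refine sum_congr rfl fun d' _ => ?_
    rw [Complex.ofReal_sum, sum_mul]
    refine sum_congr rfl fun d _ => ?_
    split_ifs with hd
    · rw [map_mul, map_pow, Complex.conj_ofReal, hd, add_assoc, pow_add]
      push_cast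
      linear_combination (wt P x d : ℂ) * (wt P x d' : ℂ) * ρ ^ (t.val + 1) * hpow d'.val
    · simp
  rw [e1, sum_congr rfl (fun t _ => e2 t), sum_congr rfl (fun t _ => e3 t), mul_sum, add_assoc,
    ← sum_add_distrib]
  congr 1
  refine sum_congr rfl fun t _ => ?_
  ring

end Pool.Agent.EI28X
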