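import Pool.Agent.H32Iso.DirectSum

set_option autoImplicit false

/-! The direct sum of two equi-isoclinic families with the same parameter. -/

namespace Pool.Agent.EI28X

open Module Pool.Agent.H32Iso

variable {F : Type} [NormedDivisionRing F] {r s : ℕ}

/-- the direct sum of two subspaces -/
def dsum (V : Submodule F (Sp F r)) (W : Submodule F (Sp F s)) :
    Submodule F (Sp F (r + s)) where
  carrier := {x | lft x ∈ V ∧ rgt x ∈ W}
  add_mem' := by
    rintro a b ⟨ha1, ha2⟩ ⟨hb1, hb2⟩
    exact ⟨V.add_mem ha1 hb1, W.add_mem ha2 hb2⟩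
  zero_mem' := ⟨V.zero_mem, W.zero_mem⟩
  smul_mem' := by
    rintro c x ⟨h1, h2⟩
    exact ⟨V.smul_mem c h1, W.smul_mem c h2⟩

theorem mem_dsum {V : Submodule F (Sp F r)} {W : Submodule F (Sp F s)}
    {x : Sp F (r + s)} : x ∈ dsum V W ↔ lft x ∈ V ∧ rgt x ∈ W :=
  Iff.rfl

theorem finrank_dsum (V : Submodule F (Sp F r)) (W : Submodule F (Sp F s)) :
    finrank F (dsum V W) = finrank F V + finrank F W := by
  let e : dsum V W ≃ₗ[F] V × W :=
    { toFun := fun x => (⟨lft x.1, x.2.1⟩, ⟨rgt x.1, x.2.2⟩)
      invFun := fun y => ⟨glue y.1.1 y.2.1, by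
        rw [mem_dsum, lft_glue, rgt_glue]; exact ⟨y.1.2, y.2.2⟩⟩
      left_inv := fun x => Subtype.ext (glue_eta x.1)
      right_inv := fun y => by
        apply Prod.ext
        · apply Subtype.ext; exact lft_glue _ _
        · apply Subtype.ext; exact rgt_glue _ _
      map_add' := fun x y => rfl
      map_smul' := fun c x => rfl }
  rw [e.finrank_eq, Module.finrank_prod]

variable [InnerProductSpace ℝ F] [IsScalarTower ℝ F F] [SMulCommClass ℝ F F]
  [FiniteDimensional ℝ F]

omit [SMulCommClass ℝ F F] in
theorem proj_dsum (V : Submodule F (Sp F r)) (W : Submodule F (Sp F s)) (x : Sp F (r + s)) :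
    proj (dsum V W) x = glue (proj V (lft x)) (proj W (rgt x)) := by
  unfold proj
  apply Submodule.eq_starProjection_of_mem_of_inner_eq_zero
  · rw [Submodule.restrictScalars_mem, mem_dsum, lft_glue, rgt_glue]
    exact ⟨Submodule.starProjection_apply_mem (V.restrictScalars ℝ) (lft x),
      Submodule.starProjection_apply_mem (W.restrictScalars ℝ) (rgt x)⟩
  · intro w hw
    rw [Submodule.restrictScalars_mem, mem_dsum] at hw
    rw [inner_lr, lft_sub, rgt_sub, lft_glue, rgt_glue]
    have h1 : inner ℝ (lft x - (V.restrictScalars ℝ).starProjection (lft x)) (lft w) = 0 :=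
      Submodule.starProjection_inner_eq_zero _ _ hw.1
    have h2 : inner ℝ (rgt x - (W.restrictScalars ℝ).starProjection (rgt x)) (rgt w) = 0 :=
      Submodule.starProjection_inner_eq_zero _ _ hw.2
    rw [h1, h2, zero_add]

/-- **Direct sum of equi-isoclinic families.** -/
theorem exists_dsum {F : Type} [NormedDivisionRing F] [InnerProductSpace ℝ F]
    [IsScalarTower ℝ F F] [SMulCommClass ℝ F F] [FiniteDimensional ℝ F] {n m r s p : ℕ}
    {lam : ℝ} {V : Fin p → Submodule F (Sp F r)} {W : Fin p → Submodule F (Sp F s)}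
    (h : EquiIsoclinic F n r p lam V) (h' : EquiIsoclinic F m s p lam W) :
    ∃ U : Fin p → Submodule F (Sp F (r + s)), EquiIsoclinic F (n + m) (r + s) p lam U := by
  refine ⟨fun i => dsum (V i) (W i), ⟨h.nonneg, h.lt_one, ?_, ?_, ?_⟩⟩
  · intro i
    rw [finrank_dsum, h.rank, h'.rank]
  · unfold Spans
    rw [eq_top_iff]
    intro x _
    have hl : ∀ a : Sp F r, glue a (0 : Sp F s) ∈ ⨆ i, dsum (V i) (W i) := by
      intro a
      have ha : a ∈ ⨆ i, V i := by
        have h0 : ⨆ i, V i = ⊤ := h.span
        rw [h0]; trivial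
      induction ha using Submodule.iSup_induction' with
      | mem i a ha =>
        apply Submodule.mem_iSup_of_mem i
        rw [mem_dsum, lft_glue, rgt_glue]
        exact ⟨ha, Submodule.zero_mem _⟩
      | zero =>
        have : glue (0 : Sp F r) (0 : Sp F s) = 0 := ext_lr (by simp) (by simp)
        rw [this]; exact Submodule.zero_mem _
      | add a b _ _ ha hb =>
        have : glue (a + b) (0 : Sp F s) = glue a 0 + glue b 0 := ext_lr (by simp) (by simp)
        rw [this]; exact Submodule.add_mem _ ha hb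
    have hr : ∀ b : Sp F s, glue (0 : Sp F r) b ∈ ⨆ i, dsum (V i) (W i) := by
      intro b
      have hb : b ∈ ⨆ i, W i := by
        have h0 : ⨆ i, W i = ⊤ := h'.span
        rw [h0]; trivial
      induction hb using Submodule.iSup_induction' with
      | mem i b hb =>
        apply Submodule.mem_iSup_of_mem i
        rw [mem_dsum, lft_glue, rgt_glue]
        exact ⟨Submodule.zero_mem _, hb⟩
      | zero =>
        have : glue (0 : Sp F r) (0 : Sp F s) = 0 := ext_lr (by simp) (by simp)
        rw [this]; exact Submodule.zero_mem _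
      | add a b _ _ ha hb =>
        have : glue (0 : Sp F r) (a + b) = glue 0 a + glue 0 b := ext_lr (by simp) (by simp)
        rw [this]; exact Submodule.add_mem _ ha hb
    have hx : x = glue (lft x) 0 + glue 0 (rgt x) := ext_lr (by simp) (by simp)
    rw [hx]
    exact Submodule.add_mem _ (hl _) (hr _)
  · intro i j hij
    rw [iso_iff]
    intro x
    rw [proj_dsum, proj_dsum, proj_dsum]
    apply ext_lr
    · simp only [lft_glue, lft_smulR]
      exact iso_iff.mp (h.iso i j hij) (lft x)
    · simp only [rgt_glue, rgt_smulR]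
      exact iso_iff.mp (h'.iso i j hij) (rgt x)

end Pool.Agent.EI28X
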