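import Pool.Agent.H32Iso.Bound

set_option autoImplicit false

/-! Divisibility of the dimension by a power of two, for anticommuting operators. -/

namespace Pool.Agent.EI28X

open Module Pool.Agent.H32Iso

section General

variable {K : Type*} [Field K]

/-- If `e² = μ²` and an injective `f` anticommutes with `e`, then the eigenspace of `μ` has half
the dimension. -/
theorem two_mul_finrank_eq {M : Type*} [AddCommGroup M] [Module K M] [FiniteDimensional K M]
    (e f : M →ₗ[K] M) (μ : K) (hμ : μ + μ ≠ 0) (hsq : ∀ x, e (e x) = (μ * μ) • x)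
    (hf : Function.Injective f) (hanti : ∀ x, e (f x) = - f (e x)) :
    2 * finrank K (LinearMap.ker (e - μ • LinearMap.id)) = finrank K M := by
  set A := LinearMap.ker (e - μ • LinearMap.id) with hA
  set B := LinearMap.ker (e + μ • LinearMap.id) with hB
  have hmemA : ∀ x, x ∈ A ↔ e x = μ • x := by
    intro x
    simp only [hA, LinearMap.mem_ker, LinearMap.sub_apply,
        LinearMap.smul_apply, LinearMap.id_apply, sub_eq_zero]
  have hmemB : ∀ x, x ∈ B ↔ e x = - (μ • x) := by
    intro x
    simp only [hB, LinearMap.mem_ker, LinearMap.add_apply,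
        LinearMap.smul_apply, LinearMap.id_apply, add_eq_zero_iff_eq_neg]
  have h1 : finrank K A ≤ finrank K B := by
    rw [← LinearMap.finrank_range_of_inj (f := (f.restrict (p := A) (q := B) (by
      intro x hx
      rw [hmemA] at hx
      rw [hmemB, hanti, hx, map_smul])))]
    · exact Submodule.finrank_le _
    · intro x y hxy
      apply Subtype.ext
      exact hf (congrArg Subtype.val hxy)
  have h2 : finrank K B ≤ finrank K A := by
    rw [← LinearMap.finrank_range_of_inj (f := (f.restrict (p := B) (q := A) (by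
      intro x hx
      rw [hmemB] at hx
      rw [hmemA, hanti, hx, map_neg, map_smul, neg_neg])))]
    · exact Submodule.finrank_le _
    · intro x y hxy
      apply Subtype.ext
      exact hf (congrArg Subtype.val hxy)
  have hinf : A ⊓ B = ⊥ := by
    rw [eq_bot_iff]
    rintro x ⟨hx1, hx2⟩
    rw [SetLike.mem_coe, hmemA] at hx1
    rw [SetLike.mem_coe, hmemB] at hx2
    have h3 : (μ + μ) • x = 0 := by
      rw [add_smul]; nth_rewrite 1 [← hx1]; rw [hx2]; abel
    rw [Submodule.mem_bot]
    exact (smul_eq_zero.mp h3).resolve_left hμ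
  have hsup : A ⊔ B = ⊤ := by
    rw [eq_top_iff]
    intro x _
    have h3 : x = (μ + μ)⁻¹ • (e x + μ • x) - (μ + μ)⁻¹ • (e x - μ • x) := by
      rw [← smul_sub]
      have : e x + μ • x - (e x - μ • x) = (μ + μ) • x := by rw [add_smul]; abel
      rw [this, smul_smul, inv_mul_cancel₀ hμ, one_smul]
    rw [h3]
    apply Submodule.sub_mem
    · apply Submodule.smul_mem
      apply Submodule.mem_sup_left
      rw [hmemA, map_add, map_smul, hsq]
      module
    · apply Submodule.smul_mem
      apply Submodule.mem_sup_right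
      rw [hmemB, map_sub, map_smul, hsq]
      module
  have h4 := Submodule.finrank_sup_add_finrank_inf_eq A B
  rw [hinf, hsup, finrank_bot, finrank_top] at h4
  omega

theorem clifford_dvd_algClosed [IsAlgClosed K] [CharZero K] (m : ℕ) :
    ∀ (M : Type _) [AddCommGroup M] [Module K M] [FiniteDimensional K M]
    (e : Fin m → M →ₗ[K] M) (c : Fin m → K), (∀ i, c i ≠ 0) →
    (∀ i x, e i (e i x) = c i • x) →
    (∀ i j, i ≠ j → ∀ x, e i (e j x) = - e j (e i x)) → 2 ^ (m / 2) ∣ finrank K M := by
  induction m using Nat.strong_induction_on with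
  | _ m ih =>
  intro M _ _ _ e c hc hsq hanti
  by_cases hm : m < 2
  · have : m / 2 = 0 := by omega
    rw [this, pow_zero]
    exact one_dvd _
  push Not at hm
  obtain ⟨n, rfl⟩ : ∃ n, m = n + 2 := ⟨m - 2, by omega⟩
  -- eigenvalue of e 0
  obtain ⟨μ, hμ⟩ := IsAlgClosed.exists_pow_nat_eq (c 0) (n := 2) (by norm_num)
  have hμ0 : μ ≠ 0 := by
    intro h0; rw [h0] at hμ; apply hc 0; rw [← hμ]; simp
  set e0 := e 0 with he0
  have hinj : ∀ i, Function.Injective (e i) := by
    intro i
    rw [← LinearMap.ker_eq_bot, eq_bot_iff]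
    intro x hx
    have := hsq i x
    rw [LinearMap.mem_ker.mp hx, map_zero] at this
    exact (smul_eq_zero.mp this.symm).resolve_left (hc i)
  set A := LinearMap.ker (e0 - μ • LinearMap.id) with hA
  have hmemA : ∀ x, x ∈ A ↔ e0 x = μ • x := by
    intro x
    simp only [hA, LinearMap.mem_ker, LinearMap.sub_apply,
        LinearMap.smul_apply, LinearMap.id_apply, sub_eq_zero]
  have h01 : (0 : Fin (n+2)) ≠ 1 := by simp
  have hμμ : μ + μ ≠ 0 := by rw [← two_mul]; exact mul_ne_zero two_ne_zero hμ0
  have hdim := two_mul_finrank_eq e0 (e 1) μ hμμ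
    (by intro x; rw [he0, hsq 0, ← hμ, sq]) (hinj 1) (hanti 0 1 h01)
  -- operators on A
  have hfA : ∀ j : Fin n, ∀ x ∈ A, (e 1 ∘ₗ e j.succ.succ) x ∈ A := by
    intro j x hx
    rw [hmemA] at hx ⊢
    rw [LinearMap.comp_apply, he0, hanti 0 1 h01, hanti 0 j.succ.succ (by simp [Fin.ext_iff]),
      map_neg, neg_neg, ← he0, hx, map_smul, map_smul]
  have h1j : ∀ j : Fin n, (1 : Fin (n+2)) ≠ j.succ.succ := by
    intro j; simp [Fin.ext_iff]
  have key := ih n (by omega) A (fun j => (e 1 ∘ₗ e j.succ.succ).restrict (hfA j))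
    (fun j => - (c 1 * c j.succ.succ))
    (fun j => neg_ne_zero.mpr (mul_ne_zero (hc _) (hc _)))
    (by
      intro j x
      apply Subtype.ext
      simp only [LinearMap.coe_restrict_apply, LinearMap.comp_apply, SetLike.val_smul]
      rw [hanti _ 1 (h1j j).symm, map_neg, hsq, hsq]
      module)
    (by
      intro i j hij x
      apply Subtype.ext
      simp only [LinearMap.coe_restrict_apply, LinearMap.comp_apply, NegMemClass.coe_neg]
      rw [hanti _ 1 (h1j i).symm, hanti _ 1 (h1j j).symm, map_neg, map_neg, hsq, hsq,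
        hanti i.succ.succ j.succ.succ (by simpa [Fin.ext_iff] using fun h => hij (Fin.ext h))]
      module)
  have : (n + 2) / 2 = n / 2 + 1 := by omega
  rw [this, pow_succ, mul_comm, ← hdim]
  exact Nat.mul_dvd_mul_left 2 key

/-- `m` pairwise anticommuting operators with non-zero scalar squares on a real space: the
dimension is divisible by `2 ^ (m / 2)`. -/
theorem clifford_dvd_real (m : ℕ) (M : Type*) [AddCommGroup M] [Module ℝ M]
    [FiniteDimensional ℝ M]
    (e : Fin m → M →ₗ[ℝ] M) (c : Fin m → ℝ) (hc : ∀ i, c i ≠ 0)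
    (hsq : ∀ i x, e i (e i x) = c i • x)
    (hanti : ∀ i j, i ≠ j → ∀ x, e i (e j x) = - e j (e i x)) : 2 ^ (m / 2) ∣ finrank ℝ M := by
  rw [← Module.finrank_baseChange (R := ℂ) (S := ℝ) (M' := M)]
  apply clifford_dvd_algClosed m (TensorProduct ℝ ℂ M) (fun i => (e i).baseChange ℂ)
    (fun i => (c i : ℂ))
  · intro i; exact_mod_cast hc i
  · intro i x
    have h1 : (e i) ∘ₗ (e i) = c i • LinearMap.id := by
      ext x; simp [hsq]
    have h2 := congrArg (LinearMap.baseChange ℂ) h1
    rw [LinearMap.baseChange_comp, LinearMap.baseChange_smul, LinearMap.baseChange_id] at h2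
    have h3 := LinearMap.congr_fun h2 x
    have h4 : ((c i : ℂ)) • x = c i • x := algebraMap_smul ℂ (c i) x
    rw [h4]
    exact h3
  · intro i j hij x
    have h1 : (e i) ∘ₗ (e j) = - ((e j) ∘ₗ (e i)) := by
      ext x; simp [hanti i j hij]
    have h2 := congrArg (LinearMap.baseChange ℂ) h1
    rw [LinearMap.baseChange_comp, LinearMap.baseChange_neg, LinearMap.baseChange_comp] at h2
    have h3 := LinearMap.congr_fun h2 x
    simpa using h3

end General

section Simplex

variable {M : Type*} [AddCommGroup M] [Module ℝ M] {κ : Type*} [Fintype κ] [DecidableEq κ]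

theorem simplex_dvd [FiniteDimensional ℝ M]
    (Z : κ → M →ₗ[ℝ] M) (t : ℝ) (ht : t ≠ 1) (hsq : ∀ i x, Z i (Z i x) = x)
    (hanti : ∀ i j, i ≠ j → ∀ x, Z i (Z j x) + Z j (Z i x) = (2 * t) • x) :
    2 ^ ((Fintype.card κ - 1) / 2) ∣ finrank ℝ M := by
  set one : EuclideanSpace ℝ κ := WithLp.toLp 2 (fun _ => 1) with hone
  set S : Submodule ℝ (EuclideanSpace ℝ κ) := (ℝ ∙ one)ᗮ with hS
  have hrank : Fintype.card κ - 1 ≤ finrank ℝ S := by
    have h1 := Submodule.finrank_add_finrank_orthogonal (𝕜 := ℝ) (ℝ ∙ one)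
    have h2 : finrank ℝ (ℝ ∙ one) ≤ 1 := finrank_span_le_card {one} |>.trans (by simp)
    rw [finrank_euclideanSpace, ← hS] at h1
    omega
  set b := stdOrthonormalBasis ℝ S
  have hsum : ∀ v : S, ∑ i, (v : EuclideanSpace ℝ κ) i = 0 := by
    intro v
    have hv : (v : EuclideanSpace ℝ κ) ∈ (ℝ ∙ one)ᗮ := v.2
    rw [Submodule.mem_orthogonal_singleton_iff_inner_right] at hv
    rw [hone, EuclideanSpace.inner_eq_star_dotProduct] at hv
    simpa [dotProduct] using hv
  have hinner : ∀ m n, ∑ i, (b m : EuclideanSpace ℝ κ) i * (b n : EuclideanSpace ℝ κ) i =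
      if m = n then 1 else 0 := by
    intro m n
    have := orthonormal_iff_ite.mp b.orthonormal n m
    rw [Submodule.coe_inner, EuclideanSpace.inner_eq_star_dotProduct] at this
    simp only [dotProduct, star_trivial, Pi.star_apply] at this
    rw [this]
    simp [eq_comm]
  have key := clifford_dvd_real (finrank ℝ S) M
    (fun m => L Z (fun i => (b m : EuclideanSpace ℝ κ) i))
    (fun _ => 1 - t) (fun _ => sub_ne_zero.mpr (Ne.symm ht))
    (by
      intro m x
      have := L_anti Z t hsq hanti (fun i => (b m : EuclideanSpace ℝ κ) i)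
        (fun i => (b m : EuclideanSpace ℝ κ) i) x
      rw [hsum, hinner, if_pos rfl] at this
      have h2 : (2:ℝ) • (L Z (fun i => (b m : EuclideanSpace ℝ κ) i))
          ((L Z (fun i => (b m : EuclideanSpace ℝ κ) i)) x) = (2:ℝ) • ((1 - t) • x) := by
        rw [two_smul, this]; module
      exact smul_right_injective M (two_ne_zero) h2)
    (by
      intro m n hmn x
      have := L_anti Z t hsq hanti (fun i => (b m : EuclideanSpace ℝ κ) i)
        (fun i => (b n : EuclideanSpace ℝ κ) i) x
      rw [hsum, hinner, if_neg hmn] at this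
      simp only [mul_zero, zero_mul, add_zero, zero_smul] at this
      exact eq_neg_of_add_eq_zero_left this)
  exact (pow_dvd_pow 2 (Nat.div_le_div_right hrank)).trans key

end Simplex

section Cfg

variable {W : Type*} [NormedAddCommGroup W] [InnerProductSpace ℝ W] [FiniteDimensional ℝ W]
  {ι : Type*} [DecidableEq ι] {lam : ℝ} {P : ι → W →ₗ[ℝ] W}

/-- The dimension of an invariant subspace of the common kernel is divisible by a power of two. -/
theorem Cfg.dvd_finrank (h : Cfg lam P) (hlam : lam ≠ 1) (J : Finset ι) (G : Submodule ℝ W)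
    (hG : G ≤ K lam P J) (hinv : ∀ l ∈ J, ∀ x ∈ G, P l x ∈ G) :
    2 ^ ((J.card - 1) / 2) ∣ finrank ℝ G := by
  have hZ : ∀ l : J, ∀ x ∈ G, ((2:ℝ) • P l.1 - LinearMap.id : W →ₗ[ℝ] W) x ∈ G := by
    intro l x hx
    rw [LinearMap.sub_apply, LinearMap.smul_apply, LinearMap.id_apply]
    exact G.sub_mem (G.smul_mem _ (hinv l.1 l.2 x hx)) hx
  have key := simplex_dvd (M := G) (κ := J)
    (fun l => ((2:ℝ) • P l.1 - LinearMap.id : W →ₗ[ℝ] W).restrict (hZ l)) (2 * lam - 1)
    (by intro h1; apply hlam; linarith)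
    (by
      intro l x
      apply Subtype.ext
      simp only [LinearMap.coe_restrict_apply, LinearMap.sub_apply, LinearMap.smul_apply,
        LinearMap.id_apply, map_sub, map_smul, h.idem]
      module)
    (by
      intro i j hij x
      apply Subtype.ext
      have hij' : i.1 ≠ j.1 := fun h => hij (Subtype.ext h)
      have hx := hG x.2 i.1 i.2 j.1 j.2 hij'
      rw [H32Iso.R_apply, sub_eq_zero] at hx
      simp only [Submodule.coe_add, LinearMap.coe_restrict_apply, LinearMap.sub_apply,
        LinearMap.smul_apply, LinearMap.id_apply, map_sub, map_smul, SetLike.val_smul]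
      have h2 : P i.1 (P j.1 x.1) + P j.1 (P i.1 x.1) = P i.1 x.1 + P j.1 x.1 - (1 - lam) • x.1 := by
        rw [hx]; abel
      calc _ = (4:ℝ) • (P i.1 (P j.1 x.1) + P j.1 (P i.1 x.1)) -
          (4:ℝ) • (P i.1 x.1 + P j.1 x.1) + (2:ℝ) • x.1 := by module
        _ = _ := by rw [h2]; module)
  rwa [Fintype.card_coe] at key

/-- The common kernel itself. -/
theorem Cfg.dvd_finrank_K (h : Cfg lam P) (hlam : lam ≠ 1) (J : Finset ι) :
    2 ^ ((J.card - 1) / 2) ∣ finrank ℝ (K lam P J) :=
  Cfg.dvd_finrank h hlam J _ le_rfl (fun _ hl _ hx => h.K_inv hlam hl hx)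

end Cfg

end Pool.Agent.EI28X
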