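import Mathlib

set_option autoImplicit false

/-! Real linear independence of unit vectors whose Gram kernel lies on a circle. -/

namespace Pool.Agent.EI28X

open Module Finset ComplexConjugate

/-- a complex kernel with a Gram representation -/
def GramK {ι : Type*} (K : ι → ι → ℂ) : Prop :=
  ∃ (M : Type) (_ : Fintype M) (a : ι → M → ℂ), ∀ i j, K i j = ∑ m, conj (a i m) * a j m

namespace GramK

variable {ι : Type*} {K K' : ι → ι → ℂ}

theorem mul (h : GramK K) (h' : GramK K') : GramK (fun i j => K i j * K' i j) := by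
  obtain ⟨M, hM, a, ha⟩ := h
  obtain ⟨M', hM', a', ha'⟩ := h'
  refine ⟨M × M', inferInstance, fun i m => a i m.1 * a' i m.2, fun i j => ?_⟩
  beta_reduce
  rw [ha, ha', Fintype.sum_mul_sum, Fintype.sum_prod_type]
  refine sum_congr rfl fun m _ => sum_congr rfl fun m' _ => ?_
  rw [map_mul]
  ring

theorem cj (h : GramK K) : GramK (fun i j => conj (K i j)) := by
  obtain ⟨M, hM, a, ha⟩ := h
  refine ⟨M, hM, fun i m => conj (a i m), fun i j => ?_⟩
  beta_reduce
  rw [ha, map_sum]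
  refine sum_congr rfl fun m _ => ?_
  rw [map_mul]

theorem nonneg [Fintype ι] (h : GramK K) (t : ι → ℝ) :
    0 ≤ ∑ i, ∑ j, t i * t j * (K i j).re := by
  obtain ⟨M, hM, a, ha⟩ := h
  have e1 : ∑ i, ∑ j, t i * t j * (K i j).re =
      (∑ m, conj (∑ j, (t j : ℂ) * a j m) * ∑ j, (t j : ℂ) * a j m).re := by
    have e2 : ∑ m, conj (∑ j, (t j : ℂ) * a j m) * ∑ j, (t j : ℂ) * a j m =
        ∑ i, ∑ j, ((t i * t j : ℝ) : ℂ) * K i j := by
      have e3 : ∀ m, conj (∑ j, (t j : ℂ) * a j m) * ∑ j, (t j : ℂ) * a j m =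
          ∑ i, ∑ j, ((t i * t j : ℝ) : ℂ) * (conj (a i m) * a j m) := by
        intro m
        rw [map_sum, Fintype.sum_mul_sum]
        refine sum_congr rfl fun i _ => sum_congr rfl fun j _ => ?_
        rw [map_mul, Complex.conj_ofReal]
        push_cast
        ring
      simp_rw [e3]
      rw [sum_comm]
      refine sum_congr rfl fun i _ => ?_
      rw [sum_comm]
      refine sum_congr rfl fun j _ => ?_
      rw [ha, mul_sum]
    rw [e2, Complex.re_sum]
    refine sum_congr rfl fun i _ => ?_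
    rw [Complex.re_sum]
    refine sum_congr rfl fun j _ => ?_
    rw [Complex.re_ofReal_mul]
  rw [e1, Complex.re_sum]
  refine sum_nonneg fun m _ => ?_
  rw [← Complex.normSq_eq_conj_mul_self, Complex.ofReal_re]
  exact Complex.normSq_nonneg _

end GramK

variable {V : Type*} [NormedAddCommGroup V] [InnerProductSpace ℝ V]

/-- Unit vectors with kernel on the circle `|z + κ|² = κ² + κ`, `κ³ > 1/2`, are linearly
independent over the reals. -/
theorem indep {ι : Type*} [Fintype ι] [DecidableEq ι] (y : ι → V) (z : ι → ι → ℂ) (κ : ℝ)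
    (hκ0 : 0 < κ) (hκ : 1 < 2 * κ ^ 3) (hK : GramK z)
    (hre : ∀ i j, (z i j).re = inner ℝ (y i) (y j)) (hdiag : ∀ i, z i i = 1)
    (hoff : ∀ i j, i ≠ j → (z i j).re ^ 2 + (z i j).im ^ 2 + 2 * κ * (z i j).re = κ) :
    LinearIndependent ℝ y := by
  rw [Fintype.linearIndependent_iff]
  intro t ht
  have h10 : ∑ i, ∑ j, t i * t j * (z i j).re = 0 := by
    have e : ∑ i, ∑ j, t i * t j * (z i j).re = inner ℝ (∑ i, t i • y i) (∑ j, t j • y j) := by
      rw [sum_inner]
      refine sum_congr rfl fun i _ => ?_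
      rw [inner_sum]
      refine sum_congr rfl fun j _ => ?_
      rw [hre, inner_smul_left, inner_smul_right]
      simp
      ring
    rw [e, ht, inner_zero_left]
  have h20 := (hK.mul hK).nonneg t
  have h31 := ((hK.mul hK).mul (hK.mul hK.cj)).nonneg t
  have h32 := (hK.mul ((hK.mul hK.cj).mul (hK.mul hK.cj))).nonneg t
  have hpt : ∀ i j, κ ^ 2 * (1 + 2 * κ) * (z i j * z i j).re +
      κ * (z i j * z i j * (z i j * conj (z i j))).re +
      (z i j * (z i j * conj (z i j) * (z i j * conj (z i j)))).re =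
      κ * (4 * κ ^ 3 + 6 * κ ^ 2 + κ) * (z i j).re - κ * (2 * κ ^ 3 + 2 * κ ^ 2) +
      (if i = j then (1 + κ) * (1 - 2 * κ ^ 3) else 0) := by
    intro i j
    have e1 : (z i j * z i j).re = (z i j).re ^ 2 - (z i j).im ^ 2 := by
      rw [Complex.mul_re]; ring
    have e2 : z i j * conj (z i j) = (((z i j).re ^ 2 + (z i j).im ^ 2 : ℝ) : ℂ) := by
      rw [Complex.mul_conj, Complex.normSq_apply]; push_cast; ring
    have e3 : (z i j * z i j * (z i j * conj (z i j))).re =
        ((z i j).re ^ 2 - (z i j).im ^ 2) * ((z i j).re ^ 2 + (z i j).im ^ 2) := by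
      rw [e2, Complex.re_mul_ofReal, e1]
    have e4 : (z i j * (z i j * conj (z i j) * (z i j * conj (z i j)))).re =
        (z i j).re * ((z i j).re ^ 2 + (z i j).im ^ 2) ^ 2 := by
      rw [e2, ← Complex.ofReal_mul, Complex.re_mul_ofReal]; ring
    rw [e3, e4, e1]
    by_cases hij : i = j
    · subst hij
      rw [hdiag, if_pos rfl]
      simp
      ring
    · rw [if_neg hij]
      have key : ∀ w2 : ℝ, w2 = κ - 2 * κ * (z i j).re - (z i j).re ^ 2 →
          κ ^ 2 * (1 + 2 * κ) * ((z i j).re ^ 2 - w2) +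
          κ * (((z i j).re ^ 2 - w2) * ((z i j).re ^ 2 + w2)) +
          (z i j).re * ((z i j).re ^ 2 + w2) ^ 2 =
          κ * (4 * κ ^ 3 + 6 * κ ^ 2 + κ) * (z i j).re - κ * (2 * κ ^ 3 + 2 * κ ^ 2) + 0 := by
        rintro _ rfl
        ring
      exact key _ (by linarith [hoff i j hij])
  have hsum : κ ^ 2 * (1 + 2 * κ) * (∑ i, ∑ j, t i * t j * (z i j * z i j).re) +
      κ * (∑ i, ∑ j, t i * t j * (z i j * z i j * (z i j * conj (z i j))).re) +
      (∑ i, ∑ j, t i * t j * (z i j * (z i j * conj (z i j) * (z i j * conj (z i j)))).re) =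
      κ * (4 * κ ^ 3 + 6 * κ ^ 2 + κ) * (∑ i, ∑ j, t i * t j * (z i j).re) -
      κ * (2 * κ ^ 3 + 2 * κ ^ 2) * (∑ i, t i) ^ 2 +
      (1 + κ) * (1 - 2 * κ ^ 3) * ∑ i, t i ^ 2 := by
    have e1 : (∑ i, t i) ^ 2 = ∑ i, ∑ j, t i * t j := by
      rw [sq, Fintype.sum_mul_sum]
    have e2 : ∑ i, t i ^ 2 = ∑ i, ∑ j, t i * t j * (if i = j then 1 else 0) := by
      refine sum_congr rfl fun i _ => ?_
      simp [sq]
    rw [e1, e2]
    simp only [mul_sum, ← sum_add_distrib, ← sum_sub_distrib]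
    refine sum_congr rfl fun i _ => sum_congr rfl fun j _ => ?_
    have h := hpt i j
    have h2 : t i * t j * (κ ^ 2 * (1 + 2 * κ) * (z i j * z i j).re +
      κ * (z i j * z i j * (z i j * conj (z i j))).re +
      (z i j * (z i j * conj (z i j) * (z i j * conj (z i j)))).re) = t i * t j *
      (κ * (4 * κ ^ 3 + 6 * κ ^ 2 + κ) * (z i j).re - κ * (2 * κ ^ 3 + 2 * κ ^ 2) +
      (if i = j then (1 + κ) * (1 - 2 * κ ^ 3) else 0)) := by rw [h]
    split_ifs at h2 ⊢ with hij <;> linarith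
  rw [h10] at hsum
  have hT : 0 ≤ ∑ i, t i ^ 2 := sum_nonneg fun i _ => sq_nonneg _
  have hlhs : 0 ≤ κ ^ 2 * (1 + 2 * κ) * (∑ i, ∑ j, t i * t j * (z i j * z i j).re) +
      κ * (∑ i, ∑ j, t i * t j * (z i j * z i j * (z i j * conj (z i j))).re) +
      (∑ i, ∑ j, t i * t j * (z i j * (z i j * conj (z i j) * (z i j * conj (z i j)))).re) := by
    have a1 := mul_nonneg (by positivity : 0 ≤ κ ^ 2 * (1 + 2 * κ)) h20
    have a2 := mul_nonneg hκ0.le h31
    linarith
  have hneg : 0 ≤ κ * (2 * κ ^ 3 + 2 * κ ^ 2) * (∑ i, t i) ^ 2 := by positivity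
  have hT0 : ∑ i, t i ^ 2 = 0 := by
    by_contra hne
    have hpos : 0 < ∑ i, t i ^ 2 := lt_of_le_of_ne hT (Ne.symm hne)
    have h3 : 0 < (1 + κ) * (2 * κ ^ 3 - 1) * ∑ i, t i ^ 2 := by
      apply mul_pos (mul_pos (by linarith) (by linarith)) hpos
    nlinarith
  intro i
  have h4 := (sum_eq_zero_iff_of_nonneg (fun i _ => sq_nonneg (t i))).mp hT0 i (mem_univ i)
  exact pow_eq_zero_iff (two_ne_zero) |>.mp h4

end Pool.Agent.EI28X
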