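import Pool.Agent.EI28X.Gram
import Pool.Agent.H32Iso.Basic

set_option autoImplicit false

/-! Bounds for real and complex lines. -/

namespace Pool.Agent.EI28X

open Module Finset ComplexConjugate Pool.Agent.H32Iso

variable {V : Type*} [NormedAddCommGroup V] [InnerProductSpace ℝ V] [FiniteDimensional ℝ V]
  {p : ℕ} {lam : ℝ} {P : Fin p → V →ₗ[ℝ] V}

omit [FiniteDimensional ℝ V] in
theorem exists_unit (i : Fin p) (hi : 0 < finrank ℝ (LinearMap.range (P i))) :
    ∃ u ∈ LinearMap.range (P i), inner ℝ u u = (1 : ℝ) := by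
  have : Nontrivial (LinearMap.range (P i)) := Module.nontrivial_of_finrank_pos hi
  obtain ⟨⟨x, hx⟩, hne⟩ := exists_ne (0 : LinearMap.range (P i))
  have hx0 : x ≠ 0 := fun h => hne (Subtype.ext h)
  have hn : ‖x‖ ≠ 0 := norm_ne_zero_iff.mpr hx0
  refine ⟨(‖x‖)⁻¹ • x, Submodule.smul_mem _ _ hx, ?_⟩
  rw [inner_smul_left, inner_smul_right, real_inner_self_eq_norm_sq]
  simp
  field_simp

/-- The final count. -/
theorem count {ι : Type*} [Fintype ι] (y : ι → V) (S : Submodule ℝ V)
    (hy : ∀ i, y i ∈ Sᗮ) (hli : LinearIndependent ℝ y) :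
    Fintype.card ι + finrank ℝ S ≤ finrank ℝ V := by
  have h1 : LinearIndependent ℝ (fun i => (⟨y i, hy i⟩ : Sᗮ)) := by
    apply LinearIndependent.of_comp (Sᗮ).subtype
    exact hli
  have h2 := h1.fintype_card_le_finrank
  have h3 := Submodule.finrank_add_finrank_orthogonal (𝕜 := ℝ) S
  omega

theorem circle {lam X Y c κ : ℝ} (h0 : 0 < lam) (h1 : lam < 1) (hc : c ^ 2 * (lam * (1 - lam)) = 1)
    (hκ : κ * (1 - lam) = lam) (hXY : X ^ 2 + Y ^ 2 = lam ^ 3) :
    (c ^ 2 * (X - lam ^ 2)) ^ 2 + (c ^ 2 * Y) ^ 2 + 2 * κ * (c ^ 2 * (X - lam ^ 2)) = κ := by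
  have hl : lam * (1 - lam) ≠ 0 := mul_ne_zero h0.ne' (by linarith)
  have hc2 : c ^ 2 = 1 / (lam * (1 - lam)) := by rw [eq_div_iff hl]; exact hc
  have hl' : 1 - lam ≠ 0 := by linarith
  have hκ2 : κ = lam / (1 - lam) := by rw [eq_div_iff hl']; exact hκ
  have hY : Y ^ 2 = lam ^ 3 - X ^ 2 := by linarith
  rw [hc2, hκ2, mul_pow _ Y, hY]
  field_simp
  ring

omit [FiniteDimensional ℝ V] in
theorem facts (h : Cfg lam P) {i0 : Fin p} {u : V} (hPu : P i0 u = u) (huu : inner ℝ u u = (1 : ℝ)) :
    (∀ j, j ≠ i0 → inner ℝ (P j u) u = lam) ∧ (∀ j, j ≠ i0 → inner ℝ (P j u) (P j u) = lam) ∧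
    (∀ j l, j ≠ i0 → j ≠ l → inner ℝ (P l (P j u)) (P l (P j u)) = lam ^ 2) := by
  have hiso : ∀ j, j ≠ i0 → P i0 (P j u) = lam • u := by
    intro j hj
    have := h.iso i0 j (Ne.symm hj) u
    rwa [hPu] at this
  have hvu : ∀ j, j ≠ i0 → inner ℝ (P j u) u = lam := by
    intro j hj
    have e : inner ℝ (P j u) u = inner ℝ (P i0 (P j u)) u := by
      rw [h.sym i0, hPu]
    rw [e, hiso j hj, inner_smul_left, huu]
    simp
  refine ⟨hvu, fun j hj => ?_, fun j l hj hjl => ?_⟩
  · rw [← h.sym, h.idem, hvu j hj]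
  · rw [h.sym l (P j u), h.idem, h.sym j u, h.iso j l hjl, inner_smul_right, real_inner_comm,
      hvu j hj, sq]

/-- `p` real lines, `κ³ > 1/2`: at most the dimension. -/
theorem lines_real' (h : Cfg lam P) (hN : ∀ i, finrank ℝ (LinearMap.range (P i)) = 1)
    (h0 : 0 < lam) (h1 : lam < 1) (hκ : 1 < 2 * (lam / (1 - lam)) ^ 3) (hp : 1 ≤ p) :
    p ≤ finrank ℝ V := by
  set i0 : Fin p := ⟨0, hp⟩ with hi0
  obtain ⟨u, hu, huu⟩ := exists_unit (P := P) i0 (by rw [hN]; norm_num)
  have hPu : P i0 u = u := by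
    obtain ⟨w, rfl⟩ := hu
    exact h.idem i0 w
  obtain ⟨hvu, hvv, hPP⟩ := facts h hPu huu
  have huv : ∀ j, j ≠ i0 → inner ℝ u (P j u) = lam := fun j hj => by
    rw [real_inner_comm]; exact hvu j hj
  have hX : ∀ j l, j ≠ i0 → l ≠ i0 → j ≠ l → (inner ℝ (P j u) (P l u) : ℝ) ^ 2 = lam ^ 3 := by
    intro j l hj hl hjl
    have hspan : Submodule.span ℝ {P l u} = LinearMap.range (P l) := by
      apply Submodule.eq_of_le_of_finrank_eq
      · rw [Submodule.span_singleton_le_iff_mem]
        exact ⟨u, rfl⟩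
      · rw [hN, finrank_span_singleton]
        intro hz
        have := hvv l hl
        rw [hz, inner_zero_left] at this
        linarith
    have hmem : P l (P j u) ∈ Submodule.span ℝ {P l u} := by
      rw [hspan]; exact ⟨_, rfl⟩
    obtain ⟨a, ha⟩ := Submodule.mem_span_singleton.mp hmem
    have e1 : inner ℝ (P j u) (P l u) = a * lam := by
      have e3 : inner ℝ (P l (P j u)) (P l u) = inner ℝ (P j u) (P l u) := by
        rw [h.sym l (P j u) (P l u), h.idem]
      rw [← e3, ← ha, inner_smul_left, hvv l hl]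
      simp
    have e2 := hPP j l hj hjl
    rw [← ha, inner_smul_left, inner_smul_right, hvv l hl] at e2
    simp only [conj_trivial] at e2
    rw [e1]
    linear_combination lam * e2
  have hl : 0 < lam * (1 - lam) := mul_pos h0 (by linarith)
  obtain ⟨c, hc⟩ : ∃ c : ℝ, c ^ 2 * (lam * (1 - lam)) = 1 :=
    ⟨(√(lam * (1 - lam)))⁻¹, by rw [inv_pow, Real.sq_sqrt hl.le]; exact inv_mul_cancel₀ hl.ne'⟩
  set κ := lam / (1 - lam) with hκdef
  have hκ0 : 0 < κ := div_pos h0 (by linarith)
  have hκ1 : κ * (1 - lam) = lam := div_mul_cancel₀ _ (by linarith)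
  let y : {j : Fin p // j ≠ i0} → V := fun j => c • (P j.1 u - lam • u)
  have hyy : ∀ j l, inner ℝ (y j) (y l) = c ^ 2 * (inner ℝ (P j.1 u) (P l.1 u) - lam ^ 2) := by
    intro j l
    simp only [y, inner_smul_left, inner_smul_right, inner_sub_left, inner_sub_right, huu,
      hvu j.1 j.2, huv l.1 l.2, conj_trivial]
    ring
  have hli : LinearIndependent ℝ y := by
    refine indep y (fun j l => ((inner ℝ (y j) (y l) : ℝ) : ℂ)) κ hκ0 hκ ?_ ?_ ?_ ?_
    · refine ⟨Fin (finrank ℝ V), inferInstance,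
        fun j m => ((inner ℝ (y j) (stdOrthonormalBasis ℝ V m) : ℝ) : ℂ),
        fun j l => ?_⟩
      beta_reduce
      rw [← (stdOrthonormalBasis ℝ V).sum_inner_mul_inner]
      push_cast
      refine sum_congr rfl fun m _ => ?_
      rw [Complex.conj_ofReal, real_inner_comm (y l)]
    · intro j l; simp
    · intro j
      rw [hyy, hvv j.1 j.2]
      have : c ^ 2 * (lam - lam ^ 2) = 1 := by linarith [hc]
      rw [this]; simp
    · intro j l hjl
      simp only [Complex.ofReal_re, Complex.ofReal_im]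
      rw [hyy]
      have h3 := circle (Y := 0) h0 h1 hc hκ1
        (by rw [hX j.1 l.1 j.2 l.2 (fun h => hjl (Subtype.ext h))]; ring)
      linarith
  have h3 := count y (Submodule.span ℝ {u}) (fun j => by
    rw [Submodule.mem_orthogonal_singleton_iff_inner_right]
    simp only [y, inner_smul_right, inner_sub_right, huu, huv j.1 j.2]
    ring) hli
  rw [finrank_span_singleton (by rintro rfl; simp at huu), Fintype.card_subtype_compl,
    Fintype.card_fin, Fintype.card_subtype_eq] at h3
  omega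

/-- `p` complex lines, `κ³ > 1/2`: less than the real dimension. -/
theorem lines_complex' (h : Cfg lam P) (hN : ∀ i, finrank ℝ (LinearMap.range (P i)) = 2)
    (J : V →ₗ[ℝ] V) (hJ : ∀ x y, inner ℝ (J x) (J y) = (inner ℝ x y : ℝ)) (hJ2 : ∀ x, J (J x) = -x)
    (hcomm : ∀ i x, P i (J x) = J (P i x))
    (h0 : 0 < lam) (h1 : lam < 1) (hκ : 1 < 2 * (lam / (1 - lam)) ^ 3) (hp : 1 ≤ p) :
    p + 1 ≤ finrank ℝ V := by
  have hskew : ∀ x y, inner ℝ (J x) y = - (inner ℝ x (J y) : ℝ) := by
    intro x y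
    rw [← hJ x (J y), hJ2, inner_neg_right, neg_neg]
  have hJ0 : ∀ x, inner ℝ (J x) x = (0 : ℝ) := by
    intro x
    have := hskew x x
    rw [real_inner_comm (J x) x] at this
    linarith
  set i0 : Fin p := ⟨0, hp⟩ with hi0
  obtain ⟨u, hu, huu⟩ := exists_unit (P := P) i0 (by rw [hN]; norm_num)
  have hPu : P i0 u = u := by
    obtain ⟨w, rfl⟩ := hu
    exact h.idem i0 w
  obtain ⟨hvu, hvv, hPP⟩ := facts h hPu huu
  have huv : ∀ j, j ≠ i0 → inner ℝ u (P j u) = lam := fun j hj => by
    rw [real_inner_comm]; exact hvu j hj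
  have hJuv : ∀ j, inner ℝ (J u) (P j u) = (0 : ℝ) := by
    intro j
    have e : (inner ℝ (J u) (P j u) : ℝ) = - inner ℝ (J u) (P j u) := by
      calc (inner ℝ (J u) (P j u) : ℝ) = inner ℝ (P j (J u)) u := (h.sym j _ _).symm
        _ = - inner ℝ (P j u) (J u) := by rw [hcomm, hskew]
        _ = - inner ℝ (J u) (P j u) := by rw [real_inner_comm]
    linarith
  have hJvu : ∀ j, inner ℝ (J (P j u)) u = (0 : ℝ) := by
    intro j
    rw [hskew, real_inner_comm, hJuv, neg_zero]
  have hX : ∀ j l, j ≠ i0 → l ≠ i0 → j ≠ l → (inner ℝ (P j u) (P l u) : ℝ) ^ 2 +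
      (inner ℝ (J (P j u)) (P l u) : ℝ) ^ 2 = lam ^ 3 := by
    intro j l hj hl hjl
    have hvl := hvv l hl
    have hJvl : inner ℝ (J (P l u)) (J (P l u)) = lam := by rw [hJ, hvl]
    have hJl0 := hJ0 (P l u)
    have hJl0' : inner ℝ (P l u) (J (P l u)) = (0 : ℝ) := by rw [real_inner_comm]; exact hJl0
    have hli : LinearIndependent ℝ ![P l u, J (P l u)] := by
      rw [LinearIndependent.pair_iff]
      intro s t hst
      have e1 := congrArg (fun x => (inner ℝ (P l u) x : ℝ)) hst
      have e2 := congrArg (fun x => (inner ℝ (J (P l u)) x : ℝ)) hst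
      simp only [inner_add_right, inner_smul_right, inner_zero_right, hvl, hJl0, hJl0', hJvl] at e1 e2
      constructor
      · rcases mul_eq_zero.mp (by linarith : s * lam = 0) with h | h
        · exact h
        · linarith
      · rcases mul_eq_zero.mp (by linarith : t * lam = 0) with h | h
        · exact h
        · linarith
    have hspan : Submodule.span ℝ {P l u, J (P l u)} = LinearMap.range (P l) := by
      apply Submodule.eq_of_le_of_finrank_eq
      · rw [Submodule.span_le]
        rintro x (rfl | rfl)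
        · exact ⟨u, rfl⟩
        · exact ⟨J u, hcomm l u⟩
      · have e := finrank_span_eq_card hli
        rw [Matrix.range_cons, Matrix.range_cons, Matrix.range_empty, Set.union_empty,
          Set.singleton_union, Fintype.card_fin] at e
        rw [hN, e]
    have hmem : P l (P j u) ∈ Submodule.span ℝ {P l u, J (P l u)} := by
      rw [hspan]; exact ⟨_, rfl⟩
    obtain ⟨a, b, hab⟩ := Submodule.mem_span_pair.mp hmem
    have e1 : inner ℝ (P j u) (P l u) = a * lam := by
      have e3 : inner ℝ (P l (P j u)) (P l u) = inner ℝ (P j u) (P l u) := by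
        rw [h.sym l (P j u) (P l u), h.idem]
      rw [← e3, ← hab]
      simp only [inner_add_left, inner_smul_left, hvl, hJl0, conj_trivial]
      ring
    have e2 : inner ℝ (J (P j u)) (P l u) = - (b * lam) := by
      have e3 : inner ℝ (J (P l (P j u))) (P l u) = inner ℝ (J (P j u)) (P l u) := by
        rw [← hcomm, h.sym l (J (P j u)) (P l u), h.idem]
      rw [← e3, ← hab]
      simp only [map_add, map_smul, hJ2, inner_add_left, inner_smul_left, inner_neg_left, hvl, hJl0,
        conj_trivial]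
      ring
    have e4 := hPP j l hj hjl
    rw [← hab] at e4
    simp only [inner_add_left, inner_add_right, inner_smul_left, inner_smul_right, hvl, hJl0,
      hJl0', hJvl, conj_trivial] at e4
    rw [e1, e2]
    linear_combination lam * e4
  have hl : 0 < lam * (1 - lam) := mul_pos h0 (by linarith)
  obtain ⟨c, hc⟩ : ∃ c : ℝ, c ^ 2 * (lam * (1 - lam)) = 1 :=
    ⟨(√(lam * (1 - lam)))⁻¹, by rw [inv_pow, Real.sq_sqrt hl.le]; exact inv_mul_cancel₀ hl.ne'⟩
  set κ := lam / (1 - lam) with hκdef
  have hκ0 : 0 < κ := div_pos h0 (by linarith)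
  have hκ1 : κ * (1 - lam) = lam := div_mul_cancel₀ _ (by linarith)
  let y : {j : Fin p // j ≠ i0} → V := fun j => c • (P j.1 u - lam • u)
  have hyy : ∀ j l, inner ℝ (y j) (y l) = c ^ 2 * (inner ℝ (P j.1 u) (P l.1 u) - lam ^ 2) := by
    intro j l
    simp only [y, inner_smul_left, inner_smul_right, inner_sub_left, inner_sub_right, huu,
      hvu j.1 j.2, huv l.1 l.2, conj_trivial]
    ring
  have hJyy : ∀ j l, inner ℝ (J (y j)) (y l) = c ^ 2 * (inner ℝ (J (P j.1 u)) (P l.1 u)) := by
    intro j l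
    simp only [y, map_smul, map_sub, inner_smul_left, inner_smul_right, inner_sub_left,
      inner_sub_right, hJ0, hJuv, hJvu, conj_trivial]
    ring
  have hli : LinearIndependent ℝ y := by
    refine indep y (fun j l => ⟨inner ℝ (y j) (y l), - inner ℝ (J (y j)) (y l)⟩) κ hκ0 hκ
      ?_ ?_ ?_ ?_
    · set s : ℝ := (√2)⁻¹ with hs
      have hss : s * s = 1 / 2 := by
        rw [hs, ← mul_inv, Real.mul_self_sqrt (by norm_num)]; norm_num
      set b := stdOrthonormalBasis ℝ V with hb
      refine ⟨Fin (finrank ℝ V), inferInstance,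
        fun j m => (⟨s * inner ℝ (y j) (b m), s * inner ℝ (J (y j)) (b m)⟩ : ℂ),
        fun j l => ?_⟩
      apply Complex.ext
      · rw [Complex.re_sum]
        have e : ∀ m, (conj (⟨s * inner ℝ (y j) (b m), s * inner ℝ (J (y j)) (b m)⟩ : ℂ) *
            (⟨s * inner ℝ (y l) (b m), s * inner ℝ (J (y l)) (b m)⟩ : ℂ)).re =
            s * s * (inner ℝ (y j) (b m) * inner ℝ (b m) (y l)) +
            s * s * (inner ℝ (J (y j)) (b m) * inner ℝ (b m) (J (y l))) := by
          intro m
          rw [Complex.mul_re]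
          simp only [Complex.conj_re, Complex.conj_im]
          rw [real_inner_comm (y l), real_inner_comm (J (y l))]
          ring
        rw [sum_congr rfl (fun m _ => e m), sum_add_distrib, ← mul_sum, ← mul_sum,
          b.sum_inner_mul_inner, b.sum_inner_mul_inner, hJ, hss]
        ring
      · show - inner ℝ (J (y j)) (y l) = _
        rw [Complex.im_sum]
        have e : ∀ m, (conj (⟨s * inner ℝ (y j) (b m), s * inner ℝ (J (y j)) (b m)⟩ : ℂ) *
            (⟨s * inner ℝ (y l) (b m), s * inner ℝ (J (y l)) (b m)⟩ : ℂ)).im =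
            s * s * (inner ℝ (y j) (b m) * inner ℝ (b m) (J (y l))) -
            s * s * (inner ℝ (J (y j)) (b m) * inner ℝ (b m) (y l)) := by
          intro m
          rw [Complex.mul_im]
          simp only [Complex.conj_re, Complex.conj_im]
          rw [real_inner_comm (y l), real_inner_comm (J (y l))]
          ring
        rw [sum_congr rfl (fun m _ => e m), sum_sub_distrib, ← mul_sum, ← mul_sum,
          b.sum_inner_mul_inner, b.sum_inner_mul_inner, hss, hskew (y j) (y l)]
        ring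
    · intro j l; rfl
    · intro j
      apply Complex.ext
      · show inner ℝ (y j) (y j) = (1 : ℂ).re
        rw [hyy, hvv j.1 j.2, Complex.one_re]
        linarith [hc]
      · show - inner ℝ (J (y j)) (y j) = (1 : ℂ).im
        rw [hJ0, Complex.one_im, neg_zero]
    · intro j l hjl
      have h3 := circle h0 h1 hc hκ1 (hX j.1 l.1 j.2 l.2 (fun h => hjl (Subtype.ext h)))
      show (inner ℝ (y j) (y l) : ℝ) ^ 2 + (- inner ℝ (J (y j)) (y l) : ℝ) ^ 2 +
        2 * κ * inner ℝ (y j) (y l) = κ
      rw [hyy, hJyy]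
      linarith
  have hli2 : LinearIndependent ℝ ![u, J u] := by
    rw [LinearIndependent.pair_iff]
    intro s t hst
    have e1 := congrArg (fun x => (inner ℝ u x : ℝ)) hst
    have e2 := congrArg (fun x => (inner ℝ (J u) x : ℝ)) hst
    have hJu0 : inner ℝ u (J u) = (0 : ℝ) := by rw [real_inner_comm]; exact hJ0 u
    simp only [inner_add_right, inner_smul_right, inner_zero_right, huu, hJ0, hJu0, hJ] at e1 e2
    constructor <;> linarith
  have hfr : finrank ℝ (Submodule.span ℝ {u, J u}) = 2 := by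
    have e := finrank_span_eq_card hli2
    rw [Matrix.range_cons, Matrix.range_cons, Matrix.range_empty, Set.union_empty,
      Set.singleton_union, Fintype.card_fin] at e
    exact e
  have h3 := count y (Submodule.span ℝ {u, J u}) (fun j => by
    rw [Submodule.mem_orthogonal]
    intro x hx
    obtain ⟨a, b, rfl⟩ := Submodule.mem_span_pair.mp hx
    simp only [y, inner_add_left, inner_smul_left, inner_smul_right, inner_sub_right, huu,
      huv j.1 j.2, hJuv, hJ0, conj_trivial]
    ring) hli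
  rw [hfr, Fintype.card_subtype_compl, Fintype.card_fin, Fintype.card_subtype_eq] at h3
  omega

end Pool.Agent.EI28X
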