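import Pool.Agent.EI28X.RPlanes
import Pool.Agent.EI28X.Final

set_option autoImplicit false

/-! Real subspaces of dimension `2` modulo a power of two. -/

namespace Pool.Agent.EI28X

open Module Pool.Agent.H32Iso Pool.Agent.EI28U

section

variable {W : Type*} [NormedAddCommGroup W] [InnerProductSpace ℝ W] [FiniteDimensional ℝ W]
  {p : ℕ} {lam : ℝ} {P : Fin p → W →ₗ[ℝ] W}

theorem rst_span (h : Cfg lam P) (hspan : ⨆ i, LinearMap.range (P i) = ⊤) (E : Submodule ℝ W)
    (hinv : ∀ i, ∀ x ∈ E, P i x ∈ E) : ⨆ i, LinearMap.range (rst P E hinv i) = ⊤ := by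
  rw [← Submodule.orthogonal_eq_bot_iff, Submodule.eq_bot_iff]
  intro y hy
  rw [Submodule.mem_orthogonal] at hy
  have h1 : ∀ i, P i y = 0 := by
    intro i
    have h2 := hy (rst P E hinv i (rst P E hinv i y))
      (Submodule.mem_iSup_of_mem i (LinearMap.mem_range_self _ _))
    rw [Submodule.coe_inner, rst_apply, rst_apply, h.sym] at h2
    exact inner_self_eq_zero.mp h2
  have h3 : (y : W) ∈ (⨆ i, LinearMap.range (P i))ᗮ := by
    rw [Submodule.mem_orthogonal]
    intro u hu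
    induction hu using Submodule.iSup_induction' with
    | mem i x hx =>
      obtain ⟨z, rfl⟩ := hx
      rw [h.sym, h1, inner_zero_right]
    | zero => exact inner_zero_left _
    | add x z _ _ hx hz => rw [inner_add_left, hx, hz, add_zero]
  rw [hspan, Submodule.top_orthogonal_eq_bot, Submodule.mem_bot] at h3
  exact Subtype.ext h3

end

theorem even_finrank {V : Type*} [AddCommGroup V] [Module ℝ V] (J : V →ₗ[ℝ] V)
    (hJ : ∀ x, J (J x) = -x) : Even (finrank ℝ V) := by
  have h1 : J ∘ₗ J = (-1 : ℝ) • LinearMap.id := by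
    ext x
    simp [hJ]
  have h2 : LinearMap.det J * LinearMap.det J = (-1) ^ finrank ℝ V := by
    rw [← LinearMap.det_comp, h1, LinearMap.det_smul, LinearMap.det_id, mul_one]
  by_contra hcon
  rw [Nat.not_even_iff_odd] at hcon
  rw [hcon.neg_one_pow] at h2
  nlinarith [mul_self_nonneg (LinearMap.det J)]

/-- The real case, `n = 2` modulo `2 ^ e`: the excess is even and the bound is that for complex
lines. -/
theorem upper_planes {n k p e : ℕ} (hk : 1 ≤ k) (he : LX k < 2 ^ e) (hn : n % 2 ^ e = 2)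
    (hn1 : 2 < n) (hp : p ∈ sizes ℝ n (2 * n + k)) (hpe : 2 * e + 3 ≤ p) :
    Even k ∧ p ≤ k + 3 := by
  obtain ⟨lam, V, h⟩ := hp
  have h5 := five_le hk he
  obtain ⟨hinv, -, -, hN', hE, hlam⟩ := core_mod h.cfg h.lt_one (N := n) (m := k) (e := e) hk
    (by intro i; rw [h.finrank_range, Module.finrank_self, one_mul])
    (by rw [finrank_Sp, Module.finrank_self, one_mul]) h.iSup_range he hpe
  rw [hn] at hN' hE hlam
  obtain ⟨h0, hκ⟩ := kappa (by omega) h.lt_one (hlam hn1)
  have hC := cfg_rst h.cfg _ hinv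
  have hl4 : 1 / 4 < lam := by
    by_contra hcon
    push Not at hcon
    have hpos : 0 < 1 - lam := by linarith
    have h6 : lam / (1 - lam) ≤ 1 / 3 := by
      rw [div_le_iff₀ hpos]
      linarith
    have h7 : (lam / (1 - lam)) ^ 3 ≤ (1 / 3) ^ 3 :=
      pow_le_pow_left₀ (by positivity) h6 3
    norm_num at h7
    linarith
  obtain ⟨J, hJ1, hJ2, hJ3⟩ := exists_J hC hN' hl4 h.lt_one (by omega)
    (rst_span h.cfg h.iSup_range _ hinv)
  have h8 := lines_complex' hC hN' J hJ1 hJ2 hJ3 h0 h.lt_one hκ (by omega)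
  have h9 := even_finrank J hJ2
  rw [hE] at h9
  exact ⟨(Nat.even_add.mp h9).mp (by decide), by omega⟩

theorem planes_exact {k n : ℕ} (hk : 24 ≤ k) (hk2 : Even k) (hn : n % 2 ^ (k / 2 + 5) = 2)
    (hn2 : 2 < n) : IsGreatest (sizes ℝ n (2 * n + k)) (k + 3) := by
  obtain ⟨s, rfl⟩ := hk2
  rw [← two_mul] at *
  rw [show 2 * s / 2 + 5 = s + 4 + 1 by omega] at hn
  have hn' : n / 2 % 2 ^ (s + 4) = 1 := by
    have h2 : 1 < 2 ^ (s + 4) := Nat.one_lt_pow (by omega) (by norm_num)
    have h3 := Nat.div_add_mod n (2 ^ (s + 4 + 1))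
    rw [hn, pow_succ'] at h3
    set q := n / (2 * 2 ^ (s + 4)) with hq
    have h4 : n = 2 * (2 ^ (s + 4) * q + 1) := by
      rw [← h3, pow_succ']
      ring
    rw [h4, Nat.mul_div_cancel_left _ (by norm_num), Nat.mul_add_mod_self_left,
      Nat.mod_eq_of_lt h2]
  have he : 2 * (n / 2) = n := by
    have h2 : 2 ∣ 2 ^ (s + 4 + 1) := dvd_pow_self _ (by omega)
    have h3 := Nat.mod_mod_of_dvd n h2
    rw [hn] at h3
    omega
  refine ⟨?_, fun p hp => ?_⟩
  · have h1 := H94EI.realify _ _ (complex_lower (k := s) hn')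
    rwa [he, mul_add] at h1
  · by_contra hcon
    push Not at hcon
    have hmod : n % 2 ^ (2 * s / 2) = 2 := by
      have h1 : 2 ^ (2 * s / 2) ∣ 2 ^ (s + 4 + 1) := pow_dvd_pow 2 (by omega)
      rw [← Nat.mod_mod_of_dvd n h1, hn]
      apply Nat.mod_eq_of_lt
      calc 2 < 2 ^ 2 := by norm_num
        _ ≤ 2 ^ (2 * s / 2) := Nat.pow_le_pow_right (by norm_num) (by omega)
    have := (upper_planes (by omega) (LX_lt (2 * s) hk) hmod hn2 hp (by omega)).2
    omega

end Pool.Agent.EI28X
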