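import Pool.Agent.H32Iso.Basic

set_option autoImplicit false

/-! Real planes with `1/4 < lam`: a common complex structure. -/

namespace Pool.Agent.EI28X

open Module Finset Pool.Agent.H32Iso

/-- A real `2 × 2` matrix that is `s` times an orthogonal matrix and does not have the eigenvalue
`-s` is `s` times a rotation. -/
theorem rot_of_form {a b c d s κ : ℝ} (h1 : a ^ 2 + b ^ 2 = s ^ 2) (h2 : c ^ 2 + d ^ 2 = s ^ 2)
    (h3 : a * c + b * d = 0) (hs : 0 < s) (hκ : κ < 2 * s)
    (hQ : ∀ x y : ℝ, 0 ≤ 2 * (a * x ^ 2 + (b + c) * (x * y) + d * y ^ 2) + κ * (x ^ 2 + y ^ 2)) :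
    c = -b ∧ d = a := by
  have hs2 : (s ^ 2) ≠ 0 := by positivity
  have e1 : (a * d - b * c) * a = s ^ 2 * d := by linear_combination d * h1 - b * h3
  have e2 : (a * d - b * c) * b = -(s ^ 2 * c) := by linear_combination (-c) * h1 + a * h3
  have e3 : (a * d - b * c - s ^ 2) * (a * d - b * c + s ^ 2) = 0 := by
    linear_combination (c ^ 2 + d ^ 2) * h1 + s ^ 2 * h2 - (a * c + b * d) * h3
  rcases mul_eq_zero.mp e3 with h4 | h4
  · have h5 : a * d - b * c = s ^ 2 := by linarith
    rw [h5] at e1 e2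
    refine ⟨?_, ?_⟩
    · apply mul_left_cancel₀ hs2
      linarith
    · exact (mul_left_cancel₀ hs2 e1).symm
  · exfalso
    have h5 : a * d - b * c = -s ^ 2 := by linarith
    rw [h5] at e1 e2
    have hd : d = -a := by
      apply mul_left_cancel₀ hs2
      linarith
    have hc : c = b := by
      apply mul_left_cancel₀ hs2
      linarith
    subst hd
    subst hc
    have q1 := hQ (a - s) c
    have q2 := hQ c (-(a + s))
    have i1 : 2 * (a * (a - s) ^ 2 + (c + c) * ((a - s) * c) + -a * c ^ 2) +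
        κ * ((a - s) ^ 2 + c ^ 2) + (2 * (a * c ^ 2 + (c + c) * (c * -(a + s)) + -a * (-(a + s)) ^ 2) +
        κ * (c ^ 2 + (-(a + s)) ^ 2)) = (κ - 2 * s) * (4 * s ^ 2) := by
      have hc2 : c ^ 2 = s ^ 2 - a ^ 2 := by linarith
      have : ∀ z : ℝ, (c + c) * (z * c) = 2 * z * c ^ 2 := fun z => by ring
      rw [this, show (c + c) * (c * -(a + s)) = -(2 * (a + s)) * c ^ 2 by ring, hc2]
      ring
    have i2 : (κ - 2 * s) * (4 * s ^ 2) < 0 := by
      apply mul_neg_of_neg_of_pos (by linarith) (by positivity)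
    linarith

variable {V : Type*} [NormedAddCommGroup V] [InnerProductSpace ℝ V]
  {p : ℕ} {lam : ℝ} {P : Fin p → V →ₗ[ℝ] V}

theorem inner_c (h : Cfg lam P) {i0 : Fin p} (l : Fin p) {x y : V}
    (hx : P i0 x = x) (hy : P i0 y = y) :
    inner ℝ x (P l y) = (if l = i0 then 1 else lam) * inner ℝ x y := by
  by_cases hl : l = i0
  · subst hl
    simp [hy]
  · have e1 : P i0 (P l y) = lam • y := by
      have := h.iso i0 l (Ne.symm hl) y
      rwa [hy] at this
    rw [if_neg hl]
    calc inner ℝ x (P l y) = inner ℝ (P i0 x) (P l y) := by rw [hx]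
      _ = inner ℝ x (P i0 (P l y)) := h.sym _ _ _
      _ = lam * inner ℝ x y := by rw [e1, inner_smul_right]

theorem gram_rel (h : Cfg lam P) (hl : 1 / 4 < lam) {i0 : Fin p} {u u' : V}
    (hu : P i0 u = u) (hu' : P i0 u' = u') (huu : inner ℝ u u = (1 : ℝ))
    (huu' : inner ℝ u' u' = (1 : ℝ)) (hort : inner ℝ u u' = (0 : ℝ))
    (hsp : ∀ x, P i0 x = (inner ℝ u x : ℝ) • u + (inner ℝ u' x : ℝ) • u')
    (j l : Fin p) :
    (inner ℝ (P j u') (P l u') = (inner ℝ (P j u) (P l u) : ℝ)) ∧
      (inner ℝ (P j u) (P l u') = (-inner ℝ (P j u') (P l u) : ℝ)) := by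
  have hort' : inner ℝ u' u = (0 : ℝ) := by rw [real_inner_comm]; exact hort
  by_cases hj : j = i0
  · subst hj
    rw [hu, hu', inner_c h l hu' hu', inner_c h l hu hu, inner_c h l hu hu', inner_c h l hu' hu,
      huu, huu', hort, hort']
    simp
  by_cases hl0 : l = i0
  · subst hl0
    rw [hu, hu', real_inner_comm, real_inner_comm u (P j u), real_inner_comm u' (P j u),
      real_inner_comm u (P j u'), inner_c h j hu' hu', inner_c h j hu hu, inner_c h j hu hu',
      inner_c h j hu' hu, huu, huu', hort, hort']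
    simp
  by_cases hjl : j = l
  · subst hjl
    have e : ∀ x y, inner ℝ (P j x) (P j y) = (inner ℝ x (P j y) : ℝ) := by
      intro x y
      rw [h.sym, h.idem]
    rw [e, e, e, e, inner_c h j hu' hu', inner_c h j hu hu, inner_c h j hu hu',
      inner_c h j hu' hu, huu, huu', hort, hort']
    simp
  -- three different indices
  have hlam : 0 < lam := by linarith
  set r := Real.sqrt lam with hr
  have hr2 : r ^ 2 = lam := Real.sq_sqrt hlam.le
  have hr0 : 0 < r := Real.sqrt_pos.mpr hlam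
  have hr1 : 1 / 2 < r := by
    by_contra hcon
    push Not at hcon
    have : r ^ 2 ≤ (1 / 2) ^ 2 := by
      apply pow_le_pow_left₀ hr0.le hcon
    rw [hr2] at this
    norm_num at this
    linarith
  -- the operator `W`
  have hW : ∀ x y, P i0 x = x → P i0 y = y →
      inner ℝ (P i0 (P j (P l x))) (P i0 (P j (P l y))) = lam ^ 3 * (inner ℝ x y : ℝ) := by
    intro x y hx hy
    rw [h.sym i0, h.idem, h.sym j, h.iso j i0 hj, inner_smul_right, h.sym l,
      h.iso l j (Ne.symm hjl), inner_smul_right, inner_c h l hx hy, if_neg hl0]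
    ring
  set a : ℝ := inner ℝ (P j u) (P l u) with ha
  set b : ℝ := inner ℝ (P j u') (P l u) with hb
  set c : ℝ := inner ℝ (P j u) (P l u') with hc
  set d : ℝ := inner ℝ (P j u') (P l u') with hd
  have w1 : P i0 (P j (P l u)) = a • u + b • u' := by
    rw [hsp, ← h.sym j, ← h.sym j]
  have w2 : P i0 (P j (P l u')) = c • u + d • u' := by
    rw [hsp, ← h.sym j, ← h.sym j]
  have g1 : a ^ 2 + b ^ 2 = (lam * r) ^ 2 := by
    have := hW u u hu hu
    rw [w1] at this
    simp only [inner_add_left, inner_add_right, inner_smul_left, inner_smul_right, huu, huu',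
      hort, hort', RCLike.conj_to_real] at this
    rw [mul_pow, hr2]
    linarith
  have g2 : c ^ 2 + d ^ 2 = (lam * r) ^ 2 := by
    have := hW u' u' hu' hu'
    rw [w2] at this
    simp only [inner_add_left, inner_add_right, inner_smul_left, inner_smul_right, huu, huu',
      hort, hort', RCLike.conj_to_real] at this
    rw [mul_pow, hr2]
    linarith
  have g3 : a * c + b * d = 0 := by
    have := hW u u' hu hu'
    rw [w1, w2] at this
    simp only [inner_add_left, inner_add_right, inner_smul_left, inner_smul_right, huu, huu',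
      hort, hort', RCLike.conj_to_real] at this
    linarith
  obtain ⟨k1, k2⟩ := rot_of_form (κ := 3 * lam - 4 * (lam * r)) g1 g2 g3 (mul_pos hlam hr0)
    (by nlinarith) (by
      intro x y
      set v := x • u + y • u' with hv
      have hPv : P i0 v = v := by rw [hv, map_add, map_smul, map_smul, hu, hu']
      have hvv : inner ℝ v v = x ^ 2 + y ^ 2 := by
        rw [hv]
        simp only [inner_add_left, inner_add_right, inner_smul_left, inner_smul_right, huu, huu',
          hort, hort', RCLike.conj_to_real]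
        ring
      have m1 : inner ℝ v (P j v) = lam * (x ^ 2 + y ^ 2) := by
        rw [inner_c h j hPv hPv, if_neg hj, hvv]
      have m2 : inner ℝ v (P l v) = lam * (x ^ 2 + y ^ 2) := by
        rw [inner_c h l hPv hPv, if_neg hl0, hvv]
      have m3 : inner ℝ (P j v) v = lam * (x ^ 2 + y ^ 2) := by rw [real_inner_comm]; exact m1
      have m4 : inner ℝ (P l v) v = lam * (x ^ 2 + y ^ 2) := by rw [real_inner_comm]; exact m2
      have m5 : inner ℝ (P j v) (P j v) = lam * (x ^ 2 + y ^ 2) := by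
        rw [h.sym, h.idem]; exact m1
      have m6 : inner ℝ (P l v) (P l v) = lam * (x ^ 2 + y ^ 2) := by
        rw [h.sym, h.idem]; exact m2
      have m7 : inner ℝ (P j v) (P l v) = a * x ^ 2 + (b + c) * (x * y) + d * y ^ 2 := by
        rw [hv]
        simp only [map_add, map_smul, inner_add_left, inner_add_right, inner_smul_left,
          inner_smul_right, RCLike.conj_to_real]
        rw [← ha, ← hb, ← hc, ← hd]
        ring
      have m8 : inner ℝ (P l v) (P j v) = a * x ^ 2 + (b + c) * (x * y) + d * y ^ 2 := by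
        rw [real_inner_comm]; exact m7
      have key : 0 ≤ (inner ℝ (P j v + P l v - r • v) (P j v + P l v - r • v) : ℝ) :=
        real_inner_self_nonneg
      simp only [inner_add_left, inner_add_right, inner_sub_left, inner_sub_right,
        inner_smul_left, inner_smul_right, RCLike.conj_to_real, m1, m2, m3, m4, m5, m6, m7, m8,
        hvv] at key
      have h9 : r ^ 2 * (x ^ 2 + y ^ 2) = lam * (x ^ 2 + y ^ 2) := by rw [hr2]
      nlinarith [key, h9])
  exact ⟨k2, k1⟩

/-- The map `(a, b) ↦ ∑ a_j P_j u + b_j P_j u'`. -/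
def TT (P : Fin p → V →ₗ[ℝ] V) (u u' : V) : ((Fin p → ℝ) × (Fin p → ℝ)) →ₗ[ℝ] V :=
  ∑ j, ((LinearMap.proj j ∘ₗ LinearMap.fst ℝ (Fin p → ℝ) (Fin p → ℝ)).smulRight (P j u) +
    (LinearMap.proj j ∘ₗ LinearMap.snd ℝ (Fin p → ℝ) (Fin p → ℝ)).smulRight (P j u'))

theorem TT_apply (P : Fin p → V →ₗ[ℝ] V) (u u' : V) (x : (Fin p → ℝ) × (Fin p → ℝ)) :
    TT P u u' x = ∑ j, (x.1 j • P j u + x.2 j • P j u') := by
  simp [TT, LinearMap.sum_apply]

/-- The map `(a, b) ↦ (-b, a)`. -/
def JJ (p : ℕ) : ((Fin p → ℝ) × (Fin p → ℝ)) →ₗ[ℝ] ((Fin p → ℝ) × (Fin p → ℝ)) :=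
  LinearMap.prod (-(LinearMap.snd ℝ (Fin p → ℝ) (Fin p → ℝ))) (LinearMap.fst ℝ _ _)

theorem JJ_apply (x : (Fin p → ℝ) × (Fin p → ℝ)) : JJ p x = (-x.2, x.1) := rfl

theorem TT_single (P : Fin p → V →ₗ[ℝ] V) (u u' : V) (i : Fin p) (α β : ℝ) :
    TT P u u' (Pi.single i α, Pi.single i β) = α • P i u + β • P i u' := by
  rw [TT_apply, Finset.sum_eq_single i]
  · simp
  · intro j _ hj
    simp [Pi.single_eq_of_ne hj]
  · simp

theorem TT_inner {u u' : V}
    (hg : ∀ j l, (inner ℝ (P j u') (P l u') = (inner ℝ (P j u) (P l u) : ℝ)) ∧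
      (inner ℝ (P j u) (P l u') = (-inner ℝ (P j u') (P l u) : ℝ)))
    (x y : (Fin p → ℝ) × (Fin p → ℝ)) :
    inner ℝ (TT P u u' (JJ p x)) (TT P u u' (JJ p y)) =
      (inner ℝ (TT P u u' x) (TT P u u' y) : ℝ) := by
  rw [TT_apply, TT_apply, TT_apply, TT_apply]
  simp only [sum_inner, inner_sum]
  refine Finset.sum_congr rfl fun j _ => Finset.sum_congr rfl fun l _ => ?_
  simp only [JJ_apply, Pi.neg_apply, inner_add_left, inner_add_right, inner_smul_left,
    inner_smul_right, RCLike.conj_to_real]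
  have h3 := (hg l j).1
  have h4 := (hg l j).2
  rw [h3, h4]
  ring

theorem exists_J [FiniteDimensional ℝ V] (h : Cfg lam P)
    (hN : ∀ i, finrank ℝ (LinearMap.range (P i)) = 2)
    (hl : 1 / 4 < lam) (h1 : lam < 1) (hp : 1 ≤ p)
    (hspan : ⨆ i, LinearMap.range (P i) = ⊤) :
    ∃ J : V →ₗ[ℝ] V, (∀ x y, inner ℝ (J x) (J y) = (inner ℝ x y : ℝ)) ∧
      (∀ x, J (J x) = -x) ∧ ∀ i x, P i (J x) = J (P i x) := by
  have hlam : 0 < lam := by linarith
  set i0 : Fin p := ⟨0, hp⟩ with hi0
  -- an orthonormal basis of the first plane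
  obtain ⟨u, u', hu, hu', huu, huu', hort, hsp⟩ : ∃ u u' : V, P i0 u = u ∧ P i0 u' = u' ∧
      inner ℝ u u = (1 : ℝ) ∧ inner ℝ u' u' = (1 : ℝ) ∧ inner ℝ u u' = (0 : ℝ) ∧
      ∀ x, P i0 x = (inner ℝ u x : ℝ) • u + (inner ℝ u' x : ℝ) • u' := by
    set b := (stdOrthonormalBasis ℝ (LinearMap.range (P i0))).reindex (finCongr (hN i0)) with hb
    have hPb : ∀ k, P i0 (b k : V) = (b k : V) := by
      intro k
      obtain ⟨w, hw⟩ := (b k).2
      rw [← hw, h.idem]
    refine ⟨(b 0 : V), (b 1 : V), hPb 0, hPb 1, ?_, ?_, ?_, ?_⟩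
    · have := b.orthonormal.1 0
      have h2 : ‖(b 0 : V)‖ = 1 := this
      rw [real_inner_self_eq_norm_sq, h2]; norm_num
    · have := b.orthonormal.1 1
      have h2 : ‖(b 1 : V)‖ = 1 := this
      rw [real_inner_self_eq_norm_sq, h2]; norm_num
    · exact b.orthonormal.2 (show (0 : Fin 2) ≠ 1 by decide)
    · intro x
      have h2 := b.sum_repr' (⟨P i0 x, LinearMap.mem_range_self _ _⟩ : LinearMap.range (P i0))
      rw [Fin.sum_univ_two] at h2
      have h3 := congrArg (fun z : LinearMap.range (P i0) => (z : V)) h2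
      simp only [Submodule.coe_add, Submodule.coe_smul] at h3
      rw [← h3]
      have e : ∀ k, (inner ℝ (b k) (⟨P i0 x, LinearMap.mem_range_self _ _⟩ :
          LinearMap.range (P i0)) : ℝ) = inner ℝ (b k : V) x := by
        intro k
        rw [Submodule.coe_inner]
        show inner ℝ (b k : V) (P i0 x) = _
        rw [← h.sym, hPb]
      rw [e, e]
  have hg := gram_rel h hl hu hu' huu huu' hort hsp
  -- decomposition of `P i y`
  have hdec : ∀ i y, ∃ α β : ℝ, P i y = α • P i u + β • P i u' := by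
    intro i y
    by_cases hi : i = i0
    · subst hi
      exact ⟨_, _, by rw [hu, hu']; exact hsp y⟩
    · refine ⟨lam⁻¹ * inner ℝ u (P i y), lam⁻¹ * inner ℝ u' (P i y), ?_⟩
      calc P i y = lam⁻¹ • P i (P i0 (P i y)) := by
            rw [h.iso i i0 hi, smul_smul, inv_mul_cancel₀ hlam.ne', one_smul]
        _ = _ := by
            rw [hsp (P i y), map_add, map_smul, map_smul, smul_add, smul_smul, smul_smul]
  -- surjectivity
  have hsurj : Function.Surjective (TT P u u') := by
    rw [← LinearMap.range_eq_top, eq_top_iff, ← hspan]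
    apply iSup_le
    rintro i _ ⟨y, rfl⟩
    obtain ⟨α, β, hαβ⟩ := hdec i y
    exact ⟨(Pi.single i α, Pi.single i β), by rw [TT_single, hαβ]⟩
  obtain ⟨g, hg2⟩ := (TT P u u').exists_rightInverse_of_surjective
    (LinearMap.range_eq_top.mpr hsurj)
  have hgT : ∀ y, TT P u u' (g y) = y := fun y => by
    have := congrArg (fun f => f y) hg2
    simpa using this
  set J : V →ₗ[ℝ] V := (TT P u u') ∘ₗ (JJ p) ∘ₗ g with hJ
  have hJT : ∀ x, J (TT P u u' x) = TT P u u' (JJ p x) := by
    intro x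
    have h2 : TT P u u' (g (TT P u u' x) - x) = 0 := by rw [map_sub, hgT, sub_self]
    have h3 : TT P u u' (JJ p (g (TT P u u' x) - x)) = 0 := by
      rw [← inner_self_eq_zero (𝕜 := ℝ), TT_inner hg, h2, inner_zero_left]
    rw [map_sub, map_sub, sub_eq_zero] at h3
    simp only [hJ, LinearMap.comp_apply]
    exact h3
  have hiso : ∀ x y, inner ℝ (J x) (J y) = (inner ℝ x y : ℝ) := by
    intro x y
    obtain ⟨x, rfl⟩ := hsurj x
    obtain ⟨y, rfl⟩ := hsurj y
    rw [hJT, hJT, TT_inner hg]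
  have hJJ : ∀ x, J (J x) = -x := by
    intro x
    obtain ⟨x, rfl⟩ := hsurj x
    rw [hJT, hJT, ← map_neg]
    congr 1
  have hskew : ∀ x y, inner ℝ (J x) y = (-inner ℝ x (J y) : ℝ) := by
    intro x y
    rw [← hiso (J x) y, hJJ, inner_neg_left]
  have hJu : ∀ (i : Fin p) (α β : ℝ), J (α • P i u + β • P i u') = α • P i u' - β • P i u := by
    intro i α β
    rw [← TT_single, hJT]
    have : JJ p (Pi.single i α, Pi.single i β) = (Pi.single i (-β), Pi.single i α) := by
      simp [JJ, Pi.single_neg]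
    rw [this, TT_single, neg_smul]
    abel
  have hJP : ∀ i y, P i (J (P i y)) = J (P i y) := by
    intro i y
    obtain ⟨α, β, hαβ⟩ := hdec i y
    rw [hαβ, hJu, map_sub, map_smul, map_smul, h.idem, h.idem]
  refine ⟨J, hiso, hJJ, fun i x => ?_⟩
  -- `P i (J (x - P i x)) = 0`
  have h2 : P i (J (x - P i x)) = 0 := by
    rw [← inner_self_eq_zero (𝕜 := ℝ)]
    have h3 : ∀ z, inner ℝ (P i z) (J (x - P i x)) = (0 : ℝ) := by
      intro z
      have h4 := hskew (P i z) (x - P i x)
      have h5 : inner ℝ (J (P i z)) (x - P i x) = (0 : ℝ) := by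
        rw [← hJP, h.sym, map_sub, h.idem, sub_self, inner_zero_right]
      linarith
    rw [h.sym, h.idem, real_inner_comm]
    exact h3 _
  have h3 : x = P i x + (x - P i x) := by abel
  calc P i (J x) = P i (J (P i x + (x - P i x))) := by rw [← h3]
    _ = P i (J (P i x)) + P i (J (x - P i x)) := by rw [map_add, map_add]
    _ = J (P i x) := by rw [h2, add_zero, hJP]

end Pool.Agent.EI28X
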