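import Pool.Agent.EI28U.Lower

set_option autoImplicit false

/-! Families given by real vectors, over any of the fields. -/

namespace Pool.Agent.EI28X

open Finset Module Pool.Agent.H32Iso Pool.Agent.EI28U

section

variable {F : Type} [NormedDivisionRing F] [InnerProductSpace ℝ F] [IsScalarTower ℝ F F]
  [SMulCommClass ℝ F F] {p n d : ℕ}

omit [IsScalarTower ℝ F F] in
theorem inner_smul_toF (v : Fin d → ℝ) (c : F) (z : Sp F d) :
    inner ℝ z (c • (toF v : Sp F d)) = (inner ℝ (pr v z) c : ℝ) := by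
  rw [PiLp.inner_apply]
  unfold pr
  rw [sum_inner]
  refine sum_congr rfl fun a _ => ?_
  rw [PiLp.smul_apply, toF_apply, smul_eq_mul, mul_smul_comm, mul_one, inner_smul_right,
    inner_smul_left]
  simp

omit [IsScalarTower ℝ F F] [SMulCommClass ℝ F F] in
theorem pr_sub (v : Fin d → ℝ) (x y : Sp F d) : pr v (x - y) = pr v x - pr v y := by
  unfold pr
  rw [← sum_sub_distrib]
  exact sum_congr rfl fun a _ => by rw [PiLp.sub_apply, smul_sub]

omit [IsScalarTower ℝ F F] [SMulCommClass ℝ F F] in
theorem pr_sum {ι : Type*} (s : Finset ι) (v : Fin d → ℝ) (x : ι → Sp F d) :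
    pr v (∑ i ∈ s, x i) = ∑ i ∈ s, pr v (x i) := by
  unfold pr
  rw [sum_comm]
  refine sum_congr rfl fun a _ => ?_
  rw [WithLp.ofLp_sum, Finset.sum_apply, smul_sum]

/-- the projection -/
noncomputable def Q (v : Fin n → Fin d → ℝ) (x : Sp F d) : Sp F d :=
  ∑ a, pr (v a) x • (toF (v a) : Sp F d)

omit [IsScalarTower ℝ F F] in
theorem pr_Q (u : Fin d → ℝ) (v : Fin n → Fin d → ℝ) (x : Sp F d) :
    pr u (Q v x) = ∑ a, (∑ c, u c * v a c) • pr (v a) x := by
  unfold Q
  rw [pr_sum]
  exact sum_congr rfl fun a _ => pr_smul_toF _ _ _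

omit [IsScalarTower ℝ F F] in
theorem pr_Q_self (v : Fin n → Fin d → ℝ)
    (hv : ∀ a b, ∑ c, v a c * v b c = if a = b then 1 else 0) (b : Fin n) (x : Sp F d) :
    pr (v b) (Q v x) = pr (v b) x := by
  rw [pr_Q, sum_eq_single b]
  · rw [hv, if_pos rfl, one_smul]
  · intro a _ hab
    rw [hv, if_neg (Ne.symm hab), zero_smul]
  · simp

/-- the subspace -/
def sub (v : Fin n → Fin d → ℝ) : Submodule F (Sp F d) :=
  Submodule.span F (Set.range fun a => (toF (v a) : Sp F d))

omit [IsScalarTower ℝ F F] [SMulCommClass ℝ F F] in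
theorem toF_mem (v : Fin n → Fin d → ℝ) (a : Fin n) : (toF (v a) : Sp F d) ∈ (sub v : Submodule F (Sp F d)) :=
  Submodule.subset_span ⟨a, rfl⟩

theorem proj_sub [FiniteDimensional ℝ F] (v : Fin n → Fin d → ℝ)
    (hv : ∀ a b, ∑ c, v a c * v b c = if a = b then 1 else 0) {x y : Sp F d}
    (h : IsProj (sub v) x y) : y = Q v x := by
  have h2 : IsProj (sub v) x (Q v x) := by
    refine ⟨Submodule.sum_mem _ fun a _ => Submodule.smul_mem _ _ (toF_mem v a), fun w hw => ?_⟩
    have h3 : ∀ c : F, ∀ b, inner ℝ (x - Q v x) (c • (toF (v b) : Sp F d)) = (0 : ℝ) := by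
      intro c b
      rw [inner_smul_toF, pr_sub, pr_Q_self v hv, sub_self, inner_zero_left]
    obtain ⟨c, rfl⟩ := (Submodule.mem_span_range_iff_exists_fun F).mp hw
    rw [inner_sum]
    exact sum_eq_zero fun b _ => h3 _ _
  rw [isProj_iff] at h h2
  rw [← h, ← h2]

theorem fam_real [FiniteDimensional ℝ F] (v : Fin p → Fin n → Fin d → ℝ) (lam : ℝ) (h0 : 0 ≤ lam)
    (hl : lam < 1)
    (h1 : ∀ i a b, ∑ c, v i a c * v i b c = if a = b then 1 else 0)
    (h2 : ∀ i j, i ≠ j → ∀ a b, ∑ e, (∑ c, v i a c * v j e c) * (∑ c, v j e c * v i b c) =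
      if a = b then lam else 0)
    (hspan : Submodule.span ℝ (Set.range fun q : Fin p × Fin n => v q.1 q.2) = ⊤) :
    EquiIsoclinic F n d p lam (fun i => sub (v i)) where
  nonneg := h0
  lt_one := hl
  rank := by
    intro i
    have hli : LinearIndependent F (fun a => (toF (v i a) : Sp F d)) := by
      rw [Fintype.linearIndependent_iff]
      intro g hg b
      have h3 := congrArg (pr (v i b)) hg
      rw [pr_sum, sum_eq_single b] at h3
      · rw [pr_smul_toF, h1, if_pos rfl, one_smul] at h3
        rw [h3]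
        simp [pr]
      · intro a _ hab
        rw [pr_smul_toF, h1, if_neg (Ne.symm hab), zero_smul]
      · simp
    have := finrank_span_eq_card hli
    rw [Fintype.card_fin] at this
    exact this
  span := by
    unfold Spans
    rw [eq_top_iff]
    set W := ⨆ i, (sub (v i) : Submodule F (Sp F d)) with hW
    have hsmul : ∀ (c : ℝ) (x : Sp F d), x ∈ W → c • x ∈ W := by
      intro c x hx
      have : c • x = (c • (1 : F)) • x := by
        ext b
        simp
      rw [this]
      exact W.smul_mem _ hx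
    have hreal : ∀ u : Fin d → ℝ, (toF u : Sp F d) ∈ W := by
      intro u
      have hu : u ∈ Submodule.span ℝ (Set.range fun q : Fin p × Fin n => v q.1 q.2) := by
        rw [hspan]; trivial
      obtain ⟨g, rfl⟩ := (Submodule.mem_span_range_iff_exists_fun ℝ).mp hu
      have e : (toF (∑ q : Fin p × Fin n, g q • v q.1 q.2) : Sp F d) =
          ∑ q : Fin p × Fin n, g q • (toF (v q.1 q.2) : Sp F d) := by
        ext b
        rw [WithLp.ofLp_sum, Finset.sum_apply, toF_apply, Finset.sum_apply, sum_smul]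
        refine sum_congr rfl fun q _ => ?_
        rw [PiLp.smul_apply, toF_apply, Pi.smul_apply, smul_eq_mul, mul_smul]
      rw [e]
      exact W.sum_mem fun q _ => hsmul _ _ (Submodule.mem_iSup_of_mem q.1 (toF_mem _ _))
    intro x _
    have hx : x = ∑ i, x i • (toF (fun b => if b = i then 1 else 0) : Sp F d) := by
      ext b
      rw [WithLp.ofLp_sum, Finset.sum_apply]
      simp [toF_apply]
    rw [hx]
    exact W.sum_mem fun i _ => W.smul_mem _ (hreal _)
  iso := by
    intro i j hij x y z w e1 e2 e3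
    have f1 := proj_sub _ (h1 i) e1
    have f2 := proj_sub _ (h1 j) e2
    have f3 := proj_sub _ (h1 i) e3
    have key : ∀ b, pr (v i b) z = lam • pr (v i b) x := by
      intro b
      rw [f2, pr_Q]
      have e4 : ∀ e, pr (v j e) y = ∑ a, (∑ c, v j e c * v i a c) • pr (v i a) x := by
        intro e
        rw [f1, pr_Q]
      simp only [e4, smul_sum, smul_smul]
      rw [sum_comm]
      simp only [← sum_smul, h2 i j hij]
      simp
    rw [f3, f1]
    unfold Q
    rw [smul_sum]
    refine sum_congr rfl fun b _ => ?_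
    rw [key, smul_assoc]

/-- Families given by vectors of a real inner product space. -/
theorem exists_fam [FiniteDimensional ℝ F] {E : Type*} [NormedAddCommGroup E]
    [InnerProductSpace ℝ E] [FiniteDimensional ℝ E] (w : Fin p → Fin n → E) (lam : ℝ)
    (h0 : 0 ≤ lam) (hl : lam < 1)
    (h1 : ∀ i a b, inner ℝ (w i a) (w i b) = (if a = b then 1 else 0 : ℝ))
    (h2 : ∀ i j, i ≠ j → ∀ a b, ∑ e, (inner ℝ (w i a) (w j e) : ℝ) * inner ℝ (w j e) (w i b) =
      if a = b then lam else 0)
    (hd : finrank ℝ (Submodule.span ℝ (Set.range fun q : Fin p × Fin n => w q.1 q.2)) = d) :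
    ∃ V : Fin p → Submodule F (Sp F d), EquiIsoclinic F n d p lam V := by
  subst hd
  set S := Submodule.span ℝ (Set.range fun q : Fin p × Fin n => w q.1 q.2) with hS
  have hmem : ∀ i a, w i a ∈ S := fun i a => Submodule.subset_span ⟨(i, a), rfl⟩
  set B := stdOrthonormalBasis ℝ S with hB
  set v : Fin p → Fin n → Fin (finrank ℝ S) → ℝ := fun i a c =>
    inner ℝ (B c) (⟨w i a, hmem i a⟩ : S) with hv
  have hin : ∀ i j a b, ∑ c, v i a c * v j b c = inner ℝ (w i a) (w j b) := by
    intro i j a b
    have h3 := B.sum_inner_mul_inner (⟨w i a, hmem i a⟩ : S) ⟨w j b, hmem j b⟩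
    rw [Submodule.coe_inner] at h3
    rw [← h3]
    refine sum_congr rfl fun c _ => ?_
    simp only [hv]
    rw [real_inner_comm (B c) (⟨w i a, hmem i a⟩ : S)]
  refine ⟨_, fam_real v lam h0 hl ?_ ?_ ?_⟩
  · intro i a b
    rw [hin, h1]
  · intro i j hij a b
    simp only [hin]
    exact h2 i j hij a b
  · rw [eq_top_iff]
    intro u _
    -- the vector of `S` with coordinates `u`
    set U : S := ∑ c, u c • B c with hU
    obtain ⟨g, hg⟩ := (Submodule.mem_span_range_iff_exists_fun ℝ).mp
      (show (U : E) ∈ Submodule.span ℝ (Set.range fun q : Fin p × Fin n => w q.1 q.2) from U.2)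
    rw [Submodule.mem_span_range_iff_exists_fun]
    refine ⟨g, ?_⟩
    have hUg : U = ∑ q : Fin p × Fin n, g q • (⟨w q.1 q.2, hmem q.1 q.2⟩ : S) := by
      apply Subtype.ext
      rw [← hg]
      simp
    ext c
    have h3 : inner ℝ (B c) U = u c := by
      rw [hU, inner_sum, sum_eq_single c]
      · rw [inner_smul_right, B.inner_eq_one, mul_one]
      · intro b _ hb
        rw [inner_smul_right, B.inner_eq_zero (Ne.symm hb), mul_zero]
      · simp
    rw [← h3, hUg, inner_sum, Finset.sum_apply]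
    refine sum_congr rfl fun q _ => ?_
    rw [inner_smul_right, Pi.smul_apply, smul_eq_mul]

end

end Pool.Agent.EI28X
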