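import Pool.Agent.EI28X.RealF

set_option autoImplicit false

/-! `p` lines of `F ^ p` and `p` three-dimensional subspaces of `F ^ (3 p - 1)` with the common
parameter `(67 / 93) ^ 2`. -/

namespace Pool.Agent.EI28X

open Finset Module Pool.Agent.H32Iso Pool.Agent.EI28U

def uu : Fin 14 → Fin 4 → Fin 3 → ℤ :=
  ![![![0, 1, -1], ![0, -1, 1], ![0, -1, -1], ![0, 1, 1]],
    ![![-1, 0, 1], ![1, 0, 1], ![1, 0, -1], ![-1, 0, -1]],
    ![![1, -1, 0], ![-1, -1, 0], ![1, 1, 0], ![-1, 1, 0]],
    ![![1, -1, 0], ![1, 1, 0], ![-1, -1, 0], ![-1, 1, 0]],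
    ![![1, 1, -2], ![1, -1, 2], ![-1, 1, 2], ![-1, -1, -2]],
    ![![1, 0, 0], ![1, 0, 0], ![1, 0, 0], ![1, 0, 0]],
    ![![0, 1, 0], ![0, 1, 0], ![0, 1, 0], ![0, 1, 0]],
    ![![0, 0, 1], ![0, 0, 1], ![0, 0, 1], ![0, 0, 1]],
    ![![0, 1, 1], ![0, -1, -1], ![0, -1, 1], ![0, 1, -1]],
    ![![1, 0, 1], ![-1, 0, 1], ![-1, 0, -1], ![1, 0, -1]],
    ![![1, 1, 0], ![-1, 1, 0], ![1, -1, 0], ![-1, -1, 0]],
    ![![1, -1, -1], ![1, 1, 1], ![1, 1, -1], ![1, -1, 1]],
    ![![-1, 1, -1], ![1, 1, -1], ![1, 1, 1], ![-1, 1, 1]],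
    ![![-1, -1, 1], ![1, -1, 1], ![-1, 1, 1], ![1, 1, 1]]]

def ww : Fin 14 → ℤ := ![39, 39, 39, 117, 39, 146, 146, 146, 119, 119, 119, 2, 2, 2]

def xx : Fin 4 → Fin 3 → ℤ := ![![1, 1, 1], ![1, -1, -1], ![-1, 1, -1], ![-1, -1, 1]]

def HH (i j : Fin 4) (a b : Fin 3) : ℤ :=
  (if a = b then 1608 else 0) + ∑ k, ww k * uu k i a * uu k j b

theorem HH_self : ∀ i a b, HH i i a b = if a = b then 2232 else 0 := by decide +kernel

theorem HH_mul : ∀ i j, i ≠ j → ∀ a b, ∑ e, HH i j a e * HH j i e b =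
    if a = b then 1608 ^ 2 else 0 := by decide +kernel

theorem ww_nonneg : ∀ k, 0 ≤ ww k := by decide +kernel

theorem ww_pos : ∀ k, 0 < ww k := by decide +kernel

theorem uu_xx : ∀ k, ∑ i, ∑ a, xx i a * uu k i a = 0 := by decide +kernel

theorem xx_sum : ∀ a, ∑ i, xx i a = 0 := by decide +kernel

theorem ker_uu (c : Fin 4 → Fin 3 → ℝ) (h : ∀ k, ∑ i, ∑ a, c i a * (uu k i a : ℝ) = 0) :
    ∀ i a, c i a = c 0 0 * xx i a := by
  have h0 := h 0
  have h1 := h 1
  have h2 := h 2
  have h3 := h 3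
  have h4 := h 4
  have h5 := h 5
  have h6 := h 6
  have h7 := h 7
  have h8 := h 8
  have h9 := h 9
  have h10 := h 10
  simp [Fin.sum_univ_succ, uu] at h0 h1 h2 h3 h4 h5 h6 h7 h8 h9 h10
  intro i a
  fin_cases i <;> fin_cases a <;> simp [xx] <;> linarith

/-- coordinates -/
abbrev Co (q : ℕ) : Type := Fin 3 ⊕ (Fin 14 ⊕ (Fin q × Fin 3))

/-- the vectors -/
noncomputable def wv (q : ℕ) : Fin 4 ⊕ Fin q → Fin 3 → EuclideanSpace ℝ (Co q)
  | Sum.inl i, a => WithLp.toLp 2 (Sum.elim (fun c => if c = a then √(201 / 279) else 0)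
      (Sum.elim (fun k => √((ww k : ℝ) / 2232) * uu k i a) (fun _ => 0)))
  | Sum.inr j, a => WithLp.toLp 2 (Sum.elim (fun c => if c = a then √(201 / 279) else 0)
      (Sum.elim (fun _ => 0) (fun x => if x = (j, a) then √(78 / 279) else 0)))

theorem sum_first (a b : Fin 3) : ∑ c : Fin 3, (if c = b then √(201 / 279 : ℝ) else 0) *
    (if c = a then √(201 / 279 : ℝ) else 0) = if a = b then 201 / 279 else 0 := by
  have h : √(201 / 279 : ℝ) * √(201 / 279 : ℝ) = 201 / 279 := Real.mul_self_sqrt (by norm_num)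
  by_cases hab : a = b
  · subst hab
    rw [if_pos rfl, sum_eq_single a, if_pos rfl, h]
    · intro c _ hc
      rw [if_neg hc, zero_mul]
    · simp
  · rw [if_neg hab]
    apply sum_eq_zero
    intro c _
    by_cases hc : c = b
    · rw [if_neg (fun h : c = a => hab (h.symm.trans hc)), mul_zero]
    · rw [if_neg hc, zero_mul]

theorem inner_ll (q : ℕ) (i j : Fin 4) (a b : Fin 3) :
    inner ℝ (wv q (Sum.inl i) a) (wv q (Sum.inl j) b) = (HH i j a b : ℝ) / 2232 := by
  rw [PiLp.inner_apply]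
  simp only [Fintype.sum_sum_type, wv, Sum.elim_inl, Sum.elim_inr]
  simp only [RCLike.inner_apply, conj_trivial, mul_zero, sum_const_zero, add_zero]
  rw [sum_first]
  have h : ∀ k, √((ww k : ℝ) / 2232) * (uu k j b : ℝ) * (√((ww k : ℝ) / 2232) * (uu k i a : ℝ)) =
      (ww k : ℝ) * uu k i a * uu k j b / 2232 := by
    intro k
    have h1 : √((ww k : ℝ) / 2232) * √((ww k : ℝ) / 2232) = (ww k : ℝ) / 2232 :=
      Real.mul_self_sqrt (div_nonneg (by exact_mod_cast ww_nonneg k) (by norm_num))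
    linear_combination (uu k i a : ℝ) * uu k j b * h1
  rw [sum_congr rfl fun k _ => h k, ← sum_div]
  unfold HH
  push_cast
  split_ifs <;> ring

theorem inner_lr' (q : ℕ) (i : Fin 4) (j : Fin q) (a b : Fin 3) :
    inner ℝ (wv q (Sum.inl i) a) (wv q (Sum.inr j) b) = (if a = b then 201 / 279 else 0 : ℝ) := by
  rw [PiLp.inner_apply]
  simp only [Fintype.sum_sum_type, wv, Sum.elim_inl, Sum.elim_inr]
  simp only [RCLike.inner_apply, conj_trivial, mul_zero, zero_mul, sum_const_zero, add_zero]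
  exact sum_first a b

theorem inner_rr (q : ℕ) (i j : Fin q) (a b : Fin 3) :
    inner ℝ (wv q (Sum.inr i) a) (wv q (Sum.inr j) b) =
      ((if a = b then 201 / 279 else 0) + if i = j ∧ a = b then 78 / 279 else 0 : ℝ) := by
  rw [PiLp.inner_apply]
  simp only [Fintype.sum_sum_type, wv, Sum.elim_inl, Sum.elim_inr]
  simp only [RCLike.inner_apply, conj_trivial, mul_zero, sum_const_zero, zero_add]
  rw [sum_first]
  congr 1
  have h : √(78 / 279 : ℝ) * √(78 / 279 : ℝ) = 78 / 279 := Real.mul_self_sqrt (by norm_num)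
  by_cases hab : i = j ∧ a = b
  · obtain ⟨rfl, rfl⟩ := hab
    rw [if_pos ⟨rfl, rfl⟩, sum_eq_single (i, a), if_pos rfl, h]
    · intro c _ hc
      rw [if_neg hc, zero_mul]
    · simp
  · rw [if_neg hab]
    apply sum_eq_zero
    intro c _
    by_cases hc : c = (j, b)
    · subst hc
      have : ¬ ((j, b) = (i, a)) := by
        intro h
        rw [Prod.mk.injEq] at h
        exact hab ⟨h.1.symm, h.2.symm⟩
      rw [if_neg this, mul_zero]
    · rw [if_neg hc, zero_mul]

theorem inner_self_wv (q : ℕ) (i : Fin 4 ⊕ Fin q) (a b : Fin 3) :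
    inner ℝ (wv q i a) (wv q i b) = (if a = b then 1 else 0 : ℝ) := by
  rcases i with i | i
  · rw [inner_ll, HH_self]
    split_ifs <;> norm_num
  · rw [inner_rr]
    by_cases hab : a = b <;> simp [hab]
    norm_num

/-- the inner products of different members, as `201 / 279` times an orthogonal matrix -/
theorem mul_wv (q : ℕ) (i j : Fin 4 ⊕ Fin q) (hij : i ≠ j) (a b : Fin 3) :
    ∑ e, (inner ℝ (wv q i a) (wv q j e) : ℝ) * inner ℝ (wv q j e) (wv q i b) =
      if a = b then (67 / 93) ^ 2 else 0 := by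
  have key : ∀ f : Fin 3 → Fin 3 → ℝ, (∀ x y, f x y = if x = y then 201 / 279 else 0) →
      ∀ g : Fin 3 → Fin 3 → ℝ, (∀ x y, g x y = if x = y then 201 / 279 else 0) →
      ∑ e, f a e * g e b = if a = b then (67 / 93 : ℝ) ^ 2 else 0 := by
    intro f hf g hg
    simp only [hf, hg]
    by_cases hab : a = b
    · subst hab
      simp
      norm_num
    · rw [if_neg hab]
      apply sum_eq_zero
      intro e _
      by_cases he : a = e
      · rw [if_neg (fun h : e = b => hab (he.trans h)), mul_zero]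
      · rw [if_neg he, zero_mul]
  rcases i with i | i <;> rcases j with j | j
  · simp only [inner_ll]
    have h := HH_mul i j (fun h => hij (by rw [h])) a b
    have h2 : (∑ e, (HH i j a e : ℝ) * (HH j i e b : ℝ)) = if a = b then 1608 ^ 2 else 0 := by
      have := congrArg (Int.cast : ℤ → ℝ) h
      rw [Int.cast_sum] at this
      simp only [Int.cast_mul] at this
      rw [this]
      split_ifs <;> norm_num
    have h3 : ∑ e, (HH i j a e : ℝ) / 2232 * ((HH j i e b : ℝ) / 2232) =
        (∑ e, (HH i j a e : ℝ) * (HH j i e b : ℝ)) / 2232 ^ 2 := by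
      rw [sum_div]
      exact sum_congr rfl fun e _ => by ring
    rw [h3, h2]
    split_ifs <;> norm_num
  · exact key (fun x y => inner ℝ (wv q (Sum.inl i) x) (wv q (Sum.inr j) y))
      (fun x y => inner_lr' q i j x y)
      (fun x y => inner ℝ (wv q (Sum.inr j) x) (wv q (Sum.inl i) y)) (fun x y => by
        rw [real_inner_comm, inner_lr']
        simp only [eq_comm])
  · exact key (fun x y => inner ℝ (wv q (Sum.inr i) x) (wv q (Sum.inl j) y)) (fun x y => by
        rw [real_inner_comm, inner_lr']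
        simp only [eq_comm])
      (fun x y => inner ℝ (wv q (Sum.inl j) x) (wv q (Sum.inr i) y))
      (fun x y => inner_lr' q j i x y)
  · have hne : i ≠ j := fun h => hij (by rw [h])
    exact key (fun x y => inner ℝ (wv q (Sum.inr i) x) (wv q (Sum.inr j) y))
      (fun x y => by rw [inner_rr]; simp [hne])
      (fun x y => inner ℝ (wv q (Sum.inr j) x) (wv q (Sum.inr i) y))
      (fun x y => by rw [inner_rr]; simp [Ne.symm hne])

/-- the relation -/
def x0 (q : ℕ) : (Fin 4 ⊕ Fin q) × Fin 3 → ℝ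
  | (Sum.inl i, a) => xx i a
  | (Sum.inr _, _) => 0

theorem ker_wv (q : ℕ) (c : (Fin 4 ⊕ Fin q) × Fin 3 → ℝ) :
    (∑ x, c x • wv q x.1 x.2 = 0) ↔ c ∈ Submodule.span ℝ {x0 q} := by
  rw [Submodule.mem_span_singleton]
  have hco : ∀ (c : (Fin 4 ⊕ Fin q) × Fin 3 → ℝ) (o : Co q), (∑ x, c x • wv q x.1 x.2) o =
      (∑ i : Fin 4, ∑ a, c (Sum.inl i, a) * wv q (Sum.inl i) a o) +
      ∑ j : Fin q, ∑ a, c (Sum.inr j, a) * wv q (Sum.inr j) a o := by
    intro c o
    rw [WithLp.ofLp_sum, Finset.sum_apply, Fintype.sum_prod_type, Fintype.sum_sum_type]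
    rfl
  constructor
  · intro h
    have hz : ∀ o, (∑ x, c x • wv q x.1 x.2) o = 0 := by
      intro o; rw [h]; rfl
    -- the last members do not occur
    have h1 : ∀ j a, c (Sum.inr j, a) = 0 := by
      intro j a
      have h2 := hz (Sum.inr (Sum.inr (j, a)))
      rw [hco] at h2
      simp only [wv, Sum.elim_inr, mul_zero, sum_const_zero, zero_add] at h2
      rw [sum_eq_single j, sum_eq_single a, if_pos rfl] at h2
      · exact (mul_eq_zero.mp h2).resolve_right (Real.sqrt_pos.mpr (by norm_num)).ne'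
      · intro b _ hb
        rw [if_neg (fun h => hb (by rw [Prod.mk.injEq] at h; exact h.2.symm)), mul_zero]
      · simp
      · intro i _ hi
        apply sum_eq_zero
        intro b _
        rw [if_neg (fun h => hi (by rw [Prod.mk.injEq] at h; exact h.1.symm)), mul_zero]
      · simp
    have h3 : ∀ k, ∑ i, ∑ a, c (Sum.inl i, a) * (uu k i a : ℝ) = 0 := by
      intro k
      have h2 := hz (Sum.inr (Sum.inl k))
      rw [hco] at h2
      simp only [wv, Sum.elim_inr, Sum.elim_inl, mul_zero, sum_const_zero, add_zero] at h2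
      have h4 : √((ww k : ℝ) / 2232) * ∑ i, ∑ a, c (Sum.inl i, a) * (uu k i a : ℝ) = 0 := by
        rw [← h2, mul_sum]
        refine sum_congr rfl fun i _ => ?_
        rw [mul_sum]
        exact sum_congr rfl fun a _ => by ring
      refine (mul_eq_zero.mp h4).resolve_left (Real.sqrt_pos.mpr (div_pos ?_ (by norm_num))).ne'
      exact_mod_cast ww_pos k
    have h5 := ker_uu (fun i a => c (Sum.inl i, a)) h3
    refine ⟨c (Sum.inl 0, 0), ?_⟩
    ext ⟨i | j, a⟩
    · simp only [Pi.smul_apply, smul_eq_mul, x0]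
      exact (h5 i a).symm
    · simp only [Pi.smul_apply, smul_eq_mul, x0, h1, mul_zero]
  · rintro ⟨t, rfl⟩
    ext o
    rw [hco]
    simp only [Pi.smul_apply, smul_eq_mul, x0, mul_zero, zero_mul, sum_const_zero, add_zero]
    rcases o with o | o | o
    · simp only [wv, Sum.elim_inl]
      have h1 := congrArg (Int.cast : ℤ → ℝ) (xx_sum o)
      push_cast at h1
      have h2 : ∀ i : Fin 4, ∑ a, t * (xx i a : ℝ) * (if o = a then √(201 / 279) else 0) =
          t * √(201 / 279) * xx i o := by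
        intro i
        rw [sum_eq_single o, if_pos rfl]
        · ring
        · intro b _ hb
          rw [if_neg (Ne.symm hb), mul_zero]
        · simp
      rw [sum_congr rfl fun i _ => h2 i, ← mul_sum, h1, mul_zero]
      rfl
    · simp only [wv, Sum.elim_inr, Sum.elim_inl]
      have h1 := congrArg (Int.cast : ℤ → ℝ) (uu_xx o)
      push_cast at h1
      have h2 : ∑ i : Fin 4, ∑ a, t * (xx i a : ℝ) * (√((ww o : ℝ) / 2232) * uu o i a) =
          t * √((ww o : ℝ) / 2232) * ∑ i, ∑ a, (xx i a : ℝ) * uu o i a := by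
        rw [mul_sum]
        refine sum_congr rfl fun i _ => ?_
        rw [mul_sum]
        exact sum_congr rfl fun a _ => by ring
      rw [h2, h1, mul_zero]
      rfl
    · simp only [wv, Sum.elim_inr, mul_zero, sum_const_zero]
      rfl

theorem finrank_wv (q : ℕ) : finrank ℝ (Submodule.span ℝ
    (Set.range fun x : (Fin 4 ⊕ Fin q) × Fin 3 => wv q x.1 x.2)) = 3 * (4 + q) - 1 := by
  rw [← Fintype.range_linearCombination]
  set T := Fintype.linearCombination ℝ (fun x : (Fin 4 ⊕ Fin q) × Fin 3 => wv q x.1 x.2) with hT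
  have h1 := LinearMap.finrank_range_add_finrank_ker T
  have h2 : LinearMap.ker T = Submodule.span ℝ {x0 q} := by
    ext c
    rw [LinearMap.mem_ker, ← ker_wv, hT, Fintype.linearCombination_apply]
  have h3 : x0 q ≠ 0 := by
    intro h
    have := congrFun h (Sum.inl 0, 0)
    simp [x0, xx] at this
  rw [h2, finrank_span_singleton h3, Module.finrank_fintype_fun_eq_card] at h1
  simp only [Fintype.card_prod, Fintype.card_sum, Fintype.card_fin] at h1
  omega

section

variable (F : Type) [NormedDivisionRing F] [InnerProductSpace ℝ F] [IsScalarTower ℝ F F]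
  [SMulCommClass ℝ F F] [FiniteDimensional ℝ F]

theorem exists_three (p : ℕ) (hp : 4 ≤ p) : ∃ V : Fin p → Submodule F (Sp F (3 * p - 1)),
    EquiIsoclinic F 3 (3 * p - 1) p ((67 / 93 : ℝ) ^ 2) V := by
  obtain ⟨q, rfl⟩ : ∃ q, p = 4 + q := ⟨p - 4, by omega⟩
  refine exists_fam (fun i a => wv q (finSumFinEquiv.symm i) a) _ (by norm_num) (by norm_num)
    (fun i a b => inner_self_wv q _ a b)
    (fun i j hij a b => mul_wv q _ _ (fun h => hij (finSumFinEquiv.symm.injective h)) a b) ?_
  have h : (Set.range fun x : Fin (4 + q) × Fin 3 => wv q (finSumFinEquiv.symm x.1) x.2) =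
      Set.range fun x : (Fin 4 ⊕ Fin q) × Fin 3 => wv q x.1 x.2 := by
    ext z
    constructor
    · rintro ⟨⟨i, a⟩, rfl⟩
      exact ⟨(finSumFinEquiv.symm i, a), rfl⟩
    · rintro ⟨⟨i, a⟩, rfl⟩
      exact ⟨(finSumFinEquiv i, a), by simp⟩
  rw [h]
  exact finrank_wv q

theorem exists_one (p : ℕ) : ∃ V : Fin p → Submodule F (Sp F p),
    EquiIsoclinic F 1 p p ((67 / 93 : ℝ) ^ 2) V := by
  set w : Fin p → EuclideanSpace ℝ (Option (Fin p)) := fun i => WithLp.toLp 2
    (fun o => (if o = none then √(67 / 93) else 0) + if o = some i then √(26 / 93) else 0) with hw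
  have h1 : √(67 / 93 : ℝ) * √(67 / 93 : ℝ) = 67 / 93 := Real.mul_self_sqrt (by norm_num)
  have h2 : √(26 / 93 : ℝ) * √(26 / 93 : ℝ) = 26 / 93 := Real.mul_self_sqrt (by norm_num)
  have hin : ∀ i j, inner ℝ (w i) (w j) = (if i = j then 1 else 67 / 93 : ℝ) := by
    intro i j
    rw [PiLp.inner_apply, Fintype.sum_option]
    simp only [hw, RCLike.inner_apply, conj_trivial, Option.some_ne_none, if_false, zero_add,
      if_true, Option.some.injEq]
    rw [if_neg (by simp), if_neg (by simp), add_zero, h1]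
    by_cases hij : i = j
    · subst hij
      rw [sum_eq_single i, if_pos rfl, h2, if_pos rfl]
      · norm_num
      · intro b _ hb
        rw [if_neg hb, mul_zero]
      · simp
    · rw [sum_eq_zero, if_neg hij, add_zero]
      intro b _
      by_cases hb : b = j
      · rw [if_neg (fun h : b = i => hij (h.symm.trans hb)), mul_zero]
      · rw [if_neg hb, zero_mul]
  have hli : LinearIndependent ℝ w := by
    rw [Fintype.linearIndependent_iff]
    intro g hg i
    have h3 := congrArg (fun z : EuclideanSpace ℝ (Option (Fin p)) => z (some i)) hg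
    simp only [WithLp.ofLp_sum, Finset.sum_apply, hw, PiLp.smul_apply, smul_eq_mul] at h3
    rw [sum_eq_single i] at h3
    · simp only [reduceCtorEq, if_false, zero_add, if_true] at h3
      exact (mul_eq_zero.mp h3).resolve_right (Real.sqrt_pos.mpr (by norm_num)).ne'
    · intro j _ hj
      simp [Ne.symm hj]
    · simp
  refine exists_fam (fun i (_ : Fin 1) => w i) _ (by norm_num) (by norm_num) ?_ ?_ ?_
  · intro i a b
    rw [hin, if_pos rfl, if_pos (Subsingleton.elim a b)]
  · intro i j hij a b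
    rw [if_pos (Subsingleton.elim a b)]
    simp only [hin, if_neg hij, if_neg (Ne.symm hij), sum_const, card_univ, Fintype.card_fin,
      one_smul, sq]
  · have h3 : (Set.range fun q : Fin p × Fin 1 => w q.1) = Set.range w := by
      ext z
      constructor
      · rintro ⟨x, rfl⟩
        exact ⟨x.1, rfl⟩
      · rintro ⟨x, rfl⟩
        exact ⟨(x, 0), rfl⟩
    rw [h3, finrank_span_eq_card hli, Fintype.card_fin]

end

end Pool.Agent.EI28X
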