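import Pool.Agent.EI28X.Upper

set_option autoImplicit false

/-! The upper bound `2 log₂ k + O(log log k)` for most `n`. -/

namespace Pool.Agent.EI28X

open Module Pool.Agent.H32Iso Pool.Agent.EI28U

theorem LX_pow (s k : ℕ) (hk : 1 ≤ k) : LX (2 ^ s * k) = 2 ^ s * (k *
    ((4 * ((Nat.log 2 k : ℝ) + s) + 7) * (2 * ((Nat.log 2 k : ℝ) + s) + 5)) / 2) := by
  have h : Nat.log 2 (2 ^ s * k) = Nat.log 2 k + s := by
    induction s with
    | zero => simp
    | succ s ih =>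
      have h1 : 2 ^ s * k ≠ 0 := Nat.mul_ne_zero (by positivity) (by omega)
      rw [show 2 ^ (s + 1) * k = 2 ^ s * k * 2 by ring, Nat.log_mul_base (by norm_num) h1, ih]
      ring
  unfold LX
  rw [h]
  push_cast
  ring

theorem typical_upper {F : Type} [NormedDivisionRing F] [InnerProductSpace ℝ F]
    [IsScalarTower ℝ F F] [FiniteDimensional ℝ F] {s : ℕ} (hc : finrank ℝ F = 2 ^ s) (hs : s ≤ 2)
    {k : ℕ} (hk : 2 ≤ k) :
    ∃ m K : ℕ, 1 ≤ m ∧ K * Nat.log 2 k ≤ m ∧ ∀ n p, p ∈ sizes F n (2 * n + k) →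
      2 * Nat.log 2 k + 6 * Nat.log 2 (Nat.log 2 k) + 28 < p → n % m < K := by
  set l := Nat.log 2 k with hl
  set g := Nat.log 2 l with hg
  have hl1 : 1 ≤ l := by
    rw [hl]
    exact Nat.log_pos (by norm_num) hk
  have hkl : k < 2 ^ (l + 1) := Nat.lt_pow_succ_log_self (by norm_num) k
  have hlg : l < 2 ^ (g + 1) := Nat.lt_pow_succ_log_self (by norm_num) l
  set A : ℝ := k * ((4 * ((l : ℝ) + s) + 7) * (2 * ((l : ℝ) + s) + 5)) / 2 with hA
  have hLX : LX (2 ^ s * k) = 2 ^ s * A := LX_pow s k (by omega)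
  have hlR : (1 : ℝ) ≤ l := by exact_mod_cast hl1
  have hsR : (s : ℝ) ≤ 2 := by exact_mod_cast hs
  have hs0 : (0 : ℝ) ≤ s := Nat.cast_nonneg s
  have hkR : (2 : ℝ) ≤ k := by exact_mod_cast hk
  have hA0 : 0 ≤ A := by positivity
  set K := ⌊A⌋₊ + 1 with hK
  have hK1 : A < K := by
    rw [hK]
    push_cast
    exact Nat.lt_floor_add_one A
  have hK2 : (K : ℝ) ≤ A + 1 := by
    rw [hK]
    push_cast
    linarith [Nat.floor_le hA0]
  have hA2 : A + 1 ≤ k * (105 * l ^ 2) := by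
    have h1 : ((4 * ((l : ℝ) + s) + 7) * (2 * ((l : ℝ) + s) + 5)) ≤ (4 * l + 15) * (2 * l + 9) := by
      apply mul_le_mul <;> nlinarith
    have h2 : A ≤ k * ((4 * l + 15) * (2 * l + 9)) / 2 := by
      rw [hA]
      have := mul_le_mul_of_nonneg_left h1 (by linarith : (0 : ℝ) ≤ k)
      linarith
    have h3 : (4 * (l : ℝ) + 15) * (2 * l + 9) + 1 ≤ 210 * l ^ 2 := by nlinarith
    nlinarith [mul_le_mul_of_nonneg_left h3 (by linarith : (0 : ℝ) ≤ k)]
  have hKl : K * l ≤ 2 ^ (l + 3 * g + 11) := by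
    have h1 : ((K * l : ℕ) : ℝ) ≤ ((k * (105 * l ^ 2) * l : ℕ) : ℝ) := by
      push_cast
      exact mul_le_mul_of_nonneg_right (hK2.trans hA2) (by linarith)
    have h2 : K * l ≤ k * (105 * l ^ 2) * l := by exact_mod_cast h1
    have h3 : l ^ 3 ≤ (2 ^ (g + 1)) ^ 3 := Nat.pow_le_pow_left hlg.le 3
    calc K * l ≤ k * (105 * l ^ 2) * l := h2
      _ = 105 * (k * l ^ 3) := by ring
      _ ≤ 128 * (2 ^ (l + 1) * (2 ^ (g + 1)) ^ 3) :=
          Nat.mul_le_mul (by norm_num) (Nat.mul_le_mul hkl.le h3)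
      _ = 2 ^ (l + 3 * g + 11) := by
          rw [show (128 : ℕ) = 2 ^ 7 by norm_num, ← pow_mul, ← pow_add, ← pow_add]
          congr 1
          ring
  refine ⟨2 ^ (l + 3 * g + 11), K, Nat.one_le_two_pow, hKl, fun n p hp hpl => ?_⟩
  have hKm : K ≤ 2 ^ (l + 3 * g + 11) := le_trans (Nat.le_mul_of_pos_right K hl1) hKl
  have he : LX (finrank ℝ F * k) < 2 ^ (s + (l + 3 * g + 11)) := by
    rw [hc, hLX, pow_add]
    apply mul_lt_mul_of_pos_left _ (by positivity)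
    have : (K : ℝ) ≤ 2 ^ (l + 3 * g + 11) := by exact_mod_cast hKm
    linarith
  obtain ⟨_, h2⟩ := sizes_mod (by omega) he hp (by omega)
  rw [hc, hLX, pow_add, Nat.mul_mod_mul_left] at h2
  push_cast at h2
  have h3 : ((n % 2 ^ (l + 3 * g + 11) : ℕ) : ℝ) ≤ A := le_of_mul_le_mul_left h2 (by positivity)
  have h4 : ((n % 2 ^ (l + 3 * g + 11) : ℕ) : ℝ) < K := lt_of_le_of_lt h3 hK1
  exact_mod_cast h4

end Pool.Agent.EI28X
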