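import Pool.Agent.EI28X.Core
import Pool.Agent.EI28X.Lines

set_option autoImplicit false

/-! Upper bounds for `n` in a fixed residue class modulo a power of two. -/

namespace Pool.Agent.EI28X

open Module Pool.Agent.H32Iso Pool.Agent.EI28U

theorem LX_ge (m : ℕ) : 35 / 2 * (m : ℝ) ≤ LX m := by
  unfold LX
  have h : (0 : ℝ) ≤ Nat.log 2 m := Nat.cast_nonneg _
  have hm : (0 : ℝ) ≤ m := Nat.cast_nonneg _
  have h1 : (35 : ℝ) ≤ (4 * (Nat.log 2 m : ℝ) + 7) * (2 * (Nat.log 2 m : ℝ) + 5) := by nlinarith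
  nlinarith [mul_le_mul_of_nonneg_left h1 hm]

theorem five_le {m e : ℕ} (hm : 1 ≤ m) (he : LX m < 2 ^ e) : 5 ≤ e := by
  by_contra hcon
  have h1 := LX_ge m
  have h2 : (1 : ℝ) ≤ m := by exact_mod_cast hm
  have h3 : (2 : ℝ) ^ e ≤ 2 ^ 4 := pow_le_pow_right₀ (by norm_num) (by omega)
  norm_num at h3
  linarith

theorem kappa {p : ℕ} {lam : ℝ} (hp : 13 ≤ p) (h1 : lam < 1)
    (h : 0 ≤ 1 + ((p : ℝ) - 1) * (2 * lam - 1)) : 0 < lam ∧ 1 < 2 * (lam / (1 - lam)) ^ 3 := by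
  have hp' : (13 : ℝ) ≤ p := by exact_mod_cast hp
  have hl : 11 / 24 ≤ lam := by
    by_contra hcon
    push Not at hcon
    nlinarith
  refine ⟨by linarith, ?_⟩
  have h2 : 11 / 13 ≤ lam / (1 - lam) := by
    rw [le_div_iff₀ (by linarith)]
    linarith
  have h3 : (11 / 13 : ℝ) ^ 3 ≤ (lam / (1 - lam)) ^ 3 := pow_le_pow_left₀ (by norm_num) h2 3
  norm_num at h3 ⊢
  linarith

section

variable {F : Type} [NormedDivisionRing F] [InnerProductSpace ℝ F] [IsScalarTower ℝ F F]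
  [FiniteDimensional ℝ F]

/-- If there are many members then the residue of `c n` is small and non-zero. -/
theorem sizes_mod {n k p e : ℕ} (hk : 1 ≤ k) (he : LX (finrank ℝ F * k) < 2 ^ e)
    (hp : p ∈ sizes F n (2 * n + k)) (hpe : 2 * e + 3 ≤ p) :
    1 ≤ (finrank ℝ F * n) % 2 ^ e ∧
      (((finrank ℝ F * n) % 2 ^ e : ℕ) : ℝ) ≤ LX (finrank ℝ F * k) := by
  obtain ⟨lam, V, h⟩ := hp
  have hF : 0 < finrank ℝ F := finrank_pos
  obtain ⟨_, h1, h2, _⟩ := core_mod h.cfg h.lt_one (N := finrank ℝ F * n) (m := finrank ℝ F * k)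
    (Nat.mul_pos hF hk) h.finrank_range (by rw [finrank_Sp]; ring) h.iSup_range he hpe
  exact ⟨h1, h2⟩

end

/-- The real case, `n = 1` modulo `2 ^ e`. -/
theorem upper_real {n k p e : ℕ} (hk : 1 ≤ k) (he : LX k < 2 ^ e) (hn : n % 2 ^ e = 1) (hn1 : 1 < n)
    (hp : p ∈ sizes ℝ n (2 * n + k)) (hpe : 2 * e + 3 ≤ p) : p ≤ k + 2 := by
  obtain ⟨lam, V, h⟩ := hp
  have h5 := five_le hk he
  obtain ⟨hinv, -, -, hN', hE, hlam⟩ := core_mod h.cfg h.lt_one (N := n) (m := k) (e := e) hk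
    (by intro i; rw [h.finrank_range, Module.finrank_self, one_mul])
    (by rw [finrank_Sp, Module.finrank_self, one_mul]) h.iSup_range he hpe
  rw [hn] at hN' hE hlam
  obtain ⟨h0, hκ⟩ := kappa (by omega) h.lt_one (hlam hn1)
  have hC := cfg_rst h.cfg _ hinv
  have := lines_real' hC hN' h0 h.lt_one hκ (by omega)
  omega

section Complex

variable {r : ℕ}

/-- multiplication by `i` -/
noncomputable def mulI (r : ℕ) : Sp ℂ r →ₗ[ℝ] Sp ℂ r where
  toFun x := Complex.I • x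
  map_add' x y := smul_add _ _ _
  map_smul' c x := by
    rw [RingHom.id_apply, smul_comm]

theorem mulI_apply (x : Sp ℂ r) : mulI r x = Complex.I • x := rfl

theorem mulI_mulI (x : Sp ℂ r) : mulI r (mulI r x) = -x := by
  rw [mulI_apply, mulI_apply, smul_smul, Complex.I_mul_I, neg_one_smul]

theorem inner_mulI (x y : Sp ℂ r) : inner ℝ (mulI r x) (mulI r y) = (inner ℝ x y : ℝ) := by
  rw [mulI_apply, mulI_apply, PiLp.inner_apply, PiLp.inner_apply]
  refine Finset.sum_congr rfl fun a _ => ?_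
  rw [PiLp.smul_apply, PiLp.smul_apply, Complex.inner, Complex.inner]
  simp

theorem inner_mulI_left (x y : Sp ℂ r) : inner ℝ (mulI r x) y = - (inner ℝ x (mulI r y) : ℝ) := by
  rw [← inner_mulI x (mulI r y), mulI_mulI, inner_neg_right, neg_neg]

variable {n p : ℕ} {lam : ℝ} {V : Fin p → Submodule ℂ (Sp ℂ r)}

theorem P_mulI (h : EquiIsoclinic ℂ n r p lam V) (i : Fin p) (x : Sp ℂ r) :
    h.P i (mulI r x) = mulI r (h.P i x) := by
  have h1 : proj (V i) (mulI r x) = mulI r (proj (V i) x) := by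
    rw [← isProj_iff]
    have h2 : IsProj (V i) x (proj (V i) x) := isProj_iff.mpr rfl
    refine ⟨(V i).smul_mem _ h2.1, fun w hw => ?_⟩
    rw [← map_sub, inner_mulI_left, neg_eq_zero]
    exact h2.2 _ ((V i).smul_mem _ hw)
  exact h1

theorem R_mulI (h : EquiIsoclinic ℂ n r p lam V) (i j : Fin p) (x : Sp ℂ r) :
    R lam h.P i j (mulI r x) = mulI r (R lam h.P i j x) := by
  rw [H32Iso.R_apply, H32Iso.R_apply]
  simp only [P_mulI, map_sub, map_add, map_smul]

theorem K_mulI (h : EquiIsoclinic ℂ n r p lam V) {x : Sp ℂ r} (hx : x ∈ K lam h.P Finset.univ) :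
    mulI r x ∈ K lam h.P Finset.univ := by
  intro i hi j hj hij
  rw [R_mulI, hx i hi j hj hij, map_zero]

theorem K_orth_mulI (h : EquiIsoclinic ℂ n r p lam V) :
    ∀ x ∈ (K lam h.P Finset.univ)ᗮ, mulI r x ∈ (K lam h.P Finset.univ)ᗮ := by
  intro x hx
  rw [Submodule.mem_orthogonal] at hx ⊢
  intro u hu
  have h1 := hx _ (K_mulI h hu)
  rw [inner_mulI_left] at h1
  linarith

end Complex

/-- The complex case, `n = 1` modulo `2 ^ e`. -/
theorem upper_complex {n k p e : ℕ} (hk : 1 ≤ k) (he : LX (2 * k) < 2 ^ (e + 1))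
    (hn : n % 2 ^ e = 1) (hn1 : 1 < n)
    (hp : p ∈ sizes ℂ n (2 * n + k)) (hpe : 2 * e + 5 ≤ p) : p ≤ 2 * k + 3 := by
  obtain ⟨lam, V, h⟩ := hp
  have h5 := five_le (by omega) he
  obtain ⟨hinv, -, -, hN', hE, hlam⟩ := core_mod h.cfg h.lt_one (N := 2 * n) (m := 2 * k)
    (e := e + 1) (by omega)
    (by intro i; rw [h.finrank_range, Complex.finrank_real_complex])
    (by rw [finrank_Sp, Complex.finrank_real_complex]; ring) h.iSup_range he (by omega)
  have hmod : 2 * n % 2 ^ (e + 1) = 2 := by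
    rw [pow_succ, mul_comm (2 ^ e), Nat.mul_mod_mul_left, hn]
  rw [hmod] at hN' hE hlam
  obtain ⟨h0, hκ⟩ := kappa (by omega) h.lt_one (hlam (by omega))
  have hC := cfg_rst h.cfg _ hinv
  have := lines_complex' hC hN' ((mulI _).restrict (K_orth_mulI h))
    (fun x y => inner_mulI x.1 y.1) (fun x => Subtype.ext (mulI_mulI x.1))
    (fun i x => Subtype.ext (P_mulI h i x.1)) h0 h.lt_one hκ (by omega)
  omega

end Pool.Agent.EI28X
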