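import Mathlib

set_option autoImplicit false

/-! Positive weights with equal aperiodic autocorrelations. -/

namespace Pool.Agent.EI28X

open Finset Filter Topology

/-- the quadratic part of the autocorrelation with lag `t + 1` -/
def Qt {s : ℕ} (t : Fin s) (x : Fin s → ℝ) : ℝ :=
  ∑ a : Fin s, ∑ b : Fin s, if b.val = a.val + t.val + 1 then x a * x b else 0

theorem contDiff_Qt {s : ℕ} (t : Fin s) : ContDiff ℝ 1 (fun z : ℝ × (Fin s → ℝ) => Qt t z.2) := by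
  unfold Qt
  refine ContDiff.sum fun a _ => ContDiff.sum fun b _ => ?_
  split_ifs
  · fun_prop
  · exact contDiff_const

/-- the map `(P, x) ↦ (P, x + P Q(x))` -/
noncomputable def Phi (s : ℕ) (z : ℝ × (Fin s → ℝ)) : ℝ × (Fin s → ℝ) :=
  (z.1, fun t => z.2 t + z.1 * Qt t z.2)

theorem exists_weights (s : ℕ) (δ : ℝ) (hδ : 0 < δ) :
    ∃ (P : ℝ) (x : Fin s → ℝ), 0 < P ∧ P < δ ∧ (∀ t, 0 < x t) ∧
      ∀ t, x t + P * Qt t x = 1 := by
  set x0 : ℝ × (Fin s → ℝ) := (0, fun _ => 1) with hx0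
  have h2 : HasStrictFDerivAt (fun z : ℝ × (Fin s → ℝ) => z.1)
      (ContinuousLinearMap.fst ℝ ℝ (Fin s → ℝ)) x0 :=
    (ContinuousLinearMap.fst ℝ ℝ (Fin s → ℝ)).hasStrictFDerivAt
  have h1 : ∀ t : Fin s, HasStrictFDerivAt (fun z : ℝ × (Fin s → ℝ) => z.2 t)
      ((ContinuousLinearMap.proj t).comp (ContinuousLinearMap.snd ℝ ℝ (Fin s → ℝ))) x0 := fun t =>
    ((ContinuousLinearMap.proj t).comp (ContinuousLinearMap.snd ℝ ℝ (Fin s → ℝ))).hasStrictFDerivAt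
  have h3 : ∀ t : Fin s, HasStrictFDerivAt (fun z : ℝ × (Fin s → ℝ) => Qt t z.2)
      (fderiv ℝ (fun z : ℝ × (Fin s → ℝ) => Qt t z.2) x0) x0 := fun t =>
    (contDiff_Qt t).contDiffAt.hasStrictFDerivAt (by norm_num)
  have h4 := fun t => (h1 t).add (h2.mul (h3 t))
  have h5 := hasStrictFDerivAt_pi.2 h4
  have h6 := h2.prodMk h5
  have h7 : HasStrictFDerivAt (Phi s) _ x0 := h6
  have h8 := h7.map_nhds_eq_of_surj (by
    rw [LinearMap.range_eq_top]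
    rintro ⟨a, b⟩
    refine ⟨(a, fun t => b t - Qt t x0.2 * a), ?_⟩
    apply Prod.ext
    · simp
    · funext t
      simp [hx0])
  have hval : Phi s x0 = (0, fun _ => 1) := by
    ext t
    · rfl
    · simp [Phi, hx0]
  rw [hval] at h8
  have hU : {z : ℝ × (Fin s → ℝ) | ∀ t, 0 < z.2 t} ∈ 𝓝 x0 := by
    apply IsOpen.mem_nhds
    · have e : {z : ℝ × (Fin s → ℝ) | ∀ t, 0 < z.2 t} = ⋂ t, {z | 0 < z.2 t} := by
        ext z; simp
      rw [e]
      exact isOpen_iInter_of_finite fun t => isOpen_lt continuous_const (by fun_prop)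
    · intro t
      simp [hx0]
  have hV : Phi s '' {z : ℝ × (Fin s → ℝ) | ∀ t, 0 < z.2 t} ∈ 𝓝 ((0 : ℝ), fun _ : Fin s => (1 : ℝ)) := by
    rw [← h8]
    exact image_mem_map hU
  have hc : Tendsto (fun P : ℝ => (P, fun _ : Fin s => (1 : ℝ))) (𝓝[>] 0) (𝓝 (0, fun _ => 1)) := by
    have : Continuous (fun P : ℝ => (P, fun _ : Fin s => (1 : ℝ))) := by fun_prop
    exact this.continuousAt.tendsto.mono_left nhdsWithin_le_nhds
  have h9 := hc.eventually hV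
  have h10 : ∀ᶠ P : ℝ in 𝓝[>] 0, P < δ := nhdsWithin_le_nhds (Iio_mem_nhds hδ)
  obtain ⟨P, ⟨⟨⟨P', x⟩, hx, hPx⟩, hPδ⟩, hP0⟩ := ((h9.and h10).and self_mem_nhdsWithin).exists
  rw [Phi, Prod.mk.injEq] at hPx
  obtain ⟨rfl, hPx⟩ := hPx
  exact ⟨P', x, hP0, hPδ, hx, fun t => congrFun hPx t⟩

end Pool.Agent.EI28X
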